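import Mathlib
import Pool.Agent.H378R2.LSBV7
import Pool.Agent.H379R2.SWMain
import Pool.Agent.H307R2.Sg6
import Pool.Agent.H262R2.UM.Small

/-! Siegel-Walfisz for the smooth sums, and the total weight of the small conductors. -/

open Finset Filter Topology

namespace Pool.Agent.H262R2.UM

open Pool.Agent.H378R2 Pool.Agent.H378R2.LSBV

theorem sw_phi (A B : ℕ) : ∃ X0 : ℝ, ∀ X : ℝ, X0 ≤ X → ∀ Y : ℝ, X ≤ Y →
    ∀ f : ℕ, 1 < f → (f : ℝ) ≤ (Real.log X) ^ B → ∀ χ : DirichletCharacter ℂ f, χ.IsPrimitive →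
      ‖psiPhi χ Y‖ ≤ Y / (Real.log X) ^ A := by
  obtain ⟨x0, hx0⟩ := Pool.Agent.H379R2.SW.siegelWalfisz Pool.Agent.H307R2.siegel (A + 1) B
  refine ⟨max (max x0 1) (Real.exp 12), ?_⟩
  intro X hX Y hXY f hf hfB χ hχ
  have hXx : x0 ≤ X := ((le_max_left _ _).trans (le_max_left _ _)).trans hX
  have hX8 : Real.exp 12 ≤ X := (le_max_right _ _).trans hX
  have hXpos : 0 < X := lt_of_lt_of_le (Real.exp_pos _) hX8
  have hYpos : 0 < Y := lt_of_lt_of_le hXpos hXY
  have hL : 12 ≤ Real.log X := by rw [Real.le_log_iff_exp_le hXpos]; exact hX8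
  have h3 : Real.exp 1 ≤ 3 := by
    have := Real.exp_one_lt_d9
    linarith
  have h12 : Real.exp (1 / 2) ≤ 2 := by
    have h := Real.exp_one_lt_d9
    have h2 : Real.exp (1 / 2) * Real.exp (1 / 2) = Real.exp 1 := by
      rw [← Real.exp_add]; norm_num
    nlinarith [Real.exp_pos (1 / 2)]
  have h12' : 1 ≤ Real.exp (1 / 2) := Real.one_le_exp (by norm_num)
  have h1' : 1 ≤ Real.exp 1 := Real.one_le_exp (by norm_num)
  have key : ∀ c : ℝ, 1 ≤ c → c ≤ 3 → ‖Pool.Agent.H410R2.psiLog (c * Y) f χ‖ ≤ 3 * Y / (Real.log X) ^ (A + 1) := by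
    intro c hc1 hc3
    have hcY : X ≤ c * Y := by nlinarith
    have hlog : Real.log X ≤ Real.log (c * Y) := Real.log_le_log hXpos hcY
    have h := hx0 (c * Y) (hXx.trans hcY) f hf (hfB.trans (pow_le_pow_left₀ (by linarith) hlog _)) χ hχ
    refine h.trans ?_
    apply div_le_div₀ (by positivity) (by nlinarith) (by positivity)
    exact pow_le_pow_left₀ (by linarith) hlog _
  have k1 := key 1 le_rfl (by norm_num)
  rw [one_mul] at k1
  have k2 := key _ h12' (by linarith)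
  have k3 := key _ h1' h3
  refine (norm_psiPhi_le Y hYpos f χ).trans ?_
  have e1 : 3 * Y / (Real.log X) ^ (A + 1) + 2 * (3 * Y / (Real.log X) ^ (A + 1)) + 3 * Y / (Real.log X) ^ (A + 1) =
      (12 / Real.log X) * (Y / (Real.log X) ^ A) := by
    rw [pow_succ]
    have : Real.log X ≠ 0 := by linarith
    field_simp
    ring
  have e2 : 12 / Real.log X ≤ 1 := by
    rw [div_le_one (by linarith)]; exact hL
  have e3 : 0 ≤ Y / (Real.log X) ^ A := by positivity
  calc _ ≤ 3 * Y / (Real.log X) ^ (A + 1) + 2 * (3 * Y / (Real.log X) ^ (A + 1)) + 3 * Y / (Real.log X) ^ (A + 1) := by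
        linarith
    _ = (12 / Real.log X) * (Y / (Real.log X) ^ A) := e1
    _ ≤ 1 * (Y / (Real.log X) ^ A) := mul_le_mul_of_nonneg_right e2 e3
    _ = _ := one_mul _

end Pool.Agent.H262R2.UM
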