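import Mathlib
import Pool.Agent.H262R2.UM.SW

/-! Good moduli. -/

open Finset Filter Topology

namespace Pool.Agent.H262R2.UM

open Pool.Agent.H378R2 Pool.Agent.H378R2.LSBV Pool.Agent.H398R2.BV

/-- bound for the cofactors -/
noncomputable def UU (X : ℝ) : ℕ := ⌊Real.exp ((Real.log (Real.log X)) ^ 6 / 8)⌋₊

/-- the pairs (cofactor, divisor of `a ^ 2`) -/
noncomputable def GP (X : ℝ) (a ps : ℕ) : Finset (ℕ × ℕ) :=
  (Icc 1 (UU X) ×ˢ (a ^ 2).divisors).filter (fun p => Squarefree p.1 ∧ p.1.Coprime (a * ps) ∧ p.2 * p.1 ≠ 1)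

/-- mass of the small conductors attached to `a` at scale `Y` -/
noncomputable def GG (X Y : ℝ) (a ps : ℕ) : ℝ := ∑ p ∈ GP X a ps, TT Y (p.2 * p.1)

/-- good moduli -/
def GoodA (X : ℝ) (N Z a : ℕ) : Prop := ∀ k : ℕ, X ≤ Real.exp k → Real.exp k ≤ X ^ 2 →
  ∃ ps : ℕ, GoodP Z ps ∧ GG X (Real.exp k) a ps ≤ Real.exp k / (Real.log X) ^ N

theorem sq_dvd_count (d T : ℕ) (hd : 1 ≤ d) : (#{a ∈ Icc 1 T | d ∣ a ^ 2} : ℝ) ≤ T / Real.sqrt d := by
  classical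
  have hex : ∃ s, 1 ≤ s ∧ d ∣ s ^ 2 := ⟨d, hd, Dvd.intro_left _ (by ring : d * d = d ^ 2)⟩
  set s := Nat.find hex with hs
  obtain ⟨hs1, hs2⟩ := Nat.find_spec hex
  rw [← hs] at hs1 hs2
  have hmin : ∀ a, 1 ≤ a → d ∣ a ^ 2 → s ∣ a := by
    intro a ha hda
    have hg : d ∣ (Nat.gcd a s) ^ 2 := by
      have : (Nat.gcd a s) ^ 2 = Nat.gcd (a ^ 2) (s ^ 2) := Nat.pow_gcd_pow.symm
      rw [this]
      exact Nat.dvd_gcd hda hs2
    have hg1 : 1 ≤ Nat.gcd a s := Nat.gcd_pos_of_pos_left _ ha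
    have h3 : s ≤ Nat.gcd a s := Nat.find_min' hex ⟨hg1, hg⟩
    have h4 : Nat.gcd a s = s := le_antisymm (Nat.le_of_dvd hs1 (Nat.gcd_dvd_right _ _)) h3
    rw [← h4]
    exact Nat.gcd_dvd_left _ _
  have hsub : {a ∈ Icc 1 T | d ∣ a ^ 2} ⊆ {a ∈ Ioc 0 T | s ∣ a} := by
    intro a ha
    rw [mem_filter, mem_Icc] at ha
    rw [mem_filter, mem_Ioc]
    exact ⟨by omega, hmin a ha.1.1 ha.2⟩
  have hcard := card_le_card hsub
  rw [Nat.Ioc_filter_dvd_card_eq_div] at hcard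
  have hds : (d : ℝ) ≤ (s : ℝ) ^ 2 := by
    exact_mod_cast Nat.le_of_dvd (by positivity) hs2
  have hs0 : (0 : ℝ) < s := by exact_mod_cast hs1
  have hsq : Real.sqrt d ≤ s := by
    rw [Real.sqrt_le_left hs0.le]; exact hds
  have hsq0 : 0 < Real.sqrt d := Real.sqrt_pos.2 (by exact_mod_cast hd)
  calc (#{a ∈ Icc 1 T | d ∣ a ^ 2} : ℝ) ≤ ((T / s : ℕ) : ℝ) := by exact_mod_cast hcard
    _ ≤ (T : ℝ) / s := Nat.cast_div_le
    _ ≤ T / Real.sqrt d := div_le_div_of_nonneg_left (Nat.cast_nonneg _) hsq0 hsq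

theorem gcd_of_pair {a u d : ℕ} (hu : u.Coprime a) (hd : d ∣ a ^ 2) : Nat.gcd (d * u) (a ^ 2) = d := by
  have h1 : u.Coprime (a ^ 2) := Nat.Coprime.pow_right 2 hu
  rw [Nat.Coprime.gcd_mul_right_cancel d h1]
  exact Nat.gcd_eq_left hd

theorem pair_injective {a u d u' d' : ℕ} (hu : u.Coprime a) (hd : d ∣ a ^ 2) (hu' : u'.Coprime a) (hd' : d' ∣ a ^ 2)
    (hd1 : 1 ≤ d) (h : d * u = d' * u') : u = u' ∧ d = d' := by
  have h1 := gcd_of_pair hu hd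
  have h2 := gcd_of_pair hu' hd'
  have h3 : d = d' := by rw [← h1, h, h2]
  subst h3
  exact ⟨Nat.eq_of_mul_eq_mul_left hd1 h, rfl⟩

/-- sum over a set of pairs, injected -/
theorem pairs_sum_le (a : ℕ) (ha : 1 ≤ a) (P : Finset (ℕ × ℕ)) (hP : ∀ p ∈ P, p.1.Coprime a ∧ p.2 ∣ a ^ 2)
    (g : ℕ → ℝ) (hg : ∀ f, 0 ≤ g f) (S : Finset ℕ) (hS : ∀ p ∈ P, p.2 * p.1 ∈ S) :
    ∑ p ∈ P, g (p.2 * p.1) ≤ ∑ f ∈ S, g f := by
  classical
  have hinj : Set.InjOn (fun p : ℕ × ℕ => p.2 * p.1) P := by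
    intro p hp q hq h
    have hpp := hP p hp
    have hqq := hP q hq
    have h1 : 1 ≤ p.2 := Nat.pos_of_dvd_of_pos hpp.2 (by positivity)
    obtain ⟨h2, h3⟩ := pair_injective hpp.1 hpp.2 hqq.1 hqq.2 h1 h
    exact Prod.ext h2 h3
  rw [← Finset.sum_image (f := g) hinj]
  apply Finset.sum_le_sum_of_subset_of_nonneg
  · intro f hf
    rw [mem_image] at hf
    obtain ⟨p, hp, rfl⟩ := hf
    exact hS p hp
  · intro f _ _
    exact hg f

/-- the part of small conductor -/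
theorem small_sum (Y E0 η V : ℝ) (hY : 0 ≤ Y) (hE0 : 0 ≤ E0) (hη : 0 ≤ η) (hV : 0 ≤ V) (fs a : ℕ) (ha : 1 ≤ a)
    (P : Finset (ℕ × ℕ)) (hP : ∀ p ∈ P, p.1.Coprime a ∧ p.2 ∣ a ^ 2)
    (hP2 : ∀ p ∈ P, 1 < p.2 * p.1 ∧ ((p.2 * p.1 : ℕ) : ℝ) ≤ E0)
    (h1 : ∀ f : ℕ, 1 < f → (f : ℝ) ≤ E0 → f ≠ fs → ∀ χ : DirichletCharacter ℂ f, χ.IsPrimitive → ‖psiPhi χ Y‖ ≤ Y * η)
    (h2 : (∃ p ∈ P, p.2 * p.1 = fs) → TT Y fs ≤ V) :
    ∑ p ∈ P, TT Y (p.2 * p.1) ≤ E0 ^ 2 * (Y * η) + V := by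
  classical
  rw [← sum_filter_add_sum_filter_not P (fun p => p.2 * p.1 ≠ fs)]
  apply add_le_add
  · have e1 := pairs_sum_le a ha (P.filter (fun p => p.2 * p.1 ≠ fs))
      (fun p hp => hP p (mem_filter.1 hp).1) (TT Y) (TT_nonneg Y)
      ((Icc 2 ⌊E0⌋₊).filter (fun f => f ≠ fs)) (by
        intro p hp
        rw [mem_filter] at hp
        rw [mem_filter, mem_Icc]
        have := hP2 p hp.1
        exact ⟨⟨this.1, Nat.le_floor this.2⟩, hp.2⟩)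
    refine e1.trans ?_
    have e2 : ∀ f ∈ (Icc 2 ⌊E0⌋₊).filter (fun f => f ≠ fs), TT Y f ≤ E0 * (Y * η) := by
      intro f hf
      rw [mem_filter, mem_Icc] at hf
      have hfE : (f : ℝ) ≤ E0 := (Nat.le_floor_iff hE0).1 hf.1.2
      refine (TT_le Y f (by omega) (Y * η) (by positivity) (h1 f (by omega) hfE hf.2)).trans ?_
      exact mul_le_mul_of_nonneg_right hfE (by positivity)
    refine (sum_le_sum e2).trans ?_
    rw [sum_const, nsmul_eq_mul]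
    have e3 : (#((Icc 2 ⌊E0⌋₊).filter (fun f => f ≠ fs)) : ℝ) ≤ E0 := by
      have : #((Icc 2 ⌊E0⌋₊).filter (fun f => f ≠ fs)) ≤ ⌊E0⌋₊ := by
        refine (card_filter_le _ _).trans ?_
        rw [Nat.card_Icc]
        omega
      calc (#((Icc 2 ⌊E0⌋₊).filter (fun f => f ≠ fs)) : ℝ) ≤ ⌊E0⌋₊ := by exact_mod_cast this
        _ ≤ _ := Nat.floor_le hE0
    calc _ ≤ E0 * (E0 * (Y * η)) := mul_le_mul_of_nonneg_right e3 (by positivity)
      _ = _ := by ring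
  · by_cases hex : ∃ p ∈ P, p.2 * p.1 = fs
    · refine le_trans ?_ (h2 hex)
      have e1 := pairs_sum_le a ha (P.filter (fun p => ¬ p.2 * p.1 ≠ fs))
        (fun p hp => hP p (mem_filter.1 hp).1) (TT Y) (TT_nonneg Y) {fs} (by
          intro p hp
          rw [mem_filter, not_not] at hp
          rw [mem_singleton]
          exact hp.2)
      rwa [sum_singleton] at e1
    · have : P.filter (fun p => ¬ p.2 * p.1 ≠ fs) = ∅ := by
        apply filter_eq_empty_iff.2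
        intro p hp
        rw [not_not]
        intro h
        exact hex ⟨p, hp, h⟩
      rw [this, sum_empty]
      exact hV

/-- the part of large conductor -/
noncomputable def HH (U : ℕ) (Y E0 : ℝ) (a : ℕ) : ℝ :=
  ∑ p ∈ (Icc 1 U ×ˢ (a ^ 2).divisors).filter (fun p => E0 < ((p.2 * p.1 : ℕ) : ℝ)), TT Y (p.2 * p.1)

theorem HH_nonneg (U : ℕ) (Y E0 : ℝ) (a : ℕ) : 0 ≤ HH U Y E0 a := sum_nonneg fun _ _ => TT_nonneg Y _

theorem HH_average (U T F : ℕ) (Y E0 : ℝ) (hE0 : 1 ≤ E0) (hF : T ^ 2 * U ≤ F) :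
    ∑ a ∈ Icc 1 T, HH U Y E0 a ≤ T * (U ^ 2 / Real.sqrt E0) * ∑ f ∈ Icc 2 F, TT Y f := by
  classical
  set S := ∑ f ∈ Icc 2 F, TT Y f with hS
  have hS0 : 0 ≤ S := sum_nonneg fun _ _ => TT_nonneg Y _
  have hsq : 0 < Real.sqrt E0 := Real.sqrt_pos.2 (by linarith)
  have e1 : ∑ a ∈ Icc 1 T, HH U Y E0 a = ∑ u ∈ Icc 1 U, ∑ a ∈ Icc 1 T,
      ∑ d ∈ (a ^ 2).divisors.filter (fun d => E0 < ((d * u : ℕ) : ℝ)), TT Y (d * u) := by
    unfold HH
    rw [sum_comm]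
    refine sum_congr rfl fun a _ => ?_
    rw [sum_filter, sum_product]
    refine sum_congr rfl fun u _ => ?_
    rw [sum_filter]
  rw [e1]
  have e2 : ∀ u ∈ Icc 1 U, ∑ a ∈ Icc 1 T,
      ∑ d ∈ (a ^ 2).divisors.filter (fun d => E0 < ((d * u : ℕ) : ℝ)), TT Y (d * u) ≤
      T * (U / Real.sqrt E0) * S := by
    intro u hu
    rw [mem_Icc] at hu
    have hur : (1 : ℝ) ≤ u := by exact_mod_cast hu.1
    have huU : (u : ℝ) ≤ U := by exact_mod_cast hu.2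
    have e3 : ∑ a ∈ Icc 1 T, ∑ d ∈ (a ^ 2).divisors.filter (fun d => E0 < ((d * u : ℕ) : ℝ)), TT Y (d * u) =
        ∑ d ∈ (Icc 1 (T ^ 2)).filter (fun d => E0 < ((d * u : ℕ) : ℝ)),
          ∑ a ∈ (Icc 1 T).filter (fun a => d ∣ a ^ 2), TT Y (d * u) := by
      apply sum_comm'
      intro a d
      simp only [mem_filter, mem_Icc, Nat.mem_divisors]
      constructor
      · rintro ⟨⟨h1, h2⟩, ⟨h3, h4⟩, h5⟩
        refine ⟨⟨⟨h1, h2⟩, h3⟩, ⟨Nat.pos_of_dvd_of_pos h3 (by positivity), ?_⟩, h5⟩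
        exact (Nat.le_of_dvd (by positivity) h3).trans (Nat.pow_le_pow_left h2 2)
      · rintro ⟨⟨⟨h1, h2⟩, h3⟩, ⟨h4, h6⟩, h5⟩
        exact ⟨⟨h1, h2⟩, ⟨h3, by positivity⟩, h5⟩
    rw [e3]
    have e4 : ∀ d ∈ (Icc 1 (T ^ 2)).filter (fun d => E0 < ((d * u : ℕ) : ℝ)),
        ∑ a ∈ (Icc 1 T).filter (fun a => d ∣ a ^ 2), TT Y (d * u) ≤
        (T * (U / Real.sqrt E0)) * TT Y (d * u) := by
      intro d hd
      rw [mem_filter, mem_Icc] at hd
      rw [sum_const, nsmul_eq_mul]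
      apply mul_le_mul_of_nonneg_right _ (TT_nonneg Y _)
      refine (sq_dvd_count d T hd.1.1).trans ?_
      have hd0 : (0 : ℝ) < d := by exact_mod_cast hd.1.1
      have h6 : E0 < (d : ℝ) * u := by
        have := hd.2
        push_cast at this
        exact this
      have h7 : Real.sqrt E0 ≤ Real.sqrt d * u := by
        rw [Real.sqrt_le_left (by positivity), mul_pow, Real.sq_sqrt hd0.le]
        nlinarith
      have h8 : 0 < Real.sqrt d := Real.sqrt_pos.2 hd0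
      rw [div_eq_mul_one_div]
      apply mul_le_mul_of_nonneg_left _ (Nat.cast_nonneg _)
      rw [div_le_div_iff₀ h8 hsq, one_mul]
      calc Real.sqrt E0 ≤ Real.sqrt d * u := h7
        _ ≤ Real.sqrt d * U := mul_le_mul_of_nonneg_left huU h8.le
        _ = U * Real.sqrt d := mul_comm _ _
    refine (sum_le_sum e4).trans ?_
    rw [← mul_sum]
    apply mul_le_mul_of_nonneg_left _ (by positivity)
    have hinj : Set.InjOn (fun d : ℕ => d * u) ((Icc 1 (T ^ 2)).filter (fun d => E0 < ((d * u : ℕ) : ℝ)) : Finset ℕ) := by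
      intro d _ d' _ h
      exact Nat.eq_of_mul_eq_mul_right hu.1 h
    rw [← Finset.sum_image (f := TT Y) hinj, hS]
    apply Finset.sum_le_sum_of_subset_of_nonneg
    · intro f hf
      rw [mem_image] at hf
      obtain ⟨d, hd, rfl⟩ := hf
      rw [mem_filter, mem_Icc] at hd
      rw [mem_Icc]
      constructor
      · have h6 : (1 : ℝ) < ((d * u : ℕ) : ℝ) := lt_of_le_of_lt hE0 hd.2
        have h7 : 1 < d * u := by exact_mod_cast h6
        omega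
      · exact (Nat.mul_le_mul hd.1.2 hu.2).trans hF
    · intro f _ _
      exact TT_nonneg Y f
  refine (sum_le_sum e2).trans ?_
  rw [sum_const, Nat.card_Icc, Nat.add_sub_cancel, nsmul_eq_mul]
  apply le_of_eq
  ring

end Pool.Agent.H262R2.UM
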