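import Mathlib
import Pool.Agent.H262R2.UM.Good

/-! Almost all moduli are good. -/

open Finset Filter Topology

namespace Pool.Agent.H262R2.UM

open Pool.Agent.H378R2 Pool.Agent.H378R2.LSBV Pool.Agent.H398R2.BV

theorem mem_GP {X : ℝ} {a ps : ℕ} {p : ℕ × ℕ} : p ∈ GP X a ps ↔
    ((1 ≤ p.1 ∧ p.1 ≤ UU X) ∧ (p.2 ∣ a ^ 2 ∧ a ^ 2 ≠ 0)) ∧ Squarefree p.1 ∧ p.1.Coprime (a * ps) ∧ p.2 * p.1 ≠ 1 := by
  unfold GP
  rw [mem_filter, mem_product, mem_Icc, Nat.mem_divisors]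

theorem dvd_primorial_of {u Z : ℕ} (hu : Squarefree u) (h : ∀ p : ℕ, p.Prime → p ∣ u → p ≤ Z) : u ∣ primorial Z := by
  rw [← Nat.prod_primeFactors_of_squarefree hu]
  unfold primorial
  apply prod_dvd_prod_of_subset
  intro p hp
  rw [mem_filter, mem_range]
  have hp' := Nat.prime_of_mem_primeFactors hp
  have := h p hp' (Nat.dvd_of_mem_primeFactors hp)
  exact ⟨by omega, hp'⟩

theorem good_of (X Y L l E0 : ℝ) (B1 N Z a fs : ℕ) (hY : 0 < Y) (hL : 1 ≤ L) (hE0 : 0 ≤ E0) (ha : 1 ≤ a)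
    (h1 : ∀ f : ℕ, 1 < f → (f : ℝ) ≤ E0 → f ≠ fs → ∀ χ : DirichletCharacter ℂ f, χ.IsPrimitive →
      ‖psiPhi χ Y‖ ≤ Y * Real.exp (-l ^ 7))
    (h2 : (fs : ℝ) ≤ L ^ B1 → 1 < fs → ∀ χ : DirichletCharacter ℂ fs, χ.IsPrimitive → ‖psiPhi χ Y‖ ≤ Y / L ^ (N + B1 + 2))
    (hbad : L ^ B1 < (fs : ℝ) → ¬ ∃ u ∈ Icc 1 (primorial Z), u ∣ fs ∧ fs / u ∣ a ^ 2)
    (hH : HH (UU X) Y E0 a ≤ Y / (2 * L ^ N))
    (h3 : E0 ^ 2 * Real.exp (-l ^ 7) ≤ 1 / (4 * L ^ N)) (h4 : 1 / L ^ 2 ≤ 1 / 4) :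
    ∃ ps, GoodP Z ps ∧ GG X Y a ps ≤ Y / L ^ N := by
  classical
  have hLN : 0 < L ^ N := by positivity
  have ha2 : a ^ 2 ≠ 0 := by positivity
  have step : ∀ ps : ℕ, ((∀ p ∈ GP X a ps, p.2 * p.1 ≠ fs) ∨ (fs : ℝ) ≤ L ^ B1) → GG X Y a ps ≤ Y / L ^ N := by
    intro ps hps
    unfold GG
    rw [← sum_filter_add_sum_filter_not (GP X a ps) (fun p => ((p.2 * p.1 : ℕ) : ℝ) ≤ E0)]
    have hV : 0 ≤ Y / (4 * L ^ N) := by positivity
    have e1 := small_sum Y E0 (Real.exp (-l ^ 7)) (Y / (4 * L ^ N)) hY.le hE0 (Real.exp_pos _).le hV fs a ha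
      ((GP X a ps).filter (fun p => ((p.2 * p.1 : ℕ) : ℝ) ≤ E0))
      (by
        intro p hp
        rw [mem_filter, mem_GP] at hp
        exact ⟨Nat.Coprime.coprime_mul_right_right hp.1.2.2.1, hp.1.1.2.1⟩)
      (by
        intro p hp
        rw [mem_filter, mem_GP] at hp
        obtain ⟨⟨⟨⟨hu1, _⟩, hd, _⟩, _, _, hne⟩, hE⟩ := hp
        refine ⟨?_, hE⟩
        have hd1 : 0 < p.2 := Nat.pos_of_dvd_of_pos hd (by positivity)
        have : 0 < p.2 * p.1 := Nat.mul_pos hd1 hu1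
        omega)
      h1
      (by
        rintro ⟨p, hp, hpf⟩
        rw [mem_filter] at hp
        have hfsL : (fs : ℝ) ≤ L ^ B1 := by
          rcases hps with h | h
          · exact absurd hpf (h p hp.1)
          · exact h
        have hp' := hp.1
        rw [mem_GP] at hp'
        obtain ⟨⟨⟨hu1, _⟩, hd, _⟩, _, _, hne⟩ := hp'
        have hd1 : 0 < p.2 := Nat.pos_of_dvd_of_pos hd (by positivity)
        have hpos : 0 < p.2 * p.1 := Nat.mul_pos hd1 hu1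
        have hfs1 : 1 < fs := by omega
        refine (TT_le Y fs (by omega) (Y / L ^ (N + B1 + 2)) (by positivity) (h2 hfsL hfs1)).trans ?_
        calc (fs : ℝ) * (Y / L ^ (N + B1 + 2)) ≤ L ^ B1 * (Y / L ^ (N + B1 + 2)) :=
              mul_le_mul_of_nonneg_right hfsL (by positivity)
          _ = (1 / L ^ 2) * (Y / L ^ N) := by
              rw [pow_add, pow_add]
              have : L ≠ 0 := by positivity
              field_simp
          _ ≤ (1 / 4) * (Y / L ^ N) := mul_le_mul_of_nonneg_right h4 (by positivity)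
          _ = Y / (4 * L ^ N) := by field_simp)
    have e2 : ∑ p ∈ (GP X a ps).filter (fun p => ¬ ((p.2 * p.1 : ℕ) : ℝ) ≤ E0), TT Y (p.2 * p.1) ≤
        HH (UU X) Y E0 a := by
      unfold HH
      apply Finset.sum_le_sum_of_subset_of_nonneg
      · intro p hp
        rw [mem_filter, mem_GP, not_le] at hp
        rw [mem_filter, mem_product, mem_Icc, Nat.mem_divisors]
        exact ⟨⟨hp.1.1.1, hp.1.1.2⟩, hp.2⟩
      · intro p _ _
        exact TT_nonneg Y _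
    have e3 : E0 ^ 2 * (Y * Real.exp (-l ^ 7)) ≤ Y / (4 * L ^ N) := by
      calc E0 ^ 2 * (Y * Real.exp (-l ^ 7)) = Y * (E0 ^ 2 * Real.exp (-l ^ 7)) := by ring
        _ ≤ Y * (1 / (4 * L ^ N)) := mul_le_mul_of_nonneg_left h3 hY.le
        _ = _ := by ring
    have e4 : Y / (4 * L ^ N) + Y / (4 * L ^ N) + Y / (2 * L ^ N) = Y / L ^ N := by
      field_simp
      ring
    linarith
  by_cases hfs : (fs : ℝ) ≤ L ^ B1
  · exact ⟨1, Or.inl rfl, step 1 (Or.inr hfs)⟩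
  push Not at hfs
  have hb := hbad hfs
  set d0 := Nat.gcd fs (a ^ 2) with hd0
  have hpair : ∀ ps, ∀ p ∈ GP X a ps, p.2 * p.1 = fs → p.2 = d0 ∧ p.1 = fs / d0 := by
    intro ps p hp hpf
    rw [mem_GP] at hp
    obtain ⟨⟨⟨hu1, _⟩, hd, _⟩, _, hcop, hne⟩ := hp
    have h5 := gcd_of_pair (Nat.Coprime.coprime_mul_right_right hcop) hd
    rw [hpf] at h5
    have hd1 : 0 < p.2 := Nat.pos_of_dvd_of_pos hd (by positivity)
    refine ⟨h5.symm, ?_⟩
    rw [hd0, h5, ← hpf]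
    exact (Nat.mul_div_cancel_left p.1 hd1).symm
  by_cases hc : ∃ p : ℕ, p.Prime ∧ Z < p ∧ p ∣ fs / d0
  · obtain ⟨q, hq, hZq, hqd⟩ := hc
    refine ⟨q, Or.inr ⟨hq, hZq⟩, step q (Or.inl ?_)⟩
    intro p hp hpf
    obtain ⟨h5, h6⟩ := hpair q p hp hpf
    rw [mem_GP] at hp
    have hcop := hp.2.2.1
    have h7 : p.1.Coprime q := Nat.Coprime.coprime_mul_left_right hcop
    rw [← h6] at hqd
    have h8 : q ∣ Nat.gcd p.1 q := Nat.dvd_gcd hqd dvd_rfl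
    rw [h7] at h8
    exact hq.one_lt.ne' (Nat.dvd_one.1 h8)
  · push Not at hc
    refine ⟨1, Or.inl rfl, step 1 (Or.inl ?_)⟩
    intro p hp hpf
    obtain ⟨h5, h6⟩ := hpair 1 p hp hpf
    rw [mem_GP] at hp
    obtain ⟨⟨⟨hu1, _⟩, hd, _⟩, hsq, hcop, hne⟩ := hp
    apply hb
    have h7 : p.1 ∣ primorial Z := by
      apply dvd_primorial_of hsq
      intro q hq hqd
      by_contra hqZ
      push Not at hqZ
      rw [h6] at hqd
      exact hc q hq hqZ hqd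
    refine ⟨p.1, mem_Icc.2 ⟨hu1, Nat.le_of_dvd (primorial_pos Z) h7⟩, Dvd.intro_left _ hpf, ?_⟩
    have h8 : fs / p.1 = p.2 := by
      rw [← hpf]
      exact Nat.mul_div_cancel p.2 hu1
    rw [h8]
    exact hd

end Pool.Agent.H262R2.UM
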