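import Mathlib
import Pool.Agent.H262R2.UM.Count

/-! Almost all moduli are good: the count. -/

open Finset Filter Topology

namespace Pool.Agent.H262R2.UM

open Pool.Agent.H378R2 Pool.Agent.H378R2.LSBV Pool.Agent.H398R2.BV

theorem lll : Tendsto (fun X : ℝ => Real.log (Real.log X)) atTop atTop :=
  Real.tendsto_log_atTop.comp Real.tendsto_log_atTop

theorem ev_pow6 (c : ℝ) (hc : 0 < c) : ∀ᶠ X : ℝ in atTop, (Real.log (Real.log X)) ^ 6 ≤ c * Real.log X := by
  have h1 := (isLittleO_log_rpow_atTop (by norm_num : (0 : ℝ) < 1 / 12)).def (by norm_num : (0 : ℝ) < 1)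
  have h2 := Real.tendsto_log_atTop.eventually h1
  filter_upwards [h2, Real.tendsto_log_atTop.eventually_ge_atTop (max 1 ((1 / c) ^ 2)), lll.eventually_ge_atTop 1]
    with X h3 h4 h5
  have hL1 : 1 ≤ Real.log X := (le_max_left _ _).trans h4
  have hL2 : (1 / c) ^ 2 ≤ Real.log X := (le_max_right _ _).trans h4
  rw [one_mul, Real.norm_of_nonneg (by linarith), Real.norm_of_nonneg (Real.rpow_nonneg (by linarith) _)] at h3
  have h6 : (Real.log (Real.log X)) ^ 6 ≤ Real.sqrt (Real.log X) := by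
    calc (Real.log (Real.log X)) ^ 6 ≤ ((Real.log X) ^ (1 / 12 : ℝ)) ^ 6 := pow_le_pow_left₀ (by linarith) h3 6
      _ = Real.sqrt (Real.log X) := by
          rw [Real.sqrt_eq_rpow, ← Real.rpow_natCast, ← Real.rpow_mul (by linarith)]
          norm_num
  have h7 : Real.sqrt (Real.log X) * Real.sqrt (Real.log X) = Real.log X := Real.mul_self_sqrt (by linarith)
  have h8 : 1 / c ≤ Real.sqrt (Real.log X) := Real.le_sqrt_of_sq_le hL2
  have h9 : 1 ≤ c * Real.sqrt (Real.log X) := by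
    rw [div_le_iff₀ hc] at h8
    linarith
  have h10 : 0 ≤ Real.sqrt (Real.log X) := Real.sqrt_nonneg _
  calc _ ≤ Real.sqrt (Real.log X) := h6
    _ ≤ (c * Real.sqrt (Real.log X)) * Real.sqrt (Real.log X) := le_mul_of_one_le_left h10 h9
    _ = c * Real.log X := by rw [mul_assoc, h7]

theorem ev_lpow (C c : ℝ) (n m : ℕ) (hc : 0 < c) (hm : 1 < m) : ∀ᶠ X : ℝ in atTop,
    C * (Real.log X) ^ n ≤ Real.exp (c * (Real.log (Real.log X)) ^ m) := by
  have h1 := lll.eventually_ge_atTop (max 1 ((|C| + 1 + n) / c))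
  filter_upwards [h1, Real.tendsto_log_atTop.eventually_gt_atTop 0] with X h2 h3
  set l := Real.log (Real.log X) with hl
  have hl1 : 1 ≤ l := (le_max_left _ _).trans h2
  have hl2 : (|C| + 1 + n) / c ≤ l := (le_max_right _ _).trans h2
  rw [div_le_iff₀ hc] at hl2
  have hexp : Real.log X = Real.exp l := (Real.exp_log h3).symm
  rw [hexp, ← Real.exp_nat_mul]
  have hC : C ≤ Real.exp |C| := by
    have := Real.add_one_le_exp |C|
    have := le_abs_self C
    linarith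
  have hlm : l * l ≤ l ^ m := by
    calc l * l = l ^ 2 := by ring
      _ ≤ l ^ m := pow_le_pow_right₀ hl1 hm
  calc C * Real.exp (n * l) ≤ Real.exp |C| * Real.exp (n * l) :=
        mul_le_mul_of_nonneg_right hC (Real.exp_pos _).le
    _ = Real.exp (|C| + n * l) := by rw [Real.exp_add]
    _ ≤ Real.exp (c * l ^ m) := by
        apply Real.exp_le_exp.2
        have h4 : 0 ≤ |C| := abs_nonneg _
        have h5 : (0 : ℝ) ≤ n := Nat.cast_nonneg _
        calc |C| + n * l ≤ (|C| + 1 + n) * l := by nlinarith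
          _ ≤ (l * c) * l := mul_le_mul_of_nonneg_right hl2 (by linarith)
          _ = c * (l * l) := by ring
          _ ≤ c * l ^ m := mul_le_mul_of_nonneg_left hlm hc.le

theorem markov (s : Finset ℕ) (h : ℕ → ℝ) (hh : ∀ a, 0 ≤ h a) (M S : ℝ) (hM : 0 < M) (hS : ∑ a ∈ s, h a ≤ S) :
    (#(s.filter (fun a => ¬ h a ≤ M)) : ℝ) ≤ S / M := by
  rw [le_div_iff₀ hM]
  calc (#(s.filter (fun a => ¬ h a ≤ M)) : ℝ) * M = ∑ a ∈ s.filter (fun a => ¬ h a ≤ M), M := by
        rw [sum_const, nsmul_eq_mul]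
    _ ≤ ∑ a ∈ s.filter (fun a => ¬ h a ≤ M), h a := by
        apply sum_le_sum
        intro a ha
        rw [mem_filter, not_le] at ha
        exact ha.2.le
    _ ≤ ∑ a ∈ s, h a := Finset.sum_le_sum_of_subset_of_nonneg (filter_subset _ _) (fun a _ _ => hh a)
    _ ≤ S := hS

/-- count of the moduli that contain most of the exceptional conductor -/
theorem count_bad1 (T Z fs B : ℕ) (L : ℝ) (hL : 1 ≤ L) (hfs : L ^ (2 * B + 4) < (fs : ℝ)) :
    (#((Icc 1 T).filter (fun a => ∃ u ∈ Icc 1 (primorial Z), u ∣ fs ∧ fs / u ∣ a ^ 2)) : ℝ) ≤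
      (primorial Z : ℝ) ^ 2 * T / L ^ (B + 2) := by
  classical
  have hPz : (1 : ℝ) ≤ primorial Z := by exact_mod_cast primorial_pos Z
  have hL0 : 0 < L ^ (B + 2) := by positivity
  have hsub : (Icc 1 T).filter (fun a => ∃ u ∈ Icc 1 (primorial Z), u ∣ fs ∧ fs / u ∣ a ^ 2) ⊆
      (Icc 1 (primorial Z)).biUnion (fun u => (Icc 1 T).filter (fun a => u ∣ fs ∧ fs / u ∣ a ^ 2)) := by
    intro a ha
    rw [mem_filter] at ha
    obtain ⟨h1, u, hu, h2⟩ := ha
    rw [mem_biUnion]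
    exact ⟨u, hu, mem_filter.2 ⟨h1, h2⟩⟩
  have h1 : (#((Icc 1 T).filter (fun a => ∃ u ∈ Icc 1 (primorial Z), u ∣ fs ∧ fs / u ∣ a ^ 2)) : ℝ) ≤
      ∑ u ∈ Icc 1 (primorial Z), (#((Icc 1 T).filter (fun a => u ∣ fs ∧ fs / u ∣ a ^ 2)) : ℝ) := by
    exact_mod_cast (card_le_card hsub).trans card_biUnion_le
  refine h1.trans ?_
  have h2 : ∀ u ∈ Icc 1 (primorial Z), (#((Icc 1 T).filter (fun a => u ∣ fs ∧ fs / u ∣ a ^ 2)) : ℝ) ≤
      (primorial Z : ℝ) * T / L ^ (B + 2) := by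
    intro u hu
    rw [mem_Icc] at hu
    have hur : (1 : ℝ) ≤ u := by exact_mod_cast hu.1
    have huP : (u : ℝ) ≤ primorial Z := by exact_mod_cast hu.2
    by_cases hd : u ∣ fs
    · have hfs0 : 0 < fs := by
        have : (0 : ℝ) < fs := lt_trans (by positivity) hfs
        exact_mod_cast this
      have hq : 1 ≤ fs / u := Nat.div_pos (Nat.le_of_dvd hfs0 hd) hu.1
      have e1 : (Icc 1 T).filter (fun a => u ∣ fs ∧ fs / u ∣ a ^ 2) = (Icc 1 T).filter (fun a => fs / u ∣ a ^ 2) := by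
        apply filter_congr
        intro a _
        simp [hd]
      rw [e1]
      refine (sq_dvd_count _ T hq).trans ?_
      have e2 : ((fs / u : ℕ) : ℝ) = (fs : ℝ) / u := Nat.cast_div hd (by positivity)
      rw [e2]
      have e3 : L ^ (B + 2) / primorial Z ≤ Real.sqrt ((fs : ℝ) / u) := by
        apply Real.le_sqrt_of_sq_le
        rw [div_pow, div_le_div_iff₀ (by positivity) (by positivity)]
        have e4 : (L ^ (B + 2)) ^ 2 = L ^ (2 * B + 4) := by rw [← pow_mul]; congr 1; ring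
        rw [e4]
        calc L ^ (2 * B + 4) * u ≤ fs * (primorial Z) := by
              apply mul_le_mul hfs.le huP (by positivity) (Nat.cast_nonneg _)
          _ ≤ fs * (primorial Z) ^ 2 := by
              apply mul_le_mul_of_nonneg_left _ (Nat.cast_nonneg _)
              nlinarith
      calc (T : ℝ) / Real.sqrt ((fs : ℝ) / u) ≤ T / (L ^ (B + 2) / primorial Z) :=
            div_le_div_of_nonneg_left (Nat.cast_nonneg _) (by positivity) e3
        _ = _ := by field_simp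
    · have e1 : (Icc 1 T).filter (fun a => u ∣ fs ∧ fs / u ∣ a ^ 2) = ∅ := by
        apply filter_eq_empty_iff.2
        intro a _ h
        exact hd h.1
      rw [e1, card_empty, Nat.cast_zero]
      positivity
  refine (sum_le_sum h2).trans ?_
  rw [sum_const, Nat.card_Icc, Nat.add_sub_cancel, nsmul_eq_mul]
  apply le_of_eq
  ring

open Classical in
theorem count_bad (B N Z : ℕ) : ∀ᶠ X : ℝ in atTop, ∀ T : ℕ, (T : ℝ) ≤ X ^ (1 / 1000 : ℝ) →
    (#((Icc 1 T).filter (fun a => ¬ GoodA X N Z a)) : ℝ) ≤ T / (Real.log X) ^ B := by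
  obtain ⟨X1, hX1⟩ := small_cond
  obtain ⟨X2, hX2⟩ := sw_phi (N + (2 * B + 4) + 2) (2 * B + 4)
  obtain ⟨C0, X3, hls⟩ := ls_sum
  set C1 := max C0 1 with hC1
  have hC1p : 1 ≤ C1 := le_max_right _ _
  set Pz : ℝ := (primorial Z : ℝ) with hPz
  filter_upwards [eventually_ge_atTop X1, eventually_ge_atTop X2, eventually_ge_atTop X3, eventually_ge_atTop (4 : ℝ),
    Real.tendsto_log_atTop.eventually_ge_atTop (2 * Pz ^ 2 + 2), lll.eventually_ge_atTop 4,
    ev_pow6 (8 / 100) (by norm_num), ev_lpow (3 * 2048 * C1) (1 / 4) (N + 9 + B) 6 (by norm_num) (by norm_num),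
    ev_lpow 4 1 N 6 (by norm_num) (by norm_num)]
    with X h1 h2 h3 h4 h5 h6 h7 h8 h9
  intro T hT
  have hX0 : 0 < X := by linarith
  have hXone : 1 ≤ X := by linarith
  set L := Real.log X with hL
  set l := Real.log L with hl
  have hPz0 : 0 ≤ Pz := Nat.cast_nonneg _
  have hPz1 : 1 ≤ Pz := by rw [hPz]; exact_mod_cast primorial_pos Z
  have hL2 : 2 ≤ L := by nlinarith
  have hL1 : 1 ≤ L := by linarith
  have hexpL : Real.exp L = X := Real.exp_log hX0
  obtain ⟨fs, hfs⟩ := hX1 X h1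
  set E0 := Real.exp (l ^ 6) with hE0
  have hE0pos : 0 < E0 := Real.exp_pos _
  have hE01 : 1 ≤ E0 := Real.one_le_exp (by positivity)
  set bad1 : Finset ℕ := if L ^ (2 * B + 4) < (fs : ℝ) then
    (Icc 1 T).filter (fun a => ∃ u ∈ Icc 1 (primorial Z), u ∣ fs ∧ fs / u ∣ a ^ 2) else ∅ with hbad1
  set bad2 : ℕ → Finset ℕ := fun k => if X ≤ Real.exp k ∧ Real.exp k ≤ X ^ 2 then
    (Icc 1 T).filter (fun a => ¬ HH (UU X) (Real.exp k) E0 a ≤ Real.exp k / (2 * L ^ N)) else ∅ with hbad2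
  have hsub : (Icc 1 T).filter (fun a => ¬ GoodA X N Z a) ⊆ bad1 ∪ (Icc 1 ⌊2 * L⌋₊).biUnion bad2 := by
    intro a ha
    rw [mem_filter, mem_Icc] at ha
    obtain ⟨⟨ha1, haT⟩, hng⟩ := ha
    by_contra hcon
    rw [mem_union, not_or, mem_biUnion] at hcon
    apply hng
    intro k hk1 hk2
    apply good_of X (Real.exp k) L l E0 (2 * B + 4) N Z a fs (Real.exp_pos _) hL1 hE0pos.le ha1
    · intro f hf1 hf2 hf3 χ hχ
      exact hfs _ hk1 hk2 f hf1 hf2 hf3 χ hχ
    · intro hf1 hf2 χ hχ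
      exact hX2 X h2 _ hk1 fs hf2 hf1 χ hχ
    · intro hlt hex
      apply hcon.1
      rw [hbad1, if_pos hlt, mem_filter, mem_Icc]
      exact ⟨⟨ha1, haT⟩, hex⟩
    · by_contra hHH
      apply hcon.2
      refine ⟨k, ?_, ?_⟩
      · rw [mem_Icc]
        constructor
        · by_contra h0
          have hk0 : k = 0 := by omega
          rw [hk0, Nat.cast_zero, Real.exp_zero] at hk1
          linarith
        · apply Nat.le_floor
          have := Real.log_le_log (Real.exp_pos _) hk2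
          rw [Real.log_exp, Real.log_pow] at this
          exact_mod_cast this
      · rw [hbad2]
        simp only
        rw [if_pos ⟨hk1, hk2⟩, mem_filter, mem_Icc]
        exact ⟨⟨ha1, haT⟩, hHH⟩
    · -- `E0 ^ 2 * exp (-l^7) ≤ 1 / (4 L^N)`
      have hLN : 0 < L ^ N := by positivity
      rw [le_div_iff₀ (by positivity)]
      have e1 : E0 ^ 2 * Real.exp (-l ^ 7) = Real.exp (2 * l ^ 6 - l ^ 7) := by
        rw [hE0, ← Real.exp_nat_mul, ← Real.exp_add]
        congr 1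
      rw [e1]
      have e2 : 4 * L ^ N ≤ Real.exp (l ^ 6) := by
        have := h9
        rwa [one_mul] at this
      calc Real.exp (2 * l ^ 6 - l ^ 7) * (4 * L ^ N) ≤ Real.exp (2 * l ^ 6 - l ^ 7) * Real.exp (l ^ 6) :=
            mul_le_mul_of_nonneg_left e2 (Real.exp_pos _).le
        _ = Real.exp (3 * l ^ 6 - l ^ 7) := by rw [← Real.exp_add]; congr 1; ring
        _ ≤ Real.exp 0 := by
            apply Real.exp_le_exp.2
            have : 0 ≤ l ^ 6 := by positivity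
            nlinarith
        _ = 1 := Real.exp_zero
    · rw [div_le_div_iff₀ (by positivity) (by norm_num)]
      nlinarith
  have hc1 : (bad1.card : ℝ) ≤ T / L ^ B / 2 := by
    rw [hbad1]
    split_ifs with hlt
    · refine (count_bad1 T Z fs B L hL1 hlt).trans ?_
      rw [pow_add, div_div, div_le_div_iff₀ (by positivity) (by positivity)]
      have hLB : 0 < L ^ B := by positivity
      have e1 : 2 * Pz ^ 2 ≤ L ^ 2 := by nlinarith
      have hT0 : (0 : ℝ) ≤ T := Nat.cast_nonneg T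
      calc Pz ^ 2 * T * (L ^ B * 2) = T * L ^ B * (2 * Pz ^ 2) := by ring
        _ ≤ T * L ^ B * L ^ 2 := mul_le_mul_of_nonneg_left e1 (by positivity)
        _ = _ := by ring
    · rw [card_empty, Nat.cast_zero]
      positivity
  have hUle : (UU X : ℝ) ≤ Real.exp (l ^ 6 / 8) := Nat.floor_le (Real.exp_pos _).le
  have hU : (UU X : ℝ) ≤ X ^ (1 / 100 : ℝ) := by
    refine hUle.trans ?_
    rw [Real.rpow_def_of_pos hX0]
    apply Real.exp_le_exp.2
    rw [← hL]
    linarith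
  have hc2 : ∀ k ∈ Icc 1 ⌊2 * L⌋₊, (#(bad2 k) : ℝ) ≤ T * (1024 * C1 * L ^ (N + 8) * Real.exp (-(l ^ 6 / 4))) := by
    intro k _
    rw [hbad2]
    simp only
    split_ifs with hk
    · obtain ⟨hk1, hk2⟩ := hk
      set Y := Real.exp k with hY
      have hYpos : 0 < Y := Real.exp_pos _
      have hLY : Real.log Y ≤ 2 * L := by
        have := Real.log_le_log hYpos hk2
        rw [Real.log_pow] at this
        exact_mod_cast this
      have hLY0 : 0 ≤ Real.log Y := by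
        have := Real.log_le_log hX0 hk1
        linarith
      have hF : T ^ 2 * UU X ≤ ⌊Y ^ (1 / 50 : ℝ)⌋₊ := by
        apply Nat.le_floor
        push_cast
        calc (T : ℝ) ^ 2 * UU X ≤ (X ^ (1 / 1000 : ℝ)) ^ 2 * X ^ (1 / 100 : ℝ) := by
              apply mul_le_mul (pow_le_pow_left₀ (Nat.cast_nonneg _) hT 2) hU (Nat.cast_nonneg _) (by positivity)
          _ = X ^ (2 / 1000 + 1 / 100 : ℝ) := by
              rw [← Real.rpow_natCast, ← Real.rpow_mul hX0.le, Real.rpow_add hX0]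
              norm_num
          _ ≤ X ^ (1 / 50 : ℝ) := Real.rpow_le_rpow_of_exponent_le hXone (by norm_num)
          _ ≤ Y ^ (1 / 50 : ℝ) := Real.rpow_le_rpow hX0.le hk1 (by norm_num)
      have h10 := HH_average (UU X) T _ Y E0 hE01 hF
      have h11 : ∑ f ∈ Icc 2 ⌊Y ^ (1 / 50 : ℝ)⌋₊, TT Y f ≤ C1 * Y * (2 * L) ^ 8 := by
        have h12 : ∑ f ∈ Icc 2 ⌊Y ^ (1 / 50 : ℝ)⌋₊, TT Y f ≤ C0 * Y * (Real.log Y) ^ 8 := hls Y (h3.trans hk1)
        refine h12.trans ?_
        have h13 : C0 ≤ C1 := le_max_left _ _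
        have h14 : (Real.log Y) ^ 8 ≤ (2 * L) ^ 8 := pow_le_pow_left₀ hLY0 hLY 8
        have h15 : 0 ≤ (Real.log Y) ^ 8 := by positivity
        calc C0 * Y * (Real.log Y) ^ 8 ≤ C1 * Y * (Real.log Y) ^ 8 := by gcongr
          _ ≤ C1 * Y * (2 * L) ^ 8 := by gcongr
      have h16 : (UU X : ℝ) ^ 2 / Real.sqrt E0 ≤ Real.exp (-(l ^ 6 / 4)) := by
        have e1 : Real.sqrt E0 = Real.exp (l ^ 6 / 2) := by
          rw [hE0, Real.sqrt_eq_iff_mul_self_eq (Real.exp_pos _).le (Real.exp_pos _).le, ← Real.exp_add]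
          congr 1; ring
        rw [e1, div_le_iff₀ (Real.exp_pos _), ← Real.exp_add]
        calc (UU X : ℝ) ^ 2 ≤ (Real.exp (l ^ 6 / 8)) ^ 2 := pow_le_pow_left₀ (Nat.cast_nonneg _) hUle 2
          _ = Real.exp (-(l ^ 6 / 4) + l ^ 6 / 2) := by
              rw [← Real.exp_nat_mul]; congr 1; push_cast; ring
      have hT0 : (0 : ℝ) ≤ T := Nat.cast_nonneg T
      have hM : 0 < Y / (2 * L ^ N) := by positivity
      have h17 := markov (Icc 1 T) (HH (UU X) Y E0) (HH_nonneg _ _ _) (Y / (2 * L ^ N))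
        (T * Real.exp (-(l ^ 6 / 4)) * (C1 * Y * (2 * L) ^ 8)) hM (by
          refine h10.trans ?_
          have e1 : 0 ≤ ∑ f ∈ Icc 2 ⌊Y ^ (1 / 50 : ℝ)⌋₊, TT Y f := sum_nonneg fun _ _ => TT_nonneg Y _
          calc (T : ℝ) * ((UU X : ℝ) ^ 2 / Real.sqrt E0) * ∑ f ∈ Icc 2 ⌊Y ^ (1 / 50 : ℝ)⌋₊, TT Y f ≤
              (T : ℝ) * Real.exp (-(l ^ 6 / 4)) * ∑ f ∈ Icc 2 ⌊Y ^ (1 / 50 : ℝ)⌋₊, TT Y f := by gcongr
            _ ≤ _ := by gcongr)
      refine h17.trans ?_
      rw [div_le_iff₀ hM]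
      have e5 : (T : ℝ) * (1024 * C1 * L ^ (N + 8) * Real.exp (-(l ^ 6 / 4))) * (Y / (2 * L ^ N)) =
          2 * (T * Real.exp (-(l ^ 6 / 4)) * (C1 * Y * (2 * L) ^ 8)) := by
        have : L ^ N ≠ 0 := by positivity
        rw [pow_add, mul_pow]
        field_simp
        ring
      rw [e5]
      have : 0 ≤ (T : ℝ) * Real.exp (-(l ^ 6 / 4)) * (C1 * Y * (2 * L) ^ 8) := by positivity
      linarith
    · rw [card_empty, Nat.cast_zero]
      positivity
  have hc3 : (#((Icc 1 ⌊2 * L⌋₊).biUnion bad2) : ℝ) ≤ T / L ^ B / 2 := by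
    have e1 : (#((Icc 1 ⌊2 * L⌋₊).biUnion bad2) : ℝ) ≤ ∑ k ∈ Icc 1 ⌊2 * L⌋₊, (#(bad2 k) : ℝ) := by
      exact_mod_cast card_biUnion_le
    refine e1.trans ((sum_le_sum hc2).trans ?_)
    rw [sum_const, Nat.card_Icc, Nat.add_sub_cancel, nsmul_eq_mul]
    have e2 : (⌊2 * L⌋₊ : ℝ) ≤ 2 * L := Nat.floor_le (by linarith)
    have hT0 : (0 : ℝ) ≤ T := Nat.cast_nonneg T
    have e3 : (2 * L) * (1024 * C1 * L ^ (N + 8) * Real.exp (-(l ^ 6 / 4))) ≤ 1 / L ^ B / 2 := by
      rw [div_div, le_div_iff₀ (by positivity)]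
      have e4 : 3 * 2048 * C1 * L ^ (N + 9 + B) ≤ Real.exp (1 / 4 * l ^ 6) := h8
      have e5 : (2 * L) * (1024 * C1 * L ^ (N + 8) * Real.exp (-(l ^ 6 / 4))) * (L ^ B * 2) =
          (4096 * C1 * L ^ (N + 9 + B)) * Real.exp (-(l ^ 6 / 4)) := by
        rw [pow_add, pow_add, pow_add L N 9]
        ring
      rw [e5]
      have e6 : 4096 * C1 * L ^ (N + 9 + B) ≤ Real.exp (1 / 4 * l ^ 6) := by
        refine le_trans ?_ e4
        have : 0 ≤ C1 * L ^ (N + 9 + B) := by positivity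
        nlinarith
      calc (4096 * C1 * L ^ (N + 9 + B)) * Real.exp (-(l ^ 6 / 4)) ≤
          Real.exp (1 / 4 * l ^ 6) * Real.exp (-(l ^ 6 / 4)) := mul_le_mul_of_nonneg_right e6 (Real.exp_pos _).le
        _ = 1 := by rw [← Real.exp_add]; rw [show 1 / 4 * l ^ 6 + -(l ^ 6 / 4) = 0 by ring, Real.exp_zero]
    calc (⌊2 * L⌋₊ : ℝ) * (T * (1024 * C1 * L ^ (N + 8) * Real.exp (-(l ^ 6 / 4)))) ≤
        (2 * L) * (T * (1024 * C1 * L ^ (N + 8) * Real.exp (-(l ^ 6 / 4)))) :=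
          mul_le_mul_of_nonneg_right e2 (by positivity)
      _ = T * ((2 * L) * (1024 * C1 * L ^ (N + 8) * Real.exp (-(l ^ 6 / 4)))) := by ring
      _ ≤ T * (1 / L ^ B / 2) := mul_le_mul_of_nonneg_left e3 hT0
      _ = _ := by ring
  have hfin := (card_le_card hsub).trans (card_union_le _ _)
  have hfin' : (#((Icc 1 T).filter (fun a => ¬ GoodA X N Z a)) : ℝ) ≤ (bad1.card : ℝ) + #((Icc 1 ⌊2 * L⌋₊).biUnion bad2) := by
    exact_mod_cast hfin
  linarith

end Pool.Agent.H262R2.UM
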