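import Mathlib
import Pool.Agent.H262R2.UM.Count2

/-! Bombieri-Vinogradov relative to `a * W`: the basic transformations. -/

open Finset Filter Topology

namespace Pool.Agent.H262R2.UM

open Pool.Agent.H378R2 Pool.Agent.H378R2.LSBV Pool.Agent.H398R2.BV

/-- the sum over the divisors of `a ^ 2` -/
noncomputable def TA (Y : ℝ) (a m : ℕ) : ℝ :=
  if m.Coprime a then ∑ d ∈ (a ^ 2).divisors.filter (fun d => d * m ≠ 1), TT Y (d * m) else 0

theorem TA_nonneg (Y : ℝ) (a m : ℕ) : 0 ≤ TA Y a m := by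
  unfold TA
  split_ifs
  · exact sum_nonneg fun _ _ => TT_nonneg Y _
  · exact le_rfl

/-- sum over a range -/
theorem TA_sum (Y : ℝ) (a F F' : ℕ) (ha : 1 ≤ a) (hF : F * a ^ 2 ≤ F') :
    ∑ m ∈ Icc 1 F, TA Y a m ≤ ∑ f ∈ Icc 2 F', TT Y f := by
  classical
  have e1 : ∑ m ∈ Icc 1 F, TA Y a m = ∑ p ∈ (Icc 1 F ×ˢ (a ^ 2).divisors).filter
      (fun p => p.1.Coprime a ∧ p.2 * p.1 ≠ 1), TT Y (p.2 * p.1) := by
    rw [sum_filter, sum_product]
    refine sum_congr rfl fun m _ => ?_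
    unfold TA
    split_ifs with hc
    · rw [sum_filter]
      refine sum_congr rfl fun d _ => ?_
      by_cases hd : d * m ≠ 1
      · rw [if_pos hd, if_pos ⟨hc, hd⟩]
      · rw [if_neg hd, if_neg (fun h => hd h.2)]
    · symm
      apply sum_eq_zero
      intro d _
      rw [if_neg (fun h => hc h.1)]
  rw [e1]
  apply pairs_sum_le a ha _ _ _ (TT_nonneg Y)
  · intro p hp
    rw [mem_filter, mem_product, mem_Icc, Nat.mem_divisors] at hp
    obtain ⟨⟨⟨h1, h2⟩, h3, h4⟩, h5, h6⟩ := hp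
    rw [mem_Icc]
    have h7 : 0 < p.2 := Nat.pos_of_dvd_of_pos h3 (by positivity)
    have h8 : 0 < p.2 * p.1 := by positivity
    refine ⟨by omega, ?_⟩
    refine le_trans ?_ hF
    rw [mul_comm]
    exact Nat.mul_le_mul h2 (Nat.le_of_dvd (by positivity) h3)
  · intro p hp
    rw [mem_filter, mem_product, mem_Icc, Nat.mem_divisors] at hp
    exact ⟨hp.2.1, hp.1.2.1⟩

/-- the small cofactors -/
theorem TA_small (X Y : ℝ) (a ps : ℕ) (ha : 1 ≤ a) (F : Finset ℕ)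
    (hF : ∀ m ∈ F, 1 ≤ m ∧ m ≤ UU X ∧ Squarefree m ∧ m.Coprime (a * ps)) :
    ∑ m ∈ F, TA Y a m ≤ GG X Y a ps := by
  classical
  have e1 : ∑ m ∈ F, TA Y a m = ∑ p ∈ (F ×ˢ (a ^ 2).divisors).filter
      (fun p => p.2 * p.1 ≠ 1), TT Y (p.2 * p.1) := by
    rw [sum_filter, sum_product]
    refine sum_congr rfl fun m hm => ?_
    have hc : m.Coprime a := Nat.Coprime.coprime_mul_right_right (hF m hm).2.2.2
    unfold TA
    rw [if_pos hc, sum_filter]
  rw [e1]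
  unfold GG
  apply sum_le_sum_of_subset_of_nonneg
  · intro p hp
    rw [mem_filter, mem_product, Nat.mem_divisors] at hp
    rw [mem_GP]
    obtain ⟨h1, h2, h3, h4⟩ := hF p.1 hp.1.1
    exact ⟨⟨⟨h1, h2⟩, hp.1.2⟩, h3, h4, hp.2⟩
  · intro p _ _
    exact TT_nonneg Y _

/-- `W / gcd a W` -/
def Wr (a W : ℕ) : ℕ := W / Nat.gcd a W

theorem Wr_facts {a W : ℕ} (_ha : 1 ≤ a) (hW : Squarefree W) :
    1 ≤ Wr a W ∧ Wr a W ∣ W ∧ Nat.gcd a W * Wr a W = W ∧ (Wr a W).Coprime a ∧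
      (a * Nat.gcd a W).Coprime (Wr a W) := by
  have hW0 : 0 < W := Nat.pos_of_ne_zero hW.ne_zero
  have hg : Nat.gcd a W ∣ W := Nat.gcd_dvd_right a W
  have hmul : Nat.gcd a W * Wr a W = W := Nat.mul_div_cancel' hg
  have hW1 : 1 ≤ Wr a W := by
    rcases Nat.eq_zero_or_pos (Wr a W) with h | h
    · rw [h, mul_zero] at hmul; omega
    · exact h
  have hdvd : Wr a W ∣ W := ⟨Nat.gcd a W, by rw [mul_comm]; exact hmul.symm⟩
  have hcop : (Nat.gcd a W).Coprime (Wr a W) := by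
    rw [← hmul] at hW
    exact (Nat.squarefree_mul_iff.1 hW).1
  have hcopa : (Wr a W).Coprime a := by
    by_contra hc
    obtain ⟨p, hp, hp1, hp2⟩ := Nat.Prime.not_coprime_iff_dvd.1 hc
    have h1 : p ∣ Nat.gcd a W := Nat.dvd_gcd hp2 (hp1.trans hdvd)
    have h2 : p ∣ Nat.gcd (Nat.gcd a W) (Wr a W) := Nat.dvd_gcd h1 hp1
    rw [hcop] at h2
    exact hp.one_lt.ne' (Nat.dvd_one.1 h2)
  exact ⟨hW1, hdvd, hmul, hcopa, Nat.Coprime.mul_left hcopa.symm hcop⟩

/-- splitting the divisors of `a * W * q` -/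
theorem div_split (Y : ℝ) (a W q : ℕ) (ha : 1 ≤ a) (hW : Squarefree W) (hq : 1 ≤ q) (hqa : q.Coprime a)
    (hqW : q.Coprime W) :
    ∑ f ∈ (a * W * q).divisors.filter (fun f => f ≠ 1), TT Y f ≤
      TA Y a 1 + ∑ m ∈ (Wr a W * q).divisors.filter (fun m => m ≠ 1), TA Y a m := by
  classical
  obtain ⟨hW1, hdvd, hmul, hcopa, hcop⟩ := Wr_facts ha hW
  have hg1 : 1 ≤ Nat.gcd a W := Nat.gcd_pos_of_pos_left _ ha
  have hqg : q.Coprime (Nat.gcd a W) := hqa.coprime_dvd_right (Nat.gcd_dvd_left a W)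
  have hcop2 : (a * Nat.gcd a W).Coprime (Wr a W * q) :=
    Nat.Coprime.mul_right hcop (Nat.Coprime.mul_left hqa.symm hqg.symm)
  have heq : a * W * q = (a * Nat.gcd a W) * (Wr a W * q) := by
    conv_lhs => rw [← hmul]
    ring
  have hag : 1 ≤ a * Nat.gcd a W := Nat.mul_pos ha hg1
  have hWq : 1 ≤ Wr a W * q := Nat.mul_pos hW1 hq
  rw [heq, sum_divisors_coprime (TT Y) _ _ hag hWq hcop2, sum_filter, sum_product_right]
  have e1 : ∑ m ∈ (Wr a W * q).divisors, TA Y a m = TA Y a 1 +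
      ∑ m ∈ (Wr a W * q).divisors.filter (fun m => m ≠ 1), TA Y a m := by
    rw [← sum_filter_add_sum_filter_not (Wr a W * q).divisors (fun m => m ≠ 1), add_comm]
    congr 1
    have : (Wr a W * q).divisors.filter (fun m => ¬ m ≠ 1) = {1} := by
      ext m
      rw [mem_filter, not_not, mem_singleton, Nat.mem_divisors]
      constructor
      · exact fun h => h.2
      · rintro rfl
        exact ⟨⟨one_dvd _, by omega⟩, rfl⟩
    rw [this, sum_singleton]
  rw [← e1]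
  apply sum_le_sum
  intro m hm
  rw [Nat.mem_divisors] at hm
  have hma : m.Coprime a := by
    have : (Wr a W * q).Coprime a := Nat.Coprime.mul_left hcopa hqa
    exact this.coprime_dvd_left hm.1
  unfold TA
  rw [if_pos hma, sum_filter]
  apply sum_le_sum_of_subset_of_nonneg
  · intro d hd
    rw [Nat.mem_divisors] at hd ⊢
    refine ⟨hd.1.trans ?_, by positivity⟩
    rw [sq]
    exact Nat.mul_dvd_mul_left a (Nat.gcd_dvd_left a W)
  · intro d _ _
    split_ifs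
    · exact TT_nonneg Y _
    · exact le_rfl

/-- the totients -/
theorem tot_split (a W q : ℕ) (ha : 1 ≤ a) (hW : Squarefree W) (hqa : q.Coprime a) (hqW : q.Coprime W) :
    (a * W * q).totient = (a * Nat.gcd a W).totient * (Wr a W * q).totient ∧
    (a * W).totient = (a * Nat.gcd a W).totient * (Wr a W).totient ∧
    (a * W * q).totient = (a * W).totient * q.totient := by
  obtain ⟨hW1, hdvd, hmul, hcopa, hcop⟩ := Wr_facts ha hW
  have hqg : q.Coprime (Nat.gcd a W) := hqa.coprime_dvd_right (Nat.gcd_dvd_left a W)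
  have hcop2 : (a * Nat.gcd a W).Coprime (Wr a W * q) :=
    Nat.Coprime.mul_right hcop (Nat.Coprime.mul_left hqa.symm hqg.symm)
  have heq : a * W * q = (a * Nat.gcd a W) * (Wr a W * q) := by
    conv_lhs => rw [← hmul]
    ring
  have heq2 : a * W = (a * Nat.gcd a W) * Wr a W := by
    conv_lhs => rw [← hmul]
    ring
  refine ⟨?_, ?_, ?_⟩
  · rw [heq, Nat.totient_mul hcop2]
  · rw [heq2, Nat.totient_mul hcop]
  · rw [Nat.totient_mul (Nat.Coprime.mul_left hqa.symm hqW.symm)]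

/-- the three cases -/
theorem three_cases (Ps : Finset (ℕ × ℕ)) (h1 : ∀ p ∈ Ps, 1 ≤ p.2) (T : ℕ × ℕ → ℝ) (hT : ∀ p, 0 ≤ T p)
    (A : ℕ) (C5 : ℝ) (hC5 : 0 < C5) (hwt : ∀ b : ℕ, 1 ≤ b → LSBV.wt A b ≤ C5 / Real.sqrt b) (D k : ℕ) (L : ℝ)
    (hL : 1 ≤ L) (hD : ∀ b : ℕ, D < b → L ^ (2 * k) ≤ b) (sm : ℕ × ℕ → Prop) [DecidablePred sm]
    (M1 M2 M3 : ℝ) (hall : ∑ p ∈ Ps, T p ≤ M1 * L ^ k)
    (hA : ∑ p ∈ Ps.filter (fun p => p.2 ≤ D ∧ sm p), T p ≤ M2)
    (hB : ∑ p ∈ Ps.filter (fun p => p.2 ≤ D ∧ ¬ sm p), T p ≤ M3) :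
    ∑ p ∈ Ps, LSBV.wt A p.2 * T p ≤ C5 * (M1 + M2 + M3) := by
  classical
  have hsmall : ∀ p ∈ Ps, LSBV.wt A p.2 ≤ C5 := by
    intro p hp
    have h2 := h1 p hp
    refine (hwt p.2 h2).trans ?_
    apply div_le_self hC5.le
    rw [Real.one_le_sqrt]
    exact_mod_cast h2
  rw [← sum_filter_add_sum_filter_not Ps (fun p => p.2 ≤ D)]
  have hC : ∑ p ∈ Ps.filter (fun p => ¬ p.2 ≤ D), LSBV.wt A p.2 * T p ≤ C5 * M1 := by
    have h2 : ∀ p ∈ Ps.filter (fun p => ¬ p.2 ≤ D),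
        LSBV.wt A p.2 * T p ≤ (C5 / L ^ k) * T p := by
      intro p hp
      rw [mem_filter] at hp
      apply mul_le_mul_of_nonneg_right _ (hT _)
      refine (hwt p.2 (h1 p hp.1)).trans ?_
      apply div_le_div_of_nonneg_left hC5.le (by positivity)
      apply Real.le_sqrt_of_sq_le
      rw [← pow_mul, mul_comm]
      exact hD p.2 (by omega)
    refine (sum_le_sum h2).trans ?_
    rw [← mul_sum]
    have h3 : ∑ p ∈ Ps.filter (fun p => ¬ p.2 ≤ D), T p ≤ ∑ p ∈ Ps, T p :=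
      sum_le_sum_of_subset_of_nonneg (filter_subset _ _) (fun _ _ _ => hT _)
    calc (C5 / L ^ k) * ∑ p ∈ Ps.filter (fun p => ¬ p.2 ≤ D), T p ≤
        (C5 / L ^ k) * (M1 * L ^ k) :=
          mul_le_mul_of_nonneg_left (h3.trans hall) (by positivity)
      _ = C5 * M1 := by
          have : L ^ k ≠ 0 := by positivity
          field_simp
  have hAB : ∑ p ∈ Ps.filter (fun p => p.2 ≤ D), LSBV.wt A p.2 * T p ≤ C5 * (M2 + M3) := by
    calc _ ≤ ∑ p ∈ Ps.filter (fun p => p.2 ≤ D), C5 * T p := by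
          apply sum_le_sum
          intro p hp
          rw [mem_filter] at hp
          exact mul_le_mul_of_nonneg_right (hsmall p hp.1) (hT _)
      _ = C5 * ∑ p ∈ Ps.filter (fun p => p.2 ≤ D), T p := by
          rw [mul_sum]
      _ ≤ _ := by
          apply mul_le_mul_of_nonneg_left _ hC5.le
          rw [← sum_filter_add_sum_filter_not _ sm, filter_filter, filter_filter]
          exact add_le_add hA hB
  linarith

/-- case B on average -/
theorem caseBm (T : ℕ → ℝ) (hT : ∀ f, 0 ≤ T f) (V R D Ω F : ℕ) (P : Finset ℕ) (κ : ℝ)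
    (h0 : 0 ≤ κ) (h1 : κ ≤ 1) (hV0 : 0 < V) (hF : V * R ≤ F) (PB : Finset ℕ → Finset (ℕ × ℕ))
    (hPB : ∀ S, ∀ p ∈ PB S, p.1 ∣ V ∧ (1 ≤ p.2 ∧ p.2 ≤ R) ∧ p.2 ≤ D ∧ Disjoint S p.1.primeFactors ∧
      Ω ≤ (P ∩ p.1.primeFactors).card) :
    ∑ S ∈ P.powerset, ww P κ S * ∑ p ∈ PB S, T (p.1 * p.2) ≤
      (1 - κ) ^ Ω * (D * ∑ f ∈ Icc 1 F, T f) := by
  classical
  set G := ((V.divisors ×ˢ Icc 1 D).filter
    (fun p => p.2 ≤ R ∧ Ω ≤ (P ∩ p.1.primeFactors).card)) with hG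
  have s1 : ∀ S ∈ P.powerset, ww P κ S * ∑ p ∈ PB S, T (p.1 * p.2) ≤
      ∑ p ∈ G, T (p.1 * p.2) *
        (ww P κ S * (if Disjoint S p.1.primeFactors then (1:ℝ) else 0)) := by
    intro S _
    have hw := ww_nonneg P κ h0 h1 S
    rw [mul_sum]
    have hsub : PB S ⊆ G := by
      intro p hp
      obtain ⟨h2, ⟨h3, h4⟩, h5, h6, h7⟩ := hPB S p hp
      rw [hG, mem_filter, mem_product, Nat.mem_divisors, mem_Icc]
      exact ⟨⟨⟨h2, hV0.ne'⟩, h3, h5⟩, h4, h7⟩
    calc ∑ p ∈ PB S, ww P κ S * T (p.1 * p.2) =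
        ∑ p ∈ PB S, T (p.1 * p.2) *
        (ww P κ S * (if Disjoint S p.1.primeFactors then (1:ℝ) else 0)) := by
          apply sum_congr rfl
          intro p hp
          rw [if_pos (hPB S p hp).2.2.2.1]
          ring
      _ ≤ _ := by
          apply sum_le_sum_of_subset_of_nonneg hsub
          intro p _ _
          apply mul_nonneg (hT _)
          apply mul_nonneg hw
          split_ifs <;> norm_num
  refine (sum_le_sum s1).trans ?_
  rw [sum_comm]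
  have s2 : ∀ p ∈ G, ∑ S ∈ P.powerset, T (p.1 * p.2) *
        (ww P κ S * (if Disjoint S p.1.primeFactors then (1:ℝ) else 0)) ≤
      (1 - κ) ^ Ω * T (p.1 * p.2) := by
    intro p hp
    rw [hG, mem_filter] at hp
    rw [← mul_sum, sum_ww_disjoint, mul_comm]
    apply mul_le_mul_of_nonneg_right _ (hT _)
    exact pow_le_pow_of_le_one (by linarith) (by linarith) hp.2.2
  refine (sum_le_sum s2).trans ?_
  rw [← mul_sum]
  apply mul_le_mul_of_nonneg_left _ (by apply pow_nonneg; linarith)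
  -- sum over G
  have s3 : ∑ p ∈ G, T (p.1 * p.2) ≤ ∑ b ∈ Icc 1 D, ∑ f ∈ Icc 1 F, T f := by
    have hmaps : ∀ p ∈ G, p.2 ∈ Icc 1 D := by
      intro p hp
      rw [hG, mem_filter, mem_product] at hp
      exact hp.1.2
    rw [← sum_fiberwise_of_maps_to hmaps]
    apply sum_le_sum
    intro b hb
    rw [mem_Icc] at hb
    rw [← sum_image (f := T) (g := fun p : ℕ × ℕ => p.1 * p.2)]
    · apply sum_le_sum_of_subset_of_nonneg
      · intro f hf
        rw [mem_image] at hf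
        obtain ⟨p, hp, rfl⟩ := hf
        rw [mem_filter, hG, mem_filter, mem_product, Nat.mem_divisors, mem_Icc] at hp
        obtain ⟨⟨⟨⟨h2, _⟩, h3, h4⟩, h6, _⟩, _⟩ := hp
        rw [mem_Icc]
        have h7 : 0 < p.1 := Nat.pos_of_dvd_of_pos h2 hV0
        have h8 : 0 < p.1 * p.2 := by positivity
        have h9 : p.1 * p.2 ≤ V * R := Nat.mul_le_mul (Nat.le_of_dvd hV0 h2) h6
        exact ⟨by omega, h9.trans hF⟩
      · intro f _ _
        exact hT f
    · intro p hp p' hp' h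
      rw [Finset.mem_coe, mem_filter] at hp hp'
      have e2 : p.2 = p'.2 := by rw [hp.2, hp'.2]
      simp only at h
      rw [hp.2, hp'.2] at h
      have e1 : p.1 = p'.1 := Nat.eq_of_mul_eq_mul_right (by omega) h
      exact Prod.ext e1 e2
  refine s3.trans ?_
  rw [sum_const, nsmul_eq_mul, Nat.card_Icc]
  simp

end Pool.Agent.H262R2.UM
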