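import Mathlib
import Pool.Agent.H262R2.UM.BV1

/-! Bombieri-Vinogradov relative to `a * W`, simultaneously for several `a`. -/

open Finset Filter Topology

namespace Pool.Agent.H262R2.UM

open Pool.Agent.H378R2 Pool.Agent.H378R2.LSBV Pool.Agent.H398R2.BV Pool.Agent.Helper112

/-- the nontrivial pairs -/
noncomputable def PS (W P0 R : ℕ) : Finset (ℕ × ℕ) :=
  (W.divisors ×ˢ QQ W P0 R).filter (fun p => p.1 * p.2 ≠ 1)

theorem mem_PS {W P0 R : ℕ} {p : ℕ × ℕ} : p ∈ PS W P0 R ↔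
    ((p.1 ∣ W ∧ W ≠ 0) ∧ ((1 ≤ p.2 ∧ p.2 ≤ R) ∧ Squarefree p.2 ∧ p.2.Coprime (W * P0))) ∧ p.1 * p.2 ≠ 1 := by
  unfold PS
  rw [mem_filter, mem_product, Nat.mem_divisors, mem_QQ]

/-- small products -/
def smP (P : Finset ℕ) (Ω : ℕ) (p : ℕ × ℕ) : Prop := (P ∩ p.1.primeFactors).card < Ω

instance (P : Finset ℕ) (Ω : ℕ) : DecidablePred (smP P Ω) := fun p => by
  unfold smP; infer_instance

/-- `poly1` with a smaller right-hand side -/
theorem poly1' (l B B1 : ℝ) (hB : 0 ≤ B) (hB1 : 0 ≤ B1) (hl : 8 * (B + B1 + 10) ≤ l) :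
    2 * (l ^ 3 + 1) + l * (B * l ^ 4 + 1) + B1 * l ≤ l ^ 6 / 8 := by
  have hl1 : 10 ≤ l := by linarith
  have h5 : 0 < l ^ 5 := by positivity
  have h1 : 8 * (B + B1 + 10) * l ^ 5 ≤ l ^ 6 := by
    calc 8 * (B + B1 + 10) * l ^ 5 ≤ l * l ^ 5 := mul_le_mul_of_nonneg_right hl h5.le
      _ = l ^ 6 := by ring
  have h2 : l ≤ l ^ 5 := by
    calc l = l ^ 1 := (pow_one l).symm
      _ ≤ l ^ 5 := pow_le_pow_right₀ (by linarith) (by norm_num)
  have h3 : l ^ 3 ≤ l ^ 5 := pow_le_pow_right₀ (by linarith) (by norm_num)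
  have h4 : 1 ≤ l ^ 5 := one_le_pow₀ (by linarith)
  have h6 : B1 * l ≤ B1 * l ^ 5 := mul_le_mul_of_nonneg_left h2 hB1
  nlinarith

/-- size of the products in case A -/
theorem size_A (X : ℝ) (S : Finset ℕ) (k : ℕ) (P : Finset ℕ)
    (hP : P = (Icc 1 (yy X)).filter (fun p => p.Prime ∧ z2 X < p)) (p : ℕ × ℕ) (D Ω : ℕ) (L l : ℝ)
    (hl : l = Real.log L) (hL : 1 ≤ L) (hl2 : l = Real.log (Real.log X)) (hyL : (yy X : ℝ) ≤ L)
    (hlk : 8 * (((3 * k : ℕ) : ℝ) + ((2 * k : ℕ) : ℝ) + 10) ≤ l)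
    (hD : D = ⌊L ^ (2 * k)⌋₊) (hΩ : Ω = ⌈((3 * k : ℕ) : ℝ) * l ^ 4⌉₊)
    (h1 : p.1 ∣ WW X S 1) (h2 : p.2 ≤ D) (h3 : (P ∩ p.1.primeFactors).card < Ω) :
    ((p.1 * p.2 : ℕ) : ℝ) ≤ Real.exp (l ^ 6 / 8) := by
  subst hP
  have hL0 : 0 < L := by linarith
  have hl0 : 0 ≤ l := by
    have : (0 : ℝ) ≤ ((3 * k : ℕ) : ℝ) + ((2 * k : ℕ) : ℝ) := by positivity
    linarith
  have hexpl : Real.exp l = L := by rw [hl]; exact Real.exp_log hL0
  have h7 := size_caseA X 1 Ω S p.1 h1 h3 L hL hyL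
  have h8 : (p.2 : ℝ) ≤ L ^ (2 * k) := by
    have h9 : (D : ℝ) ≤ L ^ (2 * k) := by
      rw [hD]
      exact Nat.floor_le (by positivity)
    exact le_trans (by exact_mod_cast h2) h9
  have hz : (z2 X : ℝ) ≤ l ^ 3 + 1 := by
    unfold z2
    rw [← hl2]
    exact (Nat.ceil_lt_add_one (by positivity)).le
  have hΩle : (Ω : ℝ) ≤ (3 * k : ℕ) * l ^ 4 + 1 := by
    rw [hΩ]
    exact (Nat.ceil_lt_add_one (by positivity)).le
  have h4e : (4:ℝ) ≤ Real.exp 2 := by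
    have h := Real.exp_one_gt_d9
    have : Real.exp 2 = Real.exp 1 * Real.exp 1 := by rw [← Real.exp_add]; norm_num
    rw [this]
    nlinarith
  push_cast
  calc (p.1 : ℝ) * p.2 ≤ (4 ^ (z2 X) * L ^ Ω) * L ^ (2 * k) :=
        mul_le_mul h7 h8 (by positivity) (by positivity)
    _ ≤ ((Real.exp 2) ^ (z2 X) * L ^ Ω) * L ^ (2 * k) := by gcongr
    _ = Real.exp (2 * z2 X + Ω * l + (2 * k : ℕ) * l) := by
        rw [Real.exp_add, Real.exp_add, Real.exp_nat_mul, Real.exp_nat_mul, hexpl,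
          ← Real.exp_nat_mul, mul_comm (2:ℝ) (z2 X : ℝ)]
    _ ≤ Real.exp (l ^ 6 / 8) := by
        apply Real.exp_le_exp.mpr
        have hp1 := poly1' l ((3 * k : ℕ) : ℝ) ((2 * k : ℕ) : ℝ) (by positivity) (by positivity) hlk
        have : (Ω : ℝ) * l ≤ l * ((3 * k : ℕ) * l ^ 4 + 1) := by
          rw [mul_comm]
          exact mul_le_mul_of_nonneg_left hΩle hl0
        linarith

/-- the sum over the pairs for one modulus -/
theorem pairs_bound (A : ℕ) (X Y C5 M L : ℝ) (hC5 : 0 < C5)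
    (hwt : ∀ b : ℕ, 1 ≤ b → LSBV.wt A b ≤ C5 / Real.sqrt b) (a ps P0 W R D Ω k F : ℕ) (P : Finset ℕ) (cc : ℝ)
    (ha : 1 ≤ a) (haP : a ∣ P0) (hpsP : ps ∣ P0) (hW : Squarefree W) (hWps : W.Coprime ps)
    (hL : 1 ≤ L) (hD : ∀ b : ℕ, D < b → L ^ (2 * k) ≤ b)
    (hF : W * R * a ^ 2 ≤ F)
    (hall : ∑ f ∈ Icc 2 F, TT Y f ≤ M * L ^ k)
    (hG : GG X Y a ps ≤ M)
    (hsize : ∀ p ∈ PS (Wr a W) P0 R, p.2 ≤ D → (P ∩ p.1.primeFactors).card < Ω → p.1 * p.2 ≤ UU X)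
    (hB : ∑ p ∈ (PS (Wr a W) P0 R).filter (fun p => p.2 ≤ D ∧ ¬ smP P Ω p), TA Y a (p.1 * p.2) ≤ cc * M) :
    ∑ p ∈ PS (Wr a W) P0 R, LSBV.wt A p.2 * TA Y a (p.1 * p.2) ≤ C5 * (2 + cc) * M := by
  classical
  obtain ⟨hW1, hdvd, hmul, hcopa, hcop⟩ := Wr_facts ha hW
  have hW0 : 0 < W := Nat.pos_of_ne_zero hW.ne_zero
  have h := three_cases (PS (Wr a W) P0 R) (fun p hp => (mem_PS.1 hp).1.2.1.1) (fun p => TA Y a (p.1 * p.2))
    (fun _ => TA_nonneg Y a _) A C5 hC5 hwt D k L hL hD (smP P Ω) M M (cc * M) ?_ ?_ hB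
  · refine h.trans (le_of_eq ?_)
    ring
  · have h1 : ∑ p ∈ PS (Wr a W) P0 R, TA Y a (p.1 * p.2) ≤ ∑ m ∈ Icc 1 (W * R), TA Y a m := by
      apply pair_inj (TA Y a) (TA_nonneg Y a) (Wr a W) P0 R
      · exact filter_subset _ _
      · intro p hp
        rw [mem_PS] at hp
        obtain ⟨⟨⟨h2, h3⟩, ⟨h4, h5⟩, h6, h7⟩, h8⟩ := hp
        rw [mem_Icc]
        have h9 : 0 < p.1 := Nat.pos_of_dvd_of_pos h2 hW1
        refine ⟨Nat.mul_pos h9 h4, Nat.mul_le_mul ?_ h5⟩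
        exact (Nat.le_of_dvd hW0 (h2.trans hdvd))
    exact (h1.trans (TA_sum Y a _ F ha hF)).trans hall
  · have h1 : ∑ p ∈ (PS (Wr a W) P0 R).filter (fun p => p.2 ≤ D ∧ smP P Ω p), TA Y a (p.1 * p.2) ≤
        ∑ m ∈ (Icc 1 (UU X)).filter (fun m => Squarefree m ∧ m.Coprime (a * ps)), TA Y a m := by
      apply pair_inj (TA Y a) (TA_nonneg Y a) (Wr a W) P0 R
      · exact (filter_subset _ _).trans (filter_subset _ _)
      · intro p hp
        rw [mem_filter] at hp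
        obtain ⟨hp, hpD, hpS⟩ := hp
        have hs := hsize p hp hpD hpS
        rw [mem_PS] at hp
        obtain ⟨⟨⟨h2, h3⟩, ⟨h4, h5⟩, h6, h7⟩, h8⟩ := hp
        have h9 : 0 < p.1 := Nat.pos_of_dvd_of_pos h2 hW1
        rw [mem_filter, mem_Icc]
        have hc2 : p.2.Coprime (Wr a W) := Nat.Coprime.coprime_mul_right_right h7
        have hc3 : p.2.Coprime P0 := Nat.Coprime.coprime_mul_left_right h7
        refine ⟨⟨Nat.mul_pos h9 h4, hs⟩, ?_, ?_⟩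
        · rw [Nat.squarefree_mul (hc2.coprime_dvd_right h2).symm]
          exact ⟨hW.squarefree_of_dvd (h2.trans hdvd), h6⟩
        · apply Nat.Coprime.mul_left
          · exact Nat.Coprime.mul_right (hcopa.coprime_dvd_left h2)
              ((hWps.coprime_dvd_left hdvd).coprime_dvd_left h2)
          · exact Nat.Coprime.mul_right (hc3.coprime_dvd_right haP) (hc3.coprime_dvd_right hpsP)
    refine h1.trans (le_trans ?_ hG)
    apply TA_small X Y a ps ha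
    intro m hm
    rw [mem_filter, mem_Icc] at hm
    exact ⟨hm.1.1, hm.1.2, hm.2.1, hm.2.2⟩

/-- the final sum for one modulus -/
theorem main_bound (A : ℕ) (Y M Cw Cp E3 : ℝ) (hY : 1 ≤ Y) (a P0 W R : ℕ) (ha : 1 ≤ a) (haP : a ∣ P0)
    (hW : Squarefree W) (hsumwt : ∑ e ∈ Icc 1 R, LSBV.wt A e ≤ Cw) (hCw : 0 ≤ Cw) (hT1 : TA Y a 1 ≤ M)
    (hpairs : ∑ p ∈ PS (Wr a W) P0 R, LSBV.wt A p.2 * TA Y a (p.1 * p.2) ≤ Cp * M)
    (h3 : ∑ q ∈ QQ W P0 R, (q.divisors.card : ℝ) ^ A * (2 * ((a * W * q).primeFactors.card * Real.log (3 * Y))) ≤ E3)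
    (b : ℕ → ℕ) (hb : ∀ q, 1 ≤ q → (b q).Coprime (a * W * q)) :
    ∑ q ∈ QQ W P0 R, (q.divisors.card : ℝ) ^ A * |EPhi Y (a * W * q) (b q)| ≤
      (1 / ((a * W).totient : ℝ)) * (Cw * ((1 + Cp) * M)) + E3 := by
  classical
  obtain ⟨hW1, hdvd, hmul, hcopa, hcop⟩ := Wr_facts ha hW
  have hW0 : 0 < W := Nat.pos_of_ne_zero hW.ne_zero
  have hφ : (0 : ℝ) < (a * W).totient := by exact_mod_cast Nat.totient_pos.2 (Nat.mul_pos ha hW0)
  have hg1 : 1 ≤ Nat.gcd a W := Nat.gcd_pos_of_pos_left _ ha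
  have hφg : (0 : ℝ) < (a * Nat.gcd a W).totient := by
    exact_mod_cast Nat.totient_pos.2 (Nat.mul_pos ha hg1)
  have hφW : (0 : ℝ) < (Wr a W).totient := by exact_mod_cast Nat.totient_pos.2 hW1
  have hwt0 : 0 ≤ ∑ e ∈ Icc 1 R, LSBV.wt A e := sum_nonneg fun e _ => LSBV.wt_nonneg A e
  have s0 : ∑ q ∈ QQ W P0 R, (q.divisors.card : ℝ) ^ A * |EPhi Y (a * W * q) (b q)| ≤
      ∑ q ∈ QQ W P0 R, (q.divisors.card : ℝ) ^ A * ((1 / (Nat.totient (a * W * q) : ℝ)) *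
        ∑ f ∈ (a * W * q).divisors.filter (fun f => f ≠ 1), TT Y f) +
      ∑ q ∈ QQ W P0 R, (q.divisors.card : ℝ) ^ A *
        (2 * ((a * W * q).primeFactors.card * Real.log (3 * Y))) := by
    rw [← sum_add_distrib]
    apply sum_le_sum
    intro q hq
    rw [mem_QQ] at hq
    rw [← mul_add]
    apply mul_le_mul_of_nonneg_left _ (by positivity)
    exact EPhi_le Y hY (a * W * q) (b q) (Nat.mul_pos (Nat.mul_pos ha hW0) hq.1.1) (hb q hq.1.1)
  have s1 : ∑ q ∈ QQ W P0 R, (q.divisors.card : ℝ) ^ A * ((1 / (Nat.totient (a * W * q) : ℝ)) *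
        ∑ f ∈ (a * W * q).divisors.filter (fun f => f ≠ 1), TT Y f) ≤
      ∑ q ∈ QQ W P0 R, ((1 / ((a * W).totient : ℝ)) * TA Y a 1 * LSBV.wt A q +
        (1 / ((a * Nat.gcd a W).totient : ℝ)) * ((q.divisors.card : ℝ) ^ A * ((1 / (Nat.totient (Wr a W * q) : ℝ)) *
          ∑ m ∈ (Wr a W * q).divisors.filter (fun m => m ≠ 1), TA Y a m))) := by
    apply sum_le_sum
    intro q hq
    rw [mem_QQ] at hq
    obtain ⟨⟨hq1, hq2⟩, hq3, hq4⟩ := hq
    have hqa : q.Coprime a := (Nat.Coprime.coprime_mul_left_right hq4).coprime_dvd_right haP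
    have hqW : q.Coprime W := Nat.Coprime.coprime_mul_right_right hq4
    obtain ⟨t1, t2, t3⟩ := tot_split a W q ha hW hqa hqW
    have hφq : (0 : ℝ) < q.totient := by exact_mod_cast Nat.totient_pos.2 hq1
    have hφWq : (0 : ℝ) < (Wr a W * q).totient := by
      exact_mod_cast Nat.totient_pos.2 (Nat.mul_pos hW1 hq1)
    have h4 := div_split Y a W q ha hW hq1 hqa hqW
    calc (q.divisors.card : ℝ) ^ A * ((1 / (Nat.totient (a * W * q) : ℝ)) *
        ∑ f ∈ (a * W * q).divisors.filter (fun f => f ≠ 1), TT Y f) ≤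
        (q.divisors.card : ℝ) ^ A * ((1 / (Nat.totient (a * W * q) : ℝ)) *
        (TA Y a 1 + ∑ m ∈ (Wr a W * q).divisors.filter (fun m => m ≠ 1), TA Y a m)) := by
          gcongr
      _ = (q.divisors.card : ℝ) ^ A * ((1 / (Nat.totient (a * W * q) : ℝ)) * TA Y a 1) +
          (q.divisors.card : ℝ) ^ A * ((1 / (Nat.totient (a * W * q) : ℝ)) *
          ∑ m ∈ (Wr a W * q).divisors.filter (fun m => m ≠ 1), TA Y a m) := by ring
      _ = _ := by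
          congr 1
          · rw [t3]
            unfold LSBV.wt
            push_cast
            field_simp
          · rw [t1]
            push_cast
            field_simp
  have s2 : ∑ q ∈ QQ W P0 R, (1 / ((a * W).totient : ℝ)) * TA Y a 1 * LSBV.wt A q ≤
      (1 / ((a * W).totient : ℝ)) * (Cw * M) := by
    rw [← mul_sum]
    have h5 : ∑ q ∈ QQ W P0 R, LSBV.wt A q ≤ ∑ e ∈ Icc 1 R, LSBV.wt A e := by
      apply sum_le_sum_of_subset_of_nonneg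
      · unfold QQ
        exact filter_subset _ _
      · intro q _ _
        exact LSBV.wt_nonneg A q
    have h6 : 0 ≤ TA Y a 1 := TA_nonneg Y a 1
    have h7 : 0 ≤ ∑ q ∈ QQ W P0 R, LSBV.wt A q := sum_nonneg fun _ _ => LSBV.wt_nonneg A _
    calc (1 / ((a * W).totient : ℝ)) * TA Y a 1 * ∑ q ∈ QQ W P0 R, LSBV.wt A q =
        (1 / ((a * W).totient : ℝ)) * ((∑ q ∈ QQ W P0 R, LSBV.wt A q) * TA Y a 1) := by ring
      _ ≤ (1 / ((a * W).totient : ℝ)) * (Cw * M) := by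
          apply mul_le_mul_of_nonneg_left _ (by positivity)
          exact mul_le_mul (h5.trans hsumwt) hT1 h6 hCw
  have s3 : ∑ q ∈ QQ W P0 R, (1 / ((a * Nat.gcd a W).totient : ℝ)) * ((q.divisors.card : ℝ) ^ A *
      ((1 / (Nat.totient (Wr a W * q) : ℝ)) *
          ∑ m ∈ (Wr a W * q).divisors.filter (fun m => m ≠ 1), TA Y a m)) ≤
      (1 / ((a * W).totient : ℝ)) * (Cw * (Cp * M)) := by
    rw [← mul_sum]
    have h5 : ∑ q ∈ QQ W P0 R, ((q.divisors.card : ℝ) ^ A * ((1 / (Nat.totient (Wr a W * q) : ℝ)) *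
          ∑ m ∈ (Wr a W * q).divisors.filter (fun m => m ≠ 1), TA Y a m)) ≤
        ∑ q ∈ QQ (Wr a W) P0 R, ((q.divisors.card : ℝ) ^ A * ((1 / (Nat.totient (Wr a W * q) : ℝ)) *
          ∑ m ∈ (Wr a W * q).divisors.filter (fun m => m ≠ 1), TA Y a m)) := by
      apply sum_le_sum_of_subset_of_nonneg
      · intro q hq
        rw [mem_QQ] at hq ⊢
        refine ⟨hq.1, hq.2.1, ?_⟩
        exact hq.2.2.coprime_dvd_right (Nat.mul_dvd_mul_right hdvd P0)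
      · intro q _ _
        apply mul_nonneg (by positivity)
        apply mul_nonneg (by positivity)
        exact sum_nonneg fun _ _ => TA_nonneg Y a _
    have h6 := main_swap A (TA Y a) (TA_nonneg Y a) (Wr a W) P0 R hW1
    have h7 : (∑ e ∈ Icc 1 R, LSBV.wt A e) * ∑ p ∈ PS (Wr a W) P0 R, LSBV.wt A p.2 * TA Y a (p.1 * p.2) ≤
        Cw * (Cp * M) := by
      apply mul_le_mul hsumwt hpairs _ hCw
      exact sum_nonneg fun p _ => mul_nonneg (LSBV.wt_nonneg A _) (TA_nonneg Y a _)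
    obtain ⟨t1, t2, t3⟩ := tot_split a W 1 ha hW (Nat.coprime_one_left a) (Nat.coprime_one_left W)
    calc (1 / ((a * Nat.gcd a W).totient : ℝ)) * _ ≤
        (1 / ((a * Nat.gcd a W).totient : ℝ)) * ((1 / ((Wr a W).totient : ℝ)) * ((∑ e ∈ Icc 1 R, LSBV.wt A e) *
          ∑ p ∈ PS (Wr a W) P0 R, LSBV.wt A p.2 * TA Y a (p.1 * p.2))) := by
          apply mul_le_mul_of_nonneg_left _ (by positivity)
          exact h5.trans h6
      _ ≤ (1 / ((a * Nat.gcd a W).totient : ℝ)) * ((1 / ((Wr a W).totient : ℝ)) * (Cw * (Cp * M))) := by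
          gcongr
      _ = _ := by
          rw [t2]
          push_cast
          field_simp
  rw [sum_add_distrib] at s1
  have : (1 / ((a * W).totient : ℝ)) * (Cw * ((1 + Cp) * M)) = (1 / ((a * W).totient : ℝ)) * (Cw * M) +
      (1 / ((a * W).totient : ℝ)) * (Cw * (Cp * M)) := by ring
  rw [this]
  linarith

end Pool.Agent.H262R2.UM
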