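import Mathlib
import Pool.Agent.H262R2.UM.BV2
import Pool.Agent.H378R2.M7j

/-! Bombieri-Vinogradov relative to `a * W`: choice of parameters. -/

open Finset Filter Topology

namespace Pool.Agent.H262R2.UM

open Pool.Agent.H378R2 Pool.Agent.H378R2.LSBV Pool.Agent.H398R2.BV Pool.Agent.Helper112

/-- the trivial error -/
theorem triv_err (A : ℕ) (C5 : ℝ) (hC5 : 0 < C5)
    (hwt : ∀ b : ℕ, 1 ≤ b → LSBV.wt A b ≤ C5 / Real.sqrt b) : ∀ᶠ X : ℝ in atTop,
    ∀ (Y : ℝ) (a P0 W : ℕ), X ≤ Y → Y ≤ X ^ 2 → 1 ≤ a → (a : ℝ) ≤ X ^ (1 / 1000 : ℝ) → 1 ≤ W →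
      (W : ℝ) ≤ X ^ (1 / 500 : ℝ) →
      ∑ q ∈ QQ W P0 ⌊X ^ (1 / 100 : ℝ)⌋₊, (q.divisors.card : ℝ) ^ A *
          (2 * ((a * W * q).primeFactors.card * Real.log (3 * Y))) ≤
        (1 / 2) * (Y / (((a * W).totient : ℝ) * (Real.log X) ^ A)) := by
  filter_upwards [ev_log (24 * C5) (A + 2) (1 / 2) (by norm_num), eventually_ge_atTop (4 : ℝ)] with X h6 h3
  intro Y a P0 W hXY hYX ha haX hW1 hWX
  have hX0 : 0 < X := by linarith
  have hX1 : 1 ≤ X := by linarith
  have hY0 : 0 < Y := by linarith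
  have hL1 : 1 ≤ Real.log X := by
    rw [Real.le_log_iff_exp_le hX0]
    have := Real.exp_one_lt_d9
    linarith
  set L := Real.log X with hL
  have hL0 : 0 < L := by linarith
  set R := ⌊X ^ (1 / 100 : ℝ)⌋₊ with hR
  have hRle : (R : ℝ) ≤ X ^ (1 / 100 : ℝ) := Nat.floor_le (by positivity)
  have hφ : (0 : ℝ) < (a * W).totient := by exact_mod_cast Nat.totient_pos.2 (Nat.mul_pos ha hW1)
  have t1 : ∀ q ∈ QQ W P0 R, (q.divisors.card : ℝ) ^ A *
      (2 * ((a * W * q).primeFactors.card * Real.log (3 * Y))) ≤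
      12 * C5 * L ^ 2 * X ^ (1 / 200 : ℝ) := by
    intro q hq
    rw [mem_QQ] at hq
    obtain ⟨⟨hq1, hq2⟩, _, _⟩ := hq
    have hq0 : (0:ℝ) < q := by exact_mod_cast hq1
    have hφq : (0:ℝ) < Nat.totient q := by exact_mod_cast Nat.totient_pos.mpr hq1
    have hqR : (q : ℝ) ≤ X ^ (1 / 100 : ℝ) := le_trans (by exact_mod_cast hq2) hRle
    have u1 : (q.divisors.card : ℝ) ^ A ≤ C5 * X ^ (1 / 200 : ℝ) := by
      have v1 := hwt q hq1
      unfold LSBV.wt at v1
      rw [div_le_iff₀ hφq] at v1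
      refine v1.trans ?_
      calc C5 / Real.sqrt q * (Nat.totient q : ℝ) ≤ C5 / Real.sqrt q * q := by
            apply mul_le_mul_of_nonneg_left _ (by positivity)
            exact_mod_cast Nat.totient_le q
        _ = C5 * (q / Real.sqrt q) := by ring
        _ = C5 * Real.sqrt q := by rw [Real.div_sqrt]
        _ ≤ C5 * X ^ (1 / 200 : ℝ) := by
            apply mul_le_mul_of_nonneg_left _ hC5.le
            rw [Real.sqrt_le_left (by positivity)]
            calc (q:ℝ) ≤ X ^ (1 / 100 : ℝ) := hqR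
              _ = (X ^ (1 / 200 : ℝ)) ^ 2 := by
                  rw [← Real.rpow_natCast, ← Real.rpow_mul hX0.le]; norm_num
    have u2 : ((a * W * q).primeFactors.card : ℝ) ≤ 2 * L := by
      refine (omega_le_log (a * W * q) (Nat.mul_pos (Nat.mul_pos ha hW1) hq1)).trans ?_
      have v1 : ((a * W * q : ℕ) : ℝ) ≤ X := by
        push_cast
        calc (a : ℝ) * W * q ≤ X ^ (1 / 1000 : ℝ) * X ^ (1 / 500 : ℝ) * X ^ (1 / 100 : ℝ) := by
              gcongr
          _ = X ^ (1 / 1000 + 1 / 500 + 1 / 100 : ℝ) := by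
              rw [Real.rpow_add hX0, Real.rpow_add hX0]
          _ ≤ X ^ (1:ℝ) := Real.rpow_le_rpow_of_exponent_le hX1 (by norm_num)
          _ = X := Real.rpow_one X
      have := log_natCast_le (a * W * q) X hX1 v1
      linarith
    have u3 : Real.log (3 * Y) ≤ 3 * L := by
      calc Real.log (3 * Y) ≤ Real.log (X * X ^ 2) :=
            Real.log_le_log (by positivity) (mul_le_mul (by linarith) hYX hY0.le hX0.le)
        _ = 3 * L := by
            rw [Real.log_mul hX0.ne' (by positivity), Real.log_pow]; push_cast; ring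
    have u4 : 0 ≤ Real.log (3 * Y) := Real.log_nonneg (by linarith)
    calc (q.divisors.card : ℝ) ^ A *
      (2 * ((a * W * q).primeFactors.card * Real.log (3 * Y))) ≤
        (C5 * X ^ (1 / 200 : ℝ)) * (2 * ((2 * L) * (3 * L))) := by
          apply mul_le_mul u1 _ (by positivity) (by positivity)
          apply mul_le_mul_of_nonneg_left _ (by norm_num)
          exact mul_le_mul u2 u3 u4 (by positivity)
      _ = _ := by ring
  refine (sum_le_sum t1).trans ?_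
  rw [sum_const, nsmul_eq_mul]
  have t2 : ((QQ W P0 R).card : ℝ) ≤ X ^ (1 / 100 : ℝ) := by
    have : (QQ W P0 R).card ≤ R := by
      refine (card_filter_le _ _).trans ?_
      rw [Nat.card_Icc]
      omega
    exact le_trans (by exact_mod_cast this) hRle
  have t3 : ((a * W).totient : ℝ) ≤ X ^ (1 / 1000 : ℝ) * X ^ (1 / 500 : ℝ) := by
    calc ((a * W).totient : ℝ) ≤ ((a * W : ℕ) : ℝ) := by exact_mod_cast Nat.totient_le _
      _ = (a : ℝ) * W := by push_cast; ring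
      _ ≤ _ := by gcongr
  rw [← mul_div_assoc, le_div_iff₀ (by positivity)]
  calc ((QQ W P0 R).card : ℝ) * (12 * C5 * L ^ 2 * X ^ (1 / 200 : ℝ)) *
      (((a * W).totient : ℝ) * L ^ A) ≤
      X ^ (1 / 100 : ℝ) * (12 * C5 * L ^ 2 * X ^ (1 / 200 : ℝ)) *
      ((X ^ (1 / 1000 : ℝ) * X ^ (1 / 500 : ℝ)) * L ^ A) := by gcongr
    _ = (1 / 2) * ((24 * C5 * L ^ (A + 2)) *
        (X ^ (1 / 100 : ℝ) * X ^ (1 / 200 : ℝ) * X ^ (1 / 1000 : ℝ) * X ^ (1 / 500 : ℝ))) := by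
        rw [pow_add]; ring
    _ ≤ (1 / 2) * (X ^ (1 / 2 : ℝ) * X ^ (1 / 2 : ℝ)) := by
        apply mul_le_mul_of_nonneg_left _ (by norm_num)
        apply mul_le_mul h6 _ (by positivity) (by positivity)
        rw [← Real.rpow_add hX0, ← Real.rpow_add hX0, ← Real.rpow_add hX0]
        exact Real.rpow_le_rpow_of_exponent_le hX1 (by norm_num)
    _ = (1 / 2) * X := by
        rw [← Real.rpow_add hX0]; norm_num
    _ ≤ (1 / 2) * Y := by linarith

/-- Bombieri-Vinogradov relative to `a * W`, simultaneously for several `a` -/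
theorem bv_multi (A K : ℕ) : ∃ N : ℕ, ∀ᶠ X : ℝ in atTop, ∀ (a k ps : Fin K → ℕ) (P0 : ℕ) (T : Finset ℕ),
    (∀ i, 1 ≤ a i) → (∀ i, (a i : ℝ) ≤ X ^ (1 / 1000 : ℝ)) →
    (∀ i, X ≤ Real.exp (k i) ∧ Real.exp (k i) ≤ X ^ 2) → (∀ i, a i ∣ P0) → (∀ i, ps i ∣ P0) →
    (∀ i, ps i = 1 ∨ ((ps i).Prime ∧ ps i ∈ T)) →
    (∀ i, GG X (Real.exp (k i)) (a i) (ps i) ≤ Real.exp (k i) / (Real.log X) ^ N) →
    ∃ S, GoodS X S ∧ ∀ i, ∀ b : ℕ → ℕ, (∀ q, 1 ≤ q → (b q).Coprime (a i * WW X (S ∪ T) 1 * q)) →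
      ∑ q ∈ QQ (WW X (S ∪ T) 1) P0 ⌊X ^ (1 / 100 : ℝ)⌋₊,
        (q.divisors.card : ℝ) ^ A * |EPhi (Real.exp (k i)) (a i * WW X (S ∪ T) 1 * q) (b q)|
        ≤ Real.exp (k i) / (((a i * WW X (S ∪ T) 1).totient : ℝ) * (Real.log X) ^ A) := by
  classical
  set Kw := 2 ^ (A + 1) with hKw
  set N := Kw + A + 2 with hN
  set kk := N + 8 with hkk
  refine ⟨N, ?_⟩
  obtain ⟨C0, X1, hls⟩ := ls_sum
  set C1 := max C0 1 with hC1
  have hC1p : 1 ≤ C1 := le_max_right _ _
  obtain ⟨C5, hC5, hwt⟩ := wt_le A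
  have hlog : Tendsto Real.log atTop atTop := Real.tendsto_log_atTop
  have hloglog : Tendsto (fun X : ℝ => Real.log (Real.log X)) atTop atTop := hlog.comp hlog
  filter_upwards [triv_err A C5 hC5 hwt, eventually_ge_atTop X1, eventually_ge_atTop (4:ℝ),
    hloglog.eventually_ge_atTop (8 * (((3 * kk : ℕ) : ℝ) + ((2 * kk : ℕ) : ℝ) + 10)),
    hlog.eventually_ge_atTop (2 ^ Kw * (1 + C5 * (2 + 3 * (K + 1))) * (512 * C1))] with X h1 h2 h3 h4 h5
  intro a k ps P0 T ha haX hk haP hpsP hps hGG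
  have hX0 : 0 < X := by linarith
  have hX1 : 1 ≤ X := by linarith
  have hL1 : 1 ≤ Real.log X := by
    rw [Real.le_log_iff_exp_le hX0]
    have := Real.exp_one_lt_d9
    linarith
  set L := Real.log X with hL
  set l := Real.log L with hl
  have hL0 : 0 < L := by linarith
  have hkr : (0:ℝ) ≤ ((3 * kk : ℕ) : ℝ) + ((2 * kk : ℕ) : ℝ) := by positivity
  have hl80 : 80 ≤ l := by linarith
  have hexpl : Real.exp l = L := Real.exp_log hL0
  -- parameters
  set R := ⌊X ^ (1 / 100 : ℝ)⌋₊ with hR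
  set D := ⌊L ^ (2 * kk)⌋₊ with hD
  set Ω := ⌈((3 * kk : ℕ) : ℝ) * l ^ 4⌉₊ with hΩ
  set κ := 1 / l ^ 3 with hκ
  set P := (Icc 1 (yy X)).filter (fun p => p.Prime ∧ z2 X < p) with hP
  set Y : Fin K → ℝ := fun i => Real.exp (k i) with hY
  set M : Fin K → ℝ := fun i => 256 * C1 * Y i / L ^ N with hM
  set F : Fin K → ℕ := fun i => ⌊(Y i) ^ (1 / 50 : ℝ)⌋₊ with hF
  have hYpos : ∀ i, 0 < Y i := fun i => Real.exp_pos _
  have hM0 : ∀ i, 0 < M i := fun i => by
    have := hYpos i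
    rw [hM]
    positivity
  have hl3 : (1:ℝ) ≤ l ^ 3 := one_le_pow₀ (by linarith)
  have hκ0 : 0 ≤ κ := by positivity
  have hκ1 : κ ≤ 1 := by
    rw [hκ, div_le_one (by positivity)]
    exact hl3
  have hRle : (R : ℝ) ≤ X ^ (1 / 100 : ℝ) := Nat.floor_le (by positivity)
  have hV0 : 0 < primorial (yy X) := primorial_pos _
  have hFle : ∀ i, primorial (yy X) * R * (a i) ^ 2 ≤ F i := by
    intro i
    apply Nat.le_floor
    push_cast
    calc (primorial (yy X) : ℝ) * R * (a i) ^ 2 ≤ X ^ (1 / 500 : ℝ) * X ^ (1 / 100 : ℝ) * (X ^ (1 / 1000 : ℝ)) ^ 2 := by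
          have h7 := primorial_yy_le X hX1
          have h8 := haX i
          gcongr
      _ = X ^ (1 / 500 + 1 / 100 + 2 / 1000 : ℝ) := by
          rw [← Real.rpow_natCast, ← Real.rpow_mul hX0.le, Real.rpow_add hX0, Real.rpow_add hX0]
          norm_num
      _ ≤ X ^ (1 / 50 : ℝ) := Real.rpow_le_rpow_of_exponent_le hX1 (by norm_num)
      _ ≤ (Y i) ^ (1 / 50 : ℝ) := Real.rpow_le_rpow hX0.le (hk i).1 (by norm_num)
  have hall : ∀ i, ∑ f ∈ Icc 2 (F i), TT (Y i) f ≤ M i * L ^ kk := by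
    intro i
    have h7 : ∑ f ∈ Icc 2 (F i), TT (Y i) f ≤ C0 * Y i * (Real.log (Y i)) ^ 8 := hls (Y i) (h2.trans (hk i).1)
    refine h7.trans ?_
    have hLk : L ^ kk = L ^ N * L ^ 8 := by rw [hkk, pow_add]
    have hLN0 : L ^ N ≠ 0 := by positivity
    have e1 : M i * L ^ kk = C1 * Y i * (2 * L) ^ 8 := by
      rw [hM, hLk]
      field_simp
      ring
    rw [e1]
    have h8 : C0 ≤ C1 := le_max_left _ _
    have h9 : Real.log (Y i) ≤ 2 * L := by
      have := Real.log_le_log (hYpos i) (hk i).2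
      rw [Real.log_pow] at this
      exact_mod_cast this
    have h10 : 0 ≤ Real.log (Y i) := Real.log_nonneg (hX1.trans (hk i).1)
    have hYi := hYpos i
    calc C0 * Y i * (Real.log (Y i)) ^ 8 ≤ C1 * Y i * (Real.log (Y i)) ^ 8 := by gcongr
      _ ≤ C1 * Y i * (2 * L) ^ 8 := by gcongr
  have hyL : (yy X : ℝ) ≤ L := by
    have : (yy X : ℝ) ≤ L / 1000 := Nat.floor_le (by positivity)
    linarith
  -- the sets of pairs
  set Wf : Finset ℕ → ℕ := fun S => WW X (S ∪ T) 1 with hWf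
  have hWsq : ∀ S, Squarefree (Wf S) := fun S => LSBV.WW_squarefree X (S ∪ T) 1
  have hWpos : ∀ S, 1 ≤ Wf S := fun S => LSBV.WW_pos X (S ∪ T) 1
  have hWV : ∀ S, Wf S ∣ primorial (yy X) := fun S => WW_dvd_primorial X (S ∪ T) 1
  set PB : Fin K → Finset ℕ → Finset (ℕ × ℕ) := fun i S =>
    (PS (Wr (a i) (Wf S)) P0 R).filter (fun p => p.2 ≤ D ∧ ¬ smP P Ω p) with hPB
  have hcaseB : ∀ i, ∑ S ∈ P.powerset, ww P κ S * ∑ p ∈ PB i S, TA (Y i) (a i) (p.1 * p.2) ≤ M i := by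
    intro i
    refine (caseBm (TA (Y i) (a i)) (TA_nonneg _ _) (primorial (yy X)) R D Ω (primorial (yy X) * R) P κ hκ0 hκ1
      hV0 le_rfl (PB i) ?_).trans ?_
    · intro S p hp
      rw [hPB, mem_filter, mem_PS] at hp
      obtain ⟨⟨⟨⟨h7, h8⟩, h9, h10, h11⟩, h12⟩, h13, h14⟩ := hp
      obtain ⟨hW1, hdvd, hmul, hcopa, hcop⟩ := Wr_facts (ha i) (hWsq S)
      have h15 : p.1 ∣ WW X (S ∪ T) 1 := h7.trans hdvd
      refine ⟨h15.trans (hWV S), h9, h13, ?_, ?_⟩
      · exact (disjoint_of_dvd_WW X (S ∪ T) 1 p.1 h15).mono_left subset_union_left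
      · unfold smP at h14
        omega
    · have h7 : (1 - κ) ^ Ω ≤ Real.exp (-((3 * kk : ℕ) * l)) := by
        apply pow_le_exp κ l (3 * kk) Ω hκ1
        have h8 : ((3 * kk : ℕ) : ℝ) * l ^ 4 ≤ Ω := Nat.le_ceil _
        calc ((3 * kk : ℕ) : ℝ) * l = κ * (((3 * kk : ℕ) : ℝ) * l ^ 4) := by
              rw [hκ]
              have : l ≠ 0 := by linarith
              field_simp
          _ ≤ κ * Ω := mul_le_mul_of_nonneg_left h8 hκ0
      have h8 : Real.exp (-((3 * kk : ℕ) * l)) = 1 / L ^ (3 * kk) := by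
        rw [Real.exp_neg, Real.exp_nat_mul, hexpl, one_div]
      rw [h8] at h7
      have hDle : (D:ℝ) ≤ L ^ (2 * kk) := Nat.floor_le (by positivity)
      have hT0 : 0 ≤ ∑ f ∈ Icc 1 (primorial (yy X) * R), TA (Y i) (a i) f := sum_nonneg fun f _ => TA_nonneg _ _ f
      have hT1 : ∑ f ∈ Icc 1 (primorial (yy X) * R), TA (Y i) (a i) f ≤ M i * L ^ kk :=
        (TA_sum (Y i) (a i) _ (F i) (ha i) (hFle i)).trans (hall i)
      calc (1 - κ) ^ Ω * (D * ∑ f ∈ Icc 1 (primorial (yy X) * R), TA (Y i) (a i) f) ≤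
          (1 / L ^ (3 * kk)) * (L ^ (2 * kk) * (M i * L ^ kk)) := by
            apply mul_le_mul h7 _ (by positivity) (by positivity)
            exact mul_le_mul hDle hT1 hT0 (by positivity)
        _ = M i * ((L ^ (2 * kk) * L ^ kk) / L ^ (3 * kk)) := by ring
        _ = M i := by
            rw [← pow_add, show 2 * kk + kk = 3 * kk by ring, div_self (by positivity), mul_one]
  -- random set
  have hE1 : ∑ S ∈ P.powerset, ww P κ S * ∑ q ∈ S, (1:ℝ) / q ≤ 2 / l ^ 2 := by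
    rw [sum_ww_inv]
    have h7 : ∑ q ∈ P, (1:ℝ) / q ≤ 1 + l := by
      calc ∑ q ∈ P, (1:ℝ) / q ≤ ∑ q ∈ Icc 1 (yy X), (1:ℝ) / q := by
            apply sum_le_sum_of_subset_of_nonneg (filter_subset _ _)
            intro i _ _
            positivity
        _ ≤ 1 + Real.log (yy X) := harm_le' _
        _ ≤ 1 + l := by
            rcases Nat.eq_zero_or_pos (yy X) with h | h
            · rw [h]; simp; linarith
            · have : Real.log (yy X) ≤ l :=
                Real.log_le_log (by exact_mod_cast h) hyL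
              linarith
    calc κ * ∑ q ∈ P, (1:ℝ) / q ≤ κ * (1 + l) := mul_le_mul_of_nonneg_left h7 hκ0
      _ ≤ κ * (2 * l) := mul_le_mul_of_nonneg_left (by linarith) hκ0
      _ = 2 / l ^ 2 := by
          rw [hκ]
          have : l ≠ 0 := by linarith
          field_simp
  have hE2 : ∑ S ∈ P.powerset, ww P κ S * ∑ i, (1 / M i) * ∑ p ∈ PB i S, TA (Y i) (a i) (p.1 * p.2) ≤ K + 1 := by
    have e1 : ∑ S ∈ P.powerset, ww P κ S * ∑ i, (1 / M i) * ∑ p ∈ PB i S, TA (Y i) (a i) (p.1 * p.2) =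
        ∑ i, (1 / M i) * ∑ S ∈ P.powerset, ww P κ S * ∑ p ∈ PB i S, TA (Y i) (a i) (p.1 * p.2) := by
      simp_rw [mul_sum]
      rw [sum_comm]
      refine sum_congr rfl fun i _ => ?_
      refine sum_congr rfl fun S _ => ?_
      refine sum_congr rfl fun p _ => ?_
      ring
    rw [e1]
    calc ∑ i, (1 / M i) * ∑ S ∈ P.powerset, ww P κ S * ∑ p ∈ PB i S, TA (Y i) (a i) (p.1 * p.2) ≤
        ∑ i : Fin K, (1 : ℝ) := by
          apply sum_le_sum
          intro i _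
          rw [one_div_mul_eq_div, div_le_one (hM0 i)]
          exact hcaseB i
      _ ≤ K + 1 := by simp
  obtain ⟨S, hSP, hS1, hS2⟩ := exists_good P κ hκ0 hκ1 (fun S => ∑ q ∈ S, (1:ℝ) / q)
    (fun S => ∑ i, (1 / M i) * ∑ p ∈ PB i S, TA (Y i) (a i) (p.1 * p.2))
    (fun S => sum_nonneg fun _ _ => by positivity)
    (fun S => sum_nonneg fun i _ => mul_nonneg (by have := hM0 i; positivity)
      (sum_nonneg fun _ _ => TA_nonneg _ _ _)) (2 / l ^ 2) (K + 1) (by positivity) (by positivity) hE1 hE2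
  refine ⟨S, ⟨?_, ?_⟩, ?_⟩
  · intro q hq
    have := hSP hq
    rw [hP, mem_filter, mem_Icc] at this
    exact ⟨this.2.1, this.2.2, this.1.2⟩
  · calc ∑ q ∈ S, (1:ℝ) / q ≤ 3 * (2 / l ^ 2) := hS1
      _ = 6 / l ^ 2 := by ring
  intro i b hb
  have hB : ∑ p ∈ PB i S, TA (Y i) (a i) (p.1 * p.2) ≤ 3 * (K + 1) * M i := by
    have h7 : (1 / M i) * ∑ p ∈ PB i S, TA (Y i) (a i) (p.1 * p.2) ≤ 3 * (K + 1) := by
      refine le_trans ?_ hS2
      exact single_le_sum (f := fun i => (1 / M i) * ∑ p ∈ PB i S, TA (Y i) (a i) (p.1 * p.2))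
        (fun j _ => mul_nonneg (by have := hM0 j; positivity) (sum_nonneg fun _ _ => TA_nonneg _ _ _))
        (mem_univ i)
    rw [one_div_mul_eq_div, div_le_iff₀ (hM0 i)] at h7
    exact h7
  have hWVle : (Wf S : ℝ) ≤ X ^ (1 / 500 : ℝ) := by
    refine le_trans ?_ (primorial_yy_le X hX1)
    exact_mod_cast Nat.le_of_dvd hV0 (hWV S)
  have hGM : GG X (Y i) (a i) (ps i) ≤ M i := by
    refine (hGG i).trans ?_
    rw [hM]
    have hYi := hYpos i
    have : Y i ≤ 256 * C1 * Y i := by nlinarith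
    simp only
    gcongr
  have hUU : 1 ≤ UU X := by
    unfold UU
    apply Nat.le_floor
    rw [Nat.cast_one]
    apply Real.one_le_exp
    positivity
  have hpb := pairs_bound A X (Y i) C5 (M i) L hC5 hwt (a i) (ps i) P0 (Wf S) R D Ω kk (F i) P (3 * (K + 1))
    (ha i) (haP i) (hpsP i) (hWsq S) (by
      rcases hps i with h | h
      · rw [h]; exact Nat.coprime_one_right _
      · rw [Nat.coprime_comm, Nat.Prime.coprime_iff_not_dvd h.1, H378R2.prime_dvd_WW h.1, mem_PW]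
        rintro ⟨_, _, h8, _⟩
        exact h8 (mem_union_right S h.2)) hL1
    (fun b hb => by
      have : L ^ (2 * kk) < b := (Nat.floor_lt (by positivity)).mp hb
      exact this.le)
    (by
      refine le_trans ?_ (hFle i)
      apply Nat.mul_le_mul_right
      apply Nat.mul_le_mul_right
      exact Nat.le_of_dvd hV0 (hWV S)) (hall i) hGM
    (by
      intro p hp hpD hpΩ
      unfold UU
      apply Nat.le_floor
      rw [← hL, ← hl]
      obtain ⟨hW1, hdvd, hmul, hcopa, hcop⟩ := Wr_facts (ha i) (hWsq S)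
      exact size_A X (S ∪ T) kk P hP p D Ω L l hl hL1 rfl hyL h4 hD hΩ
        (((mem_PS.1 hp).1.1.1).trans hdvd) hpD hpΩ) hB
  have hRX : (R:ℝ) ≤ X := by
    refine hRle.trans ?_
    calc X ^ (1 / 100 : ℝ) ≤ X ^ (1:ℝ) := Real.rpow_le_rpow_of_exponent_le hX1 (by norm_num)
      _ = X := Real.rpow_one X
  have hsumwt : ∑ e ∈ Icc 1 R, LSBV.wt A e ≤ 2 ^ Kw * L ^ Kw := by
    refine (sum_wt A R).trans ?_
    rw [← hKw, ← mul_pow]
    have h7 := log_natCast_le R X hX1 hRX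
    have h8 := Real.log_natCast_nonneg R
    apply pow_le_pow_left₀ (by linarith)
    linarith
  have hT1 : TA (Y i) (a i) 1 ≤ M i := by
    refine le_trans ?_ hGM
    have h7 := TA_small X (Y i) (a i) (ps i) (ha i) {1} (by
      intro m hm
      rw [mem_singleton] at hm
      subst hm
      exact ⟨le_rfl, hUU, squarefree_one, Nat.coprime_one_left _⟩)
    rwa [sum_singleton] at h7
  have h3' := h1 (Y i) (a i) P0 (Wf S) (hk i).1 (hk i).2 (ha i) (haX i) (hWpos S) hWVle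
  have hfin := main_bound A (Y i) (M i) (2 ^ Kw * L ^ Kw) (C5 * (2 + 3 * (K + 1))) _
    (hX1.trans (hk i).1) (a i) P0 (Wf S) R (ha i) (haP i) (hWsq S) hsumwt (by positivity) hT1 hpb h3' b hb
  refine hfin.trans ?_
  have hYi := hYpos i
  have hφ : (0 : ℝ) < (a i * Wf S).totient := by
    exact_mod_cast Nat.totient_pos.2 (Nat.mul_pos (ha i) (hWpos S))
  have hlast : (1 / ((a i * Wf S).totient : ℝ)) * (2 ^ Kw * L ^ Kw * ((1 + C5 * (2 + 3 * (K + 1))) * M i)) ≤
      (1 / 2) * (Y i / (((a i * Wf S).totient : ℝ) * L ^ A)) := by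
    have e1 : (1 / ((a i * Wf S).totient : ℝ)) * (2 ^ Kw * L ^ Kw * ((1 + C5 * (2 + 3 * (K + 1))) * M i)) =
        (1 / 2) * ((2 ^ Kw * (1 + C5 * (2 + 3 * (K + 1))) * (512 * C1)) / L ^ 2) *
          (Y i / (((a i * Wf S).totient : ℝ) * L ^ A)) := by
      rw [hM, hN, pow_add, pow_add]
      field_simp
      ring
    rw [e1]
    calc (1 / 2) * ((2 ^ Kw * (1 + C5 * (2 + 3 * (K + 1))) * (512 * C1)) / L ^ 2) *
          (Y i / (((a i * Wf S).totient : ℝ) * L ^ A)) ≤ (1 / 2) * 1 * (Y i / (((a i * Wf S).totient : ℝ) * L ^ A)) := by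
          gcongr
          rw [div_le_one (by positivity)]
          calc 2 ^ Kw * (1 + C5 * (2 + 3 * (K + 1))) * (512 * C1) ≤ L := h5
            _ ≤ L ^ 2 := by nlinarith
      _ = _ := by ring
  have : Y i / (((a i * Wf S).totient : ℝ) * L ^ A) = (1 / 2) * (Y i / (((a i * Wf S).totient : ℝ) * L ^ A)) +
      (1 / 2) * (Y i / (((a i * Wf S).totient : ℝ) * L ^ A)) := by ring
  rw [this]
  linarith

end Pool.Agent.H262R2.UM
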