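import Mathlib
import Pool.Agent.H378R2.FinalAll
import Pool.Agent.H378R2.M7n

open Finset Filter
open scoped ContDiff

/-! Sieve expansions for several linear forms with different leading coefficients. -/

namespace Pool.Agent.H262R2.UM

open Pool.Agent.H378R2

theorem count_class (N Q b : ℕ) (hQ : 0 < Q) :
    |∑ n ∈ (Icc 1 N).filter (fun n => n ≡ b [MOD Q]), (1 : ℝ) - N * (1 / Q)| ≤ 1 := by
  have h0 : (Icc 1 N) = Ioc 0 N := by ext x; simp [Nat.succ_le_iff]
  have hQr : (0 : ℚ) < Q := by exact_mod_cast hQ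
  rw [sum_const, nsmul_eq_mul, mul_one, h0]
  have h1 := Nat.Ioc_filter_modEq_card 0 N hQ b
  set c := #((Ioc 0 N).filter (fun n => n ≡ b [MOD Q])) with hc
  have h2 : (c : ℚ) = ((max (⌊((N : ℚ) - b) / (Q : ℚ)⌋ - ⌊(((0 : ℕ) : ℚ) - b) / (Q : ℚ)⌋) 0 : ℤ) : ℚ) := by
    rw [← h1]; push_cast; rfl
  have h3 : ⌊(((0 : ℕ) : ℚ) - b) / (Q : ℚ)⌋ ≤ ⌊((N : ℚ) - b) / (Q : ℚ)⌋ := by
    apply Int.floor_le_floor
    gcongr
    exact_mod_cast Nat.zero_le N
  rw [max_eq_left (by omega)] at h2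
  have h4 := Int.floor_le (((N : ℚ) - b) / (Q : ℚ))
  have h5 := Int.lt_floor_add_one (((N : ℚ) - b) / (Q : ℚ))
  have h6 := Int.floor_le ((((0 : ℕ) : ℚ) - b) / (Q : ℚ))
  have h7 := Int.lt_floor_add_one ((((0 : ℕ) : ℚ) - b) / (Q : ℚ))
  have h8 : ((N : ℚ) - b) / (Q : ℚ) - (((0 : ℕ) : ℚ) - b) / (Q : ℚ) = N * (1 / Q) := by
    push_cast; field_simp; ring
  have h9 : |(c : ℚ) - N * (1 / Q)| ≤ 1 := by
    rw [h2, ← h8, abs_le]
    push_cast
    constructor <;> push_cast at h4 h5 h6 h7 <;> linarith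
  have h10 : (((c : ℚ) - N * (1 / Q) : ℚ) : ℝ) = (c : ℝ) - N * (1 / Q) := by push_cast; rfl
  rw [← h10, ← Rat.cast_abs]
  exact_mod_cast h9

theorem sum1c {J : ℕ} (N : ℕ) (W a : ℕ) (hW : 0 < W) (F G : Fin J → ℝ → ℝ)
    (L Cf : ℝ) (hL : 0 < L) (hCf : 0 ≤ Cf) (cF cG : Fin J → ℝ)
    (hF : ∀ j x, |F j x| ≤ Cf) (hG : ∀ j x, |G j x| ≤ Cf)
    (hF0 : ∀ j x, cF j < x → F j x = 0) (hG0 : ∀ j x, cG j < x → G j x = 0)
    (E : Fin J → Finset ℕ) (R : ℕ) (c : Fin J → ℕ) (h : Fin J → ℤ)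
    (hEW : ∀ j, ∀ p : ℕ, p.Prime → p ∉ E j → ¬ p ∣ W) (hEc : ∀ j, ∀ p : ℕ, p.Prime → p ∉ E j → ¬ p ∣ c j)
    (hres : ∀ i j, i ≠ j → ∀ p : ℕ, p.Prime → p ∉ E i → p ∉ E j → ∀ n : ℕ,
      ¬ ((p : ℤ) ∣ c i * n + h i ∧ (p : ℤ) ∣ c j * n + h j)) :
    |∑ n ∈ Icc 1 N, (if n ≡ a [MOD W] then (1 : ℝ) else 0) *
        ∏ j, (VVm (E j) R L (F j) (c j * n + h j) * VVm (E j) R L (G j) (c j * n + h j)) -
      ((N : ℝ) * (1 / W)) * sieveSum J F G L E (fun p _ => 1 / (p : ℝ)) R| ≤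
    Cf ^ (2 * J) * Real.exp (L * (∑ j, cF j + ∑ j, cG j)) := by
  classical
  refine (expand_le E R L F G N (fun n => if n ≡ a [MOD W] then (1 : ℝ) else 0)
    (fun n j => c j * n + h j) ((N : ℝ) * (1 / W)) (fun p _ => 1 / (p : ℝ))).trans ?_
  refine (support_bound E R L Cf hL hCf F G cF cG hF hG hF0 hG0 _ (fun _ _ => abs_nonneg _)).trans ?_
  have key : ∀ d ∈ supp E R L cF, ∀ e ∈ supp E R L cG,
      |Err N (fun n => if n ≡ a [MOD W] then (1 : ℝ) else 0)
        (fun n j => c j * n + h j) ((N : ℝ) * (1 / W)) (fun p _ => 1 / (p : ℝ)) d e| ≤ 1 := by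
    intro d hd e he
    rw [mem_supp] at hd he
    by_cases hPC : PC d e
    · set D : Fin J → ℕ := fun j => Nat.lcm (d j) (e j) with hD
      have hd0 : ∀ j, d j ≠ 0 := fun j => by have := (mem_adm.1 (hd j).1).1.1; omega
      have he0 : ∀ j, e j ≠ 0 := fun j => by have := (mem_adm.1 (he j).1).1.1; omega
      have hD0 : ∀ j, D j ≠ 0 := fun j => Nat.lcm_ne_zero (hd0 j) (he0 j)
      have hDW : ∀ j, (D j).Coprime W := fun j => adm_lcm_coprime (hd j).1 (he j).1 (hEW j)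
      have hDc : ∀ j, (c j).Coprime (D j) := fun j => (adm_lcm_coprime (hd j).1 (he j).1 (hEc j)).symm
      have hDsq : ∀ j, Squarefree (D j) := fun j =>
        sqf_lcm (mem_adm.1 (hd j).1).2.1 (mem_adm.1 (he j).1).2.1
      obtain ⟨b, hb⟩ := class_exists W a hW.ne' D c h hD0 hPC hDW hDc
      have hprodpos : 0 < ∏ j, D j := Finset.prod_pos fun j _ => Nat.pos_of_ne_zero (hD0 j)
      have h2 := count_class N (W * ∏ j, D j) b (Nat.mul_pos hW hprodpos)
      have e1 : Err N (fun n => if n ≡ a [MOD W] then (1 : ℝ) else 0)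
        (fun n j => c j * n + h j) ((N : ℝ) * (1 / W)) (fun p _ => 1 / (p : ℝ)) d e =
          ∑ n ∈ (Icc 1 N).filter (fun n => n ≡ b [MOD (W * ∏ j, D j)]), (1 : ℝ) -
            N * (1 / ((W * ∏ j, D j : ℕ) : ℝ)) := by
        unfold Err
        rw [if_pos hPC]
        congr 1
        · rw [Finset.sum_filter]
          refine Finset.sum_congr rfl fun n _ => ?_
          by_cases hn : n ≡ b [MOD (W * ∏ j, D j)]
          · have h3 := (hb n).2 hn
            have hDC : DC (fun j => (c j : ℤ) * n + h j) d e := h3.2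
            simp only [if_pos hn, if_pos hDC, if_pos h3.1]
          · rw [if_neg hn]
            by_cases hDC : DC (fun j => (c j : ℤ) * n + h j) d e
            · rw [if_pos hDC]
              have hna : ¬ n ≡ a [MOD W] := fun hna => hn ((hb n).1 ⟨hna, hDC⟩)
              simp only [if_neg hna]
            · rw [if_neg hDC]
        · rw [mul_assoc]
          congr 1
          have : ∀ j : Fin J, ∏ p ∈ (Nat.lcm (d j) (e j)).primeFactors, (1 : ℝ) / p = 1 / (D j : ℝ) :=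
            fun j => prod_one_div (hDsq j)
          simp_rw [this]
          rw [Finset.prod_div_distrib, Finset.prod_const_one]
          push_cast
          field_simp
      rw [e1]
      exact h2
    · rw [not_PC_err _ _ _ _ (fun j => (hd j).1) (fun j => (he j).1) _ hPC]
      · norm_num
      · intro i j hij p hp hpi hpj n _ _
        exact hres i j hij p hp hpi hpj n
  have h3 : ∑ d ∈ supp E R L cF, ∑ e ∈ supp E R L cG,
      |Err N (fun n => if n ≡ a [MOD W] then (1 : ℝ) else 0)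
        (fun n j => c j * n + h j) ((N : ℝ) * (1 / W)) (fun p _ => 1 / (p : ℝ)) d e| ≤
      Real.exp (L * (∑ j, cF j + ∑ j, cG j)) := by
    calc _ ≤ ∑ d ∈ supp E R L cF, ∑ e ∈ supp E R L cG, (1 : ℝ) :=
          Finset.sum_le_sum fun d hd => Finset.sum_le_sum fun e he => key d hd e he
      _ = ((supp E R L cF).card : ℝ) * (((supp E R L cG).card : ℝ) * 1) := by
          rw [Finset.sum_const, Finset.sum_const, nsmul_eq_mul, nsmul_eq_mul]
      _ ≤ Real.exp (L * ∑ j, cF j) * (Real.exp (L * ∑ j, cG j) * 1) := by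
          have := supp_card E R L cF
          have := supp_card E R L cG
          gcongr
      _ = _ := by rw [mul_add, Real.exp_add]; ring
  exact mul_le_mul_of_nonneg_left h3 (by positivity)

theorem sum2c {J : ℕ} (X : ℝ) (W P b : ℕ) (hW : 0 < W) (hbW : b.Coprime W) (F G : Fin J → ℝ → ℝ)
    (L Cf : ℝ) (hL : 0 < L) (hCf : 0 ≤ Cf) (cF cG : Fin J → ℝ)
    (hF : ∀ j x, |F j x| ≤ Cf) (hG : ∀ j x, |G j x| ≤ Cf)
    (hF0 : ∀ j x, cF j < x → F j x = 0) (hG0 : ∀ j x, cG j < x → G j x = 0)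
    (E : Fin J → Finset ℕ) (R : ℕ) (c : Fin J → ℕ) (h : Fin J → ℤ)
    (hEW : ∀ j, ∀ p : ℕ, p.Prime → p ∉ E j → ¬ p ∣ W) (hEP : ∀ j, ∀ p : ℕ, p.Prime → p ∉ E j → ¬ p ∣ P)
    (hEc : ∀ j, ∀ p : ℕ, p.Prime → p ∉ E j → ¬ p ∣ c j)
    (hEh : ∀ j, ∀ p : ℕ, p.Prime → p ∉ E j → ¬ (p : ℤ) ∣ h j)
    (hres : ∀ i j, i ≠ j → ∀ p : ℕ, p.Prime → p ∉ E i → p ∉ E j → ∀ n : ℕ,
      ¬ ((p : ℤ) ∣ c i * n + h i ∧ (p : ℤ) ∣ c j * n + h j))
    (B : ℕ → ℕ) (hB : ∀ q, 1 ≤ q → ∀ b' : ℕ, b'.Coprime (W * q) → |EPhi X (W * q) b'| ≤ |EPhi X (W * q) (B q)|) :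
    |∑ n ∈ Icc 1 ⌊3 * X⌋₊, (if n ≡ b [MOD W] then Phi (n / X) * ArithmeticFunction.vonMangoldt n else 0) *
        ∏ j, (VVm (E j) R L (F j) (c j * n + h j) * VVm (E j) R L (G j) (c j * n + h j)) -
      (LPhi X * (1 / W.totient)) * sieveSum J F G L E (fun p _ => 1 / ((p : ℝ) - 1)) R| ≤
    Cf ^ (2 * J) * ∑ q ∈ (Icc 1 ⌊Real.exp (L * (∑ j, cF j + ∑ j, cG j))⌋₊).filter
      (fun q => Squarefree q ∧ q.Coprime P), (q.divisors.card : ℝ) ^ (2 * J) * |EPhi X (W * q) (B q)| := by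
  classical
  refine (expand_le E R L F G ⌊3 * X⌋₊ (fun n => if n ≡ b [MOD W] then Phi (n / X) * ArithmeticFunction.vonMangoldt n else 0)
    (fun n j => c j * n + h j) (LPhi X * (1 / W.totient)) (fun p _ => 1 / ((p : ℝ) - 1))).trans ?_
  refine (support_bound E R L Cf hL hCf F G cF cG hF hG hF0 hG0 _ (fun _ _ => abs_nonneg _)).trans ?_
  apply mul_le_mul_of_nonneg_left _ (by positivity)
  refine fiber_bound (supp E R L cF) (supp E R L cG) _ PC (fun q => |EPhi X (W * q) (B q)|)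
    (fun _ => abs_nonneg _) ?_ ?_ _ ?_ ?_
  · intro q hq
    rw [Finset.mem_filter, Finset.mem_Icc] at hq
    omega
  · intro d hd e he hPC
    have hdp := supp_prod_le hd
    have hep := supp_prod_le he
    rw [mem_supp] at hd he
    have hd0 : ∀ j, d j ≠ 0 := fun j => by have := (mem_adm.1 (hd j).1).1.1; omega
    have he0 : ∀ j, e j ≠ 0 := fun j => by have := (mem_adm.1 (he j).1).1.1; omega
    have hprodpos : 0 < ∏ j, Nat.lcm (d j) (e j) :=
      Finset.prod_pos fun j _ => Nat.pos_of_ne_zero (Nat.lcm_ne_zero (hd0 j) (he0 j))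
    rw [Finset.mem_filter, Finset.mem_Icc]
    refine ⟨⟨hprodpos, Nat.le_floor ?_⟩, ?_, ?_⟩
    · have h1 : ∏ j, Nat.lcm (d j) (e j) ≤ (∏ j, d j) * ∏ j, e j := by
        rw [← Finset.prod_mul_distrib]
        exact Finset.prod_le_prod' fun j _ => lcm_le_mul' (Nat.pos_of_ne_zero (hd0 j)) (Nat.pos_of_ne_zero (he0 j))
      calc ((∏ j, Nat.lcm (d j) (e j) : ℕ) : ℝ) ≤ (((∏ j, d j) * ∏ j, e j : ℕ) : ℝ) := by exact_mod_cast h1
        _ = ((∏ j, d j : ℕ) : ℝ) * ((∏ j, e j : ℕ) : ℝ) := by push_cast; ring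
        _ ≤ Real.exp (L * ∑ j, cF j) * Real.exp (L * ∑ j, cG j) := by
            apply mul_le_mul hdp hep (Nat.cast_nonneg _) (Real.exp_pos _).le
        _ = _ := by rw [← Real.exp_add]; ring_nf
    · exact squarefree_prod _ hPC fun j => sqf_lcm (mem_adm.1 (hd j).1).2.1 (mem_adm.1 (he j).1).2.1
    · exact Nat.Coprime.prod_left fun j _ => adm_lcm_coprime (hd j).1 (he j).1 (hEP j)
  · intro d hd e he hPC
    rw [mem_supp] at hd he
    set D : Fin J → ℕ := fun j => Nat.lcm (d j) (e j) with hD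
    have hd0 : ∀ j, d j ≠ 0 := fun j => by have := (mem_adm.1 (hd j).1).1.1; omega
    have he0 : ∀ j, e j ≠ 0 := fun j => by have := (mem_adm.1 (he j).1).1.1; omega
    have hD0 : ∀ j, D j ≠ 0 := fun j => Nat.lcm_ne_zero (hd0 j) (he0 j)
    have hDW : ∀ j, (D j).Coprime W := fun j => adm_lcm_coprime (hd j).1 (he j).1 (hEW j)
    have hDc : ∀ j, (c j).Coprime (D j) := fun j => (adm_lcm_coprime (hd j).1 (he j).1 (hEc j)).symm
    have hDsq : ∀ j, Squarefree (D j) := fun j =>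
      sqf_lcm (mem_adm.1 (hd j).1).2.1 (mem_adm.1 (he j).1).2.1
    obtain ⟨b', hb'⟩ := class_exists W b hW.ne' D c h hD0 hPC hDW hDc
    have hprodpos : 0 < ∏ j, D j := Finset.prod_pos fun j _ => Nat.pos_of_ne_zero (hD0 j)
    have hself := (hb' b').2 rfl
    have hcop : b'.Coprime (W * ∏ j, D j) := by
      rw [Nat.coprime_mul_iff_right]
      constructor
      · have h1 : b'.gcd W = b.gcd W := Nat.ModEq.gcd_eq hself.1
        rw [Nat.coprime_iff_gcd_eq_one, h1]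
        exact hbW
      · apply Nat.Coprime.prod_right
        intro j _
        by_contra hcop
        obtain ⟨p, hp, hpi, hpj⟩ := Nat.Prime.not_coprime_iff_dvd.1 hcop
        have hpE := prime_not_mem (hd j).1 (he j).1 hp hpj
        apply hEh j p hp hpE
        have h2 : (p : ℤ) ∣ c j * b' + h j := (Int.natCast_dvd_natCast.2 hpj).trans (hself.2 j)
        have h3 : (p : ℤ) ∣ c j * b' := dvd_mul_of_dvd_right (Int.natCast_dvd_natCast.2 hpi) _
        exact (Int.dvd_add_right h3).1 h2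
    have e1 : Err ⌊3 * X⌋₊ (fun n => if n ≡ b [MOD W] then Phi (n / X) * ArithmeticFunction.vonMangoldt n else 0)
      (fun n j => c j * n + h j) (LPhi X * (1 / W.totient)) (fun p _ => 1 / ((p : ℝ) - 1)) d e =
        EPhi X (W * ∏ j, D j) b' := by
      rw [EPhi_eq]
      unfold Err
      rw [if_pos hPC]
      congr 1
      · rw [Finset.sum_filter]
        refine Finset.sum_congr rfl fun n _ => ?_
        by_cases hn : n ≡ b' [MOD (W * ∏ j, D j)]
        · have h3 := (hb' n).2 hn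
          have hDC : DC (fun j => (c j : ℤ) * (n : ℤ) + h j) d e := h3.2
          simp only [if_pos hn, if_pos hDC, if_pos h3.1]
        · rw [if_neg hn]
          by_cases hDC : DC (fun j => (c j : ℤ) * (n : ℤ) + h j) d e
          · rw [if_pos hDC]
            have hna : ¬ n ≡ b [MOD W] := fun hna => hn ((hb' n).1 ⟨hna, hDC⟩)
            simp only [if_neg hna]
          · rw [if_neg hDC]
      · rw [mul_assoc]
        congr 1
        have hcopW : W.Coprime (∏ j, D j) := Nat.Coprime.prod_right fun j _ => (hDW j).symm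
        rw [Nat.totient_mul hcopW, totient_prod D hPC]
        have : ∀ j : Fin J, ∏ p ∈ (Nat.lcm (d j) (e j)).primeFactors, (1 : ℝ) / ((p : ℝ) - 1) =
            1 / ((D j).totient : ℝ) := by
          intro j
          rw [totient_sqf (hDsq j), Finset.prod_div_distrib, Finset.prod_const_one]
        simp_rw [this]
        rw [Finset.prod_div_distrib, Finset.prod_const_one]
        push_cast
        rw [one_div_mul_one_div]
    rw [e1]
    exact hB _ hprodpos _ hcop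
  · intro d hd e he hPC
    rw [mem_supp] at hd he
    rw [not_PC_err _ _ _ _ (fun j => (hd j).1) (fun j => (he j).1) _ hPC]
    · norm_num
    · intro i j hij p hp hpi hpj n _ _
      exact hres i j hij p hp hpi hpj n

end Pool.Agent.H262R2.UM
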