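import Mathlib
import Pool.Agent.H262R2.UM.Sieve

open Finset Filter
open scoped ContDiff

/-! The set of primes removed from the sieve. -/

namespace Pool.Agent.H262R2.UM

open Pool.Agent.H378R2
open Pool.Agent.Erdos456.Mert (PP)

theorem log_div_le {p : ℕ} (L : ℝ) (hL : 1 ≤ L) (h : (2 * L) ^ 3 ≤ p) : Real.log p / p ≤ 1 / L := by
  have hp0 : (0 : ℝ) < p := lt_of_lt_of_le (by positivity) h
  have hsq : Real.sqrt p * Real.sqrt p = p := Real.mul_self_sqrt hp0.le
  have hs : 2 * L ≤ Real.sqrt p := by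
    apply Real.le_sqrt_of_sq_le
    refine le_trans ?_ h
    nlinarith [sq_nonneg (2 * L)]
  have h2 : Real.log p ≤ 2 * Real.sqrt p := by
    have h3 := Real.log_le_sub_one_of_pos (Real.sqrt_pos.2 hp0)
    rw [Real.log_sqrt hp0.le] at h3
    linarith
  rw [div_le_div_iff₀ hp0 (by linarith)]
  have hs0 : 0 ≤ Real.sqrt p := Real.sqrt_nonneg _
  nlinarith

theorem setfacts2 : ∃ c : ℝ, 0 < c ∧ ∀ Cd : ℝ, 0 ≤ Cd → ∀ᶠ X : ℝ in atTop, ∀ E : Finset ℕ,
    (∀ p ∈ E, p.Prime) → (#(E.filter (fun p => ⌊(2 * Real.log X) ^ 3⌋₊ < p)) : ℝ) ≤ Cd * Real.log X →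
    (∑ p ∈ E, Real.log p / p ≤ (LL X) ^ (1 / 4 : ℝ)) ∧
    (∑ p ∈ E, (1 : ℝ) / p ≤ Real.log (LL X) / 32) ∧
    c / Real.log (Real.log X) ≤ BE E := by
  obtain ⟨C1, hC1⟩ := Pool.Agent.Erdos456.Mert.mertens_log
  obtain ⟨C2, hC2⟩ := Pool.Agent.Erdos456.Mert.mertens_inv
  refine ⟨Real.exp (-C2 - 6) / 6, by positivity, fun Cd hCd => ?_⟩
  have hlog := Real.tendsto_log_atTop
  have e1 := hlog.eventually (ev1 (C1 + Cd))
  have e2 := hlog.eventually (ev2 (C2 + 1))
  have e3 := hlog.eventually_ge_atTop (10 + Cd : ℝ)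
  have e4 := (hlog.comp hlog).eventually_ge_atTop (10 : ℝ)
  filter_upwards [e1, e2, e3, e4, eventually_ge_atTop 10] with X h1 h2 h3 h4 h5
  intro E hE hcard
  simp only [Function.comp] at h4
  set N := ⌊(2 * Real.log X) ^ 3⌋₊ with hN
  set L := Real.log X with hL
  have hL10 : 10 ≤ L := by linarith
  have hN1 : (N : ℝ) ≤ (2 * L) ^ 3 := Nat.floor_le (by positivity)
  have hN2 : (2 * L) ^ 3 < N + 1 := Nat.lt_floor_add_one _
  have hN3 : 3 ≤ N := by
    rw [hN]
    apply Nat.le_floor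
    have : (20 : ℝ) ^ 3 ≤ (2 * L) ^ 3 := by
      apply pow_le_pow_left₀ (by norm_num); linarith
    push_cast
    linarith
  have hNr : (3 : ℝ) ≤ N := by exact_mod_cast hN3
  have hlN : Real.log N ≤ 3 * Real.log (2 * L) := by
    have : Real.log ((2 * L) ^ 3) = 3 * Real.log (2 * L) := by
      rw [Real.log_pow]; norm_num
    rw [← this]
    exact Real.log_le_log (by linarith) hN1
  have hlN1 : 1 ≤ Real.log N := by
    rw [Real.le_log_iff_exp_le (by linarith)]
    have := Real.exp_one_lt_d9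
    linarith
  have hsplit : ∀ φ : ℕ → ℝ, (∀ p, 0 ≤ φ p) → ∀ M : ℝ, (∀ p ∈ E, N < p → φ p ≤ M) →
      ∑ p ∈ E, φ p ≤ ∑ p ∈ PP N, φ p + #(E.filter (fun p => N < p)) * M := by
    intro φ hφ M hM
    rw [← sum_filter_add_sum_filter_not E (fun p => N < p), add_comm]
    apply add_le_add
    · apply sum_le_sum_of_subset_of_nonneg _ (fun _ _ _ => hφ _)
      intro p hp
      rw [mem_filter, not_lt] at hp
      rw [mem_PP']
      exact ⟨hp.2, hE p hp.1⟩
    · rw [← nsmul_eq_mul]
      apply sum_le_card_nsmul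
      intro p hp
      rw [mem_filter] at hp
      exact hM p hp.1 hp.2
  have hbig : ∀ p : ℕ, N < p → (2 * L) ^ 3 ≤ p := by
    intro p hp
    have : (N : ℝ) + 1 ≤ p := by exact_mod_cast hp
    linarith
  have hn1 : ∀ p : ℕ, 0 ≤ Real.log p / p := fun p => by
    apply div_nonneg _ (Nat.cast_nonneg _)
    exact Real.log_natCast_nonneg p
  have hs1 := hsplit (fun p => Real.log p / p) hn1 (1 / L) (fun p _ hp => log_div_le L (by linarith) (hbig p hp))
  have hs2 := hsplit (fun p => (1 : ℝ) / p) (fun p => by positivity) (1 / L ^ 2) (fun p _ hp => by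
    apply one_div_le_one_div_of_le (by positivity)
    refine le_trans ?_ (hbig p hp)
    nlinarith [sq_nonneg L])
  have hc1 : (#(E.filter (fun p => N < p)) : ℝ) * (1 / L) ≤ Cd := by
    rw [mul_one_div, div_le_iff₀ (by linarith)]
    exact hcard
  have hc2 : (#(E.filter (fun p => N < p)) : ℝ) * (1 / L ^ 2) ≤ 1 := by
    rw [mul_one_div, div_le_one (by positivity)]
    refine hcard.trans ?_
    nlinarith
  have hm1 := (abs_le.1 (hC1 N (by omega))).2
  have hm2 := (abs_le.1 (hC2 N hN3)).2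
  have hloglog : Real.log (Real.log N) ≤ Real.log (3 * Real.log (2 * L)) :=
    Real.log_le_log (by linarith) hlN
  have hS2 : ∑ p ∈ E, (1 : ℝ) / p ≤ Real.log (3 * Real.log (2 * L)) + C2 + 1 := by
    linarith
  refine ⟨?_, ?_, ?_⟩
  · unfold LL
    refine le_trans ?_ h1
    linarith
  · unfold LL
    refine le_trans ?_ h2
    linarith
  · have hb := BE_ge (E := E) hE
    refine le_trans ?_ hb
    have hpos : 0 < 3 * Real.log (2 * L) := by linarith
    have h6 : Real.exp (-(Real.log (3 * Real.log (2 * L)) + C2 + 1) - 4) ≤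
        Real.exp (-(∑ p ∈ E, (1 : ℝ) / p) - 4) := by
      apply Real.exp_le_exp.2
      linarith
    refine le_trans ?_ h6
    have h7 : Real.exp (-(Real.log (3 * Real.log (2 * L)) + C2 + 1) - 4) =
        Real.exp (-C2 - 5) / (3 * Real.log (2 * L)) := by
      rw [show -(Real.log (3 * Real.log (2 * L)) + C2 + 1) - 4 =
        (-C2 - 5) - Real.log (3 * Real.log (2 * L)) by ring, Real.exp_sub, Real.exp_log hpos]
    rw [h7]
    have h8 : Real.exp (-C2 - 6) ≤ Real.exp (-C2 - 5) := Real.exp_le_exp.2 (by linarith)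
    have h9 : Real.log (2 * L) ≤ 2 * Real.log L := by
      rw [Real.log_mul (by norm_num) (by linarith)]
      have := Real.log_two_lt_d9
      linarith
    rw [div_div, div_le_div_iff₀ (by positivity) hpos]
    have h10 : 0 < Real.exp (-C2 - 6) := Real.exp_pos _
    calc Real.exp (-C2 - 6) * (3 * Real.log (2 * L)) ≤ Real.exp (-C2 - 5) * (3 * (2 * Real.log L)) := by
          gcongr
      _ = _ := by ring

theorem asympE (J : ℕ) (F G : Fin J → ℝ → ℝ)
    (hF : ∀ j, ContDiff ℝ ∞ (F j)) (hG : ∀ j, ContDiff ℝ ∞ (G j))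
    (hFc : ∀ j, HasCompactSupport (F j)) (hGc : ∀ j, HasCompactSupport (G j))
    (hF0 : ∀ j x, 1 / 2 < x → F j x = 0) (hG0 : ∀ j x, 1 / 2 < x → G j x = 0)
    (Cd : ℝ) (hCd : 0 ≤ Cd) (ε : ℝ) (hε : 0 < ε) :
    ∀ᶠ X : ℝ in atTop, ∀ (E : Finset ℕ) (w : ℕ → Fin J → ℝ),
      (∀ p ∈ E, p.Prime) → (#(E.filter (fun p => ⌊(2 * Real.log X) ^ 3⌋₊ < p)) : ℝ) ≤ Cd * Real.log X →
      (∀ p : ℕ, p.Prime → p ≤ z2 X → p ∈ E) →
      (∀ j, ∀ p : ℕ, p.Prime → |w p j - 1 / p| ≤ 2 / (p : ℝ) ^ 2) →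
      |(LL X * BE E) ^ J * sieveSum J F G (LL X) (fun _ => E) w (RR X) - ∏ j, DD (F j) (G j)| ≤ ε := by
  have h5 : SieveAsymp := sieve_asymp
  obtain ⟨δ, hδ, h⟩ := h5 J F G hF hG hFc hGc ε hε
  obtain ⟨c, hc, hset⟩ := setfacts2
  have e1 := LL_tendsto.eventually_ge_atTop (1 / δ)
  have e2 := LL_tendsto.eventually_ge_atTop 2
  have e3 := z2_tendsto.eventually_ge_atTop ⌈1 / δ⌉₊
  filter_upwards [e1, e2, e3, hset Cd hCd] with X h1 h2 h3 h4
  intro E w hE hcard hsm hw
  have hf := h4 E hE hcard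
  have k3 : ∏ j : Fin J, (LL X * BE E) = (LL X * BE E) ^ J := by
    rw [Finset.prod_const, Finset.card_univ, Fintype.card_fin]
  rw [← k3]
  apply h (LL X) (fun _ => E) w (RR X) h1
  · intro j x hx
    have h6 : 1 / 2 < x := by
      refine lt_of_le_of_lt ?_ hx
      rw [le_div_iff₀ (by linarith)]
      have := RR_ge (LL X) h2
      unfold RR
      linarith
    exact ⟨hF0 j x h6, hG0 j x h6⟩
  · intro j p hp
    exact hE p hp
  · intro j p hp hpl
    apply hsm p hp
    have : p ≤ ⌈1 / δ⌉₊ := by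
      have := hpl.trans (Nat.le_ceil (1 / δ))
      exact_mod_cast this
    exact this.trans h3
  · intro j; exact hf.1
  · intro j; exact hf.2.1
  · intro j p hp _
    exact hw j p hp

/-- the primes removed from the sieve -/
noncomputable def EM (X : ℝ) (S T V : Finset ℕ) : Finset ℕ := PW X (S ∪ T) 1 ∪ T ∪ V

theorem mem_EM {X : ℝ} {S T V : Finset ℕ} {p : ℕ} : p ∈ EM X S T V ↔ p ∈ PW X (S ∪ T) 1 ∨ p ∈ T ∨ p ∈ V := by
  unfold EM
  rw [mem_union, mem_union, or_assoc]

/-- the side conditions on the exceptional primes and the further primes -/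
structure GoodTV (X : ℝ) (K : ℕ) (Cd : ℝ) (T V : Finset ℕ) : Prop where
  Tp : ∀ p ∈ T, p.Prime
  Tc : #T ≤ K
  Tl : ∀ p ∈ T, K ≤ p
  Vp : ∀ p ∈ V, p.Prime
  Vs : ∑ p ∈ V, Real.log p ≤ Cd * Real.log X

theorem EM_prime {X : ℝ} {S T V : Finset ℕ} {K : ℕ} {Cd : ℝ} (h : GoodTV X K Cd T V) {p : ℕ}
    (hp : p ∈ EM X S T V) : p.Prime := by
  rw [mem_EM, mem_PW] at hp
  rcases hp with hp | hp | hp
  · exact hp.2.1
  · exact h.Tp p hp
  · exact h.Vp p hp

theorem EM_small {X : ℝ} {S T V : Finset ℕ} (hS : GoodS X S) (h : z2 X ≤ yy X) {p : ℕ}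
    (hp : p.Prime) (hpl : p ≤ z2 X) : p ∈ EM X S T V := by
  rw [mem_EM, mem_PW]
  by_cases hT : p ∈ T
  · exact Or.inr (Or.inl hT)
  · left
    refine ⟨hpl.trans h, hp, ?_, hp.one_lt.ne'⟩
    rw [mem_union, not_or]
    refine ⟨fun h2 => ?_, hT⟩
    have := (hS.1 p h2).2.1
    omega

theorem EM_card (K : ℕ) (Cd : ℝ) (hCd : 0 ≤ Cd) : ∀ᶠ X : ℝ in atTop, ∀ S T V : Finset ℕ, GoodTV X K Cd T V →
    (#((EM X S T V).filter (fun p => ⌊(2 * Real.log X) ^ 3⌋₊ < p)) : ℝ) ≤ (K + 2 * Cd) * Real.log X := by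
  filter_upwards [EE_facts 0, Real.tendsto_log_atTop.eventually_ge_atTop 1] with X h1 h2
  intro S T V h
  have hsub : (EM X S T V).filter (fun p => ⌊(2 * Real.log X) ^ 3⌋₊ < p) ⊆ T ∪ V := by
    intro p hp
    rw [mem_filter, mem_EM, mem_PW] at hp
    rw [mem_union]
    rcases hp.1 with h3 | h3 | h3
    · exfalso
      have := h1.2.2
      omega
    · exact Or.inl h3
    · exact Or.inr h3
  have h3 : (#((EM X S T V).filter (fun p => ⌊(2 * Real.log X) ^ 3⌋₊ < p)) : ℝ) ≤ #T + #V := by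
    exact_mod_cast (card_le_card hsub).trans (card_union_le T V)
  have h4 : (#T : ℝ) ≤ K := by exact_mod_cast h.Tc
  have h5 : (#V : ℝ) * (1 / 2) ≤ Cd * Real.log X := by
    refine le_trans ?_ h.Vs
    rw [← nsmul_eq_mul]
    apply card_nsmul_le_sum
    intro p hp
    have h6 : (2 : ℝ) ≤ p := by exact_mod_cast (h.Vp p hp).two_le
    have h7 := Real.log_le_log (by norm_num) h6
    have := Real.log_two_gt_d9
    linarith
  have hK : (0 : ℝ) ≤ K := Nat.cast_nonneg K
  nlinarith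

theorem BE_EM_ge (K : ℕ) (Cd : ℝ) (hCd : 0 ≤ Cd) : ∀ᶠ X : ℝ in atTop, ∀ S T V : Finset ℕ, GoodS X S →
    GoodTV X K Cd T V → Real.exp (-7) * BE (PW X (S ∪ T) 1) ≤ BE (EM X S T V) := by
  have hlog := Real.tendsto_log_atTop
  filter_upwards [hlog.eventually_ge_atTop (4000000 : ℝ), (hlog.comp hlog).eventually_ge_atTop (6 : ℝ),
    (hlog.comp (hlog.atTop_div_const (by norm_num : (0 : ℝ) < 2000))).eventually_ge_atTop (2000 * Cd + 1 : ℝ)]
    with X h1 h2 h3
  simp only [Function.comp] at h2 h3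
  intro S T V hS h
  set L := Real.log X with hL
  have hyy : L / 2000 ≤ yy X := by
    unfold yy
    have := Nat.lt_floor_add_one (L / 1000)
    rw [← hL]
    linarith
  set P := PW X (S ∪ T) 1 with hP
  set U := EM X S T V \ P with hU
  have hPE : P ⊆ EM X S T V := by
    intro p hp
    rw [mem_EM]
    exact Or.inl hp
  have hsplit : BE (EM X S T V) = BE U * BE P := by
    unfold BE
    rw [hU, Finset.prod_sdiff hPE]
  have hUp : ∀ p ∈ U, p.Prime := fun p hp => EM_prime h (mem_sdiff.1 hp).1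
  have hUs : U ⊆ (S ∪ T) ∪ V.filter (fun p => yy X < p) := by
    intro p hp
    rw [hU, Finset.mem_sdiff, mem_EM] at hp
    rw [mem_union, mem_filter]
    by_cases hST : p ∈ S ∪ T
    · exact Or.inl hST
    · right
      rcases hp.1 with h4 | h4 | h4
      · exact absurd h4 hp.2
      · exact absurd (mem_union_right S h4) hST
      · refine ⟨h4, ?_⟩
        by_contra hle
        apply hp.2
        rw [hP, mem_PW]
        exact ⟨by omega, h.Vp p h4, hST, (h.Vp p h4).one_lt.ne'⟩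
  have hsum : ∑ p ∈ U, (1 : ℝ) / p ≤ 3 := by
    refine (sum_le_sum_of_subset_of_nonneg hUs (fun _ _ _ => by positivity)).trans ?_
    have hun : ∀ A B : Finset ℕ, ∑ p ∈ A ∪ B, (1 : ℝ) / p ≤ ∑ p ∈ A, (1 : ℝ) / p + ∑ p ∈ B, (1 : ℝ) / p := by
      intro A B
      have h5 := Finset.sum_union_inter (s₁ := A) (s₂ := B) (f := fun p : ℕ => (1 : ℝ) / p)
      have h6 : 0 ≤ ∑ p ∈ A ∩ B, (1 : ℝ) / p := sum_nonneg fun _ _ => by positivity
      linarith
    have h5 := hun (S ∪ T) (V.filter (fun p => yy X < p))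
    have h6 := hun S T
    have h7 : ∑ p ∈ S, (1 : ℝ) / p ≤ 1 := by
      refine hS.2.trans ?_
      rw [← hL, div_le_one (by positivity)]
      nlinarith
    have h8 : ∑ p ∈ T, (1 : ℝ) / p ≤ 1 := by
      rcases Nat.eq_zero_or_pos K with h0 | h0
      · have : T = ∅ := by
          have := h.Tc
          rw [h0] at this
          exact card_eq_zero.1 (by omega)
        rw [this, sum_empty]; norm_num
      · have hK : (0 : ℝ) < K := by exact_mod_cast h0
        calc ∑ p ∈ T, (1 : ℝ) / p ≤ ∑ p ∈ T, (1 : ℝ) / K := by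
              apply sum_le_sum
              intro p hp
              apply one_div_le_one_div_of_le hK
              exact_mod_cast h.Tl p hp
          _ = #T * (1 / K) := by rw [sum_const, nsmul_eq_mul]
          _ ≤ K * (1 / K) := by
              have : (#T : ℝ) ≤ K := by exact_mod_cast h.Tc
              gcongr
          _ = 1 := by field_simp
    have h9 : ∑ p ∈ V.filter (fun p => yy X < p), (1 : ℝ) / p ≤ 1 := by
      have hyp : 0 < L / 2000 := by linarith
      have hlp : 0 < Real.log (L / 2000) := by linarith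
      have h10 : ∀ p ∈ V.filter (fun p => yy X < p), (1 : ℝ) / p ≤ (1 / (L / 2000 * Real.log (L / 2000))) * Real.log p := by
        intro p hp
        rw [mem_filter] at hp
        have hp1 : L / 2000 ≤ p := by
          have : (yy X : ℝ) ≤ p := by exact_mod_cast hp.2.le
          linarith
        have hp2 := Real.log_le_log hyp hp1
        have hp0 : (0 : ℝ) < p := by linarith
        rw [one_div_mul_eq_div, div_le_div_iff₀ hp0 (by positivity), one_mul, mul_comm (Real.log p)]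
        exact mul_le_mul hp1 hp2 hlp.le hp0.le
      refine (sum_le_sum h10).trans ?_
      rw [← mul_sum]
      have h11 : ∑ p ∈ V.filter (fun p => yy X < p), Real.log p ≤ Cd * L := by
        refine le_trans (sum_le_sum_of_subset_of_nonneg (filter_subset _ _) ?_) h.Vs
        intro p _ _
        exact Real.log_natCast_nonneg p
      calc (1 / (L / 2000 * Real.log (L / 2000))) * ∑ p ∈ V.filter (fun p => yy X < p), Real.log p ≤
          (1 / (L / 2000 * Real.log (L / 2000))) * (Cd * L) :=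
            mul_le_mul_of_nonneg_left h11 (by positivity)
        _ = 2000 * Cd / Real.log (L / 2000) := by
            have : L ≠ 0 := by linarith
            field_simp
        _ ≤ 1 := by
            rw [div_le_one hlp]
            linarith
    linarith
  rw [hsplit]
  apply mul_le_mul_of_nonneg_right _ (BE_pos fun p hp => (mem_PW.1 hp).2.1).le
  refine le_trans ?_ (BE_ge hUp)
  apply Real.exp_le_exp.2
  linarith

end Pool.Agent.H262R2.UM
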