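import Mathlib
import Pool.Agent.H262R2.UM.Eset

open Finset Filter
open scoped ContDiff

/-! The first sum of the sieve. -/

namespace Pool.Agent.H262R2.UM

open Pool.Agent.H378R2

/-- indicator of the residue class -/
noncomputable def cl (W a n : ℕ) : ℝ := if n ≡ a [MOD W] then 1 else 0

theorem cl_nonneg (W a n : ℕ) : 0 ≤ cl W a n := by
  unfold cl
  split_ifs <;> norm_num

/-- the conditions on the coprimality set -/
structure GoodE (X : ℝ) (Cd : ℝ) (E : Finset ℕ) : Prop where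
  pr : ∀ p ∈ E, p.Prime
  cd : (#(E.filter (fun p => ⌊(2 * Real.log X) ^ 3⌋₊ < p)) : ℝ) ≤ Cd * Real.log X
  sm : ∀ p : ℕ, p.Prime → p ≤ z2 X → p ∈ E

/-- the sieved primes see pairwise independent forms -/
structure GoodF {K : ℕ} (E : Finset ℕ) (a b : Fin K → ℕ) : Prop where
  ha : ∀ j, ∀ p : ℕ, p.Prime → p ∉ E → ¬ p ∣ a j
  hr : ∀ i j, i ≠ j → ∀ p : ℕ, p.Prime → p ∉ E → ¬ (p : ℤ) ∣ (a i : ℤ) * b j - a j * b i

theorem S1m {K B : ℕ} (f : Fin B → ℝ → ℝ) (c : Fin B → ℝ) (A : Finset (Fin K → Fin B))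
    (hsm : ∀ l, ContDiff ℝ ∞ (f l)) (hcs : ∀ l, HasCompactSupport (f l)) (hf0 : ∀ l x, c l < x → f l x = 0)
    (hc : ∀ l, 0 ≤ c l ∧ c l ≤ 1 / 2) (hA : ∀ a ∈ A, ∑ j, c (a j) ≤ 1) (hf1 : ∀ l x, |f l x| ≤ 1)
    (Cd : ℝ) (hCd : 0 ≤ Cd) (ε1 : ℝ) (hε1 : 0 < ε1) :
    ∀ᶠ X : ℝ in atTop, ∀ (E : Finset ℕ) (W a0 N : ℕ) (a b : Fin K → ℕ), GoodE X Cd E → GoodF E a b →
      0 < W → (∀ p : ℕ, p.Prime → p ∉ E → ¬ p ∣ W) →
      ∑ n ∈ Icc 1 N, cl W a0 n * sqw E X f A (fun j => (a j : ℤ) * n + b j) ^ 2 ≤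
        ((N : ℝ) * (1 / (W : ℝ))) * (1 / (LL X * BE E) ^ K) * (II f A + ε1) +
          (A.card : ℝ) ^ 2 * Real.exp (2 * LL X) := by
  classical
  have hev : ∀ᶠ X : ℝ in atTop, ∀ a ∈ A, ∀ b ∈ A, ∀ (E : Finset ℕ) (w : ℕ → Fin K → ℝ),
      (∀ p ∈ E, p.Prime) → (#(E.filter (fun p => ⌊(2 * Real.log X) ^ 3⌋₊ < p)) : ℝ) ≤ Cd * Real.log X →
      (∀ p : ℕ, p.Prime → p ≤ z2 X → p ∈ E) →
      (∀ j, ∀ p : ℕ, p.Prime → |w p j - 1 / p| ≤ 2 / (p : ℝ) ^ 2) →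
      |(LL X * BE E) ^ K * sieveSum K (fun j => f (a j)) (fun j => f (b j)) (LL X) (fun _ => E) w (RR X) -
        ∏ j, DD (f (a j)) (f (b j))| ≤ ε1 / ((A.card : ℝ) ^ 2 + 1) := by
    rw [Filter.eventually_all_finset]
    intro a _
    rw [Filter.eventually_all_finset]
    intro b _
    exact asympE K (fun j => f (a j)) (fun j => f (b j)) (fun j => hsm _) (fun j => hsm _)
      (fun j => hcs _) (fun j => hcs _) (fun j x hx => hf0 _ x ((hc _).2.trans_lt hx))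
      (fun j x hx => hf0 _ x ((hc _).2.trans_lt hx)) Cd hCd _ (by positivity)
  filter_upwards [hev, LL_tendsto.eventually_ge_atTop 1] with X h1 h6
  intro E W a0 N ca cb hGE hGF hWpos hEW
  have hWr : (0 : ℝ) < W := by exact_mod_cast hWpos
  have hBE : 0 < BE E := BE_pos hGE.pr
  have hLB : 0 < LL X * BE E := by positivity
  have hMnn : (0 : ℝ) ≤ N := Nat.cast_nonneg _
  have hone : ∀ a ∈ A, ∀ b ∈ A, ∑ n ∈ Icc 1 N, cl W a0 n *
      ∏ j, (VVm E (RR X) (LL X) (f (a j)) ((ca j : ℤ) * n + cb j) *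
        VVm E (RR X) (LL X) (f (b j)) ((ca j : ℤ) * n + cb j)) ≤
      ((N : ℝ) * (1 / (W : ℝ))) * (1 / (LL X * BE E) ^ K) *
        (∏ j, DD (f (a j)) (f (b j)) + ε1 / ((A.card : ℝ) ^ 2 + 1)) + Real.exp (2 * LL X) := by
    intro a ha b hb
    have hsum : ∑ j, c (a j) + ∑ j, c (b j) ≤ 2 := by
      have := hA a ha
      have := hA b hb
      linarith
    have k1 := sum1c N W a0 hWpos (fun j => f (a j)) (fun j => f (b j)) (LL X) 1 (by linarith) zero_le_one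
      (fun j => c (a j)) (fun j => c (b j)) (fun j x => hf1 _ x) (fun j x => hf1 _ x)
      (fun j x hx => hf0 _ x hx) (fun j x hx => hf0 _ x hx) (fun _ => E) (RR X) ca
      (fun j => (cb j : ℤ)) (fun _ => hEW) (fun j => hGF.ha j)
      (by
        intro i j hij p hp hpE _ n hh
        apply hGF.hr i j hij p hp hpE
        have h7 := dvd_sub (hh.2.mul_left (ca i : ℤ)) (hh.1.mul_left (ca j : ℤ))
        have h8 : (ca i : ℤ) * (ca j * n + cb j) - ca j * (ca i * n + cb i) = ca i * cb j - ca j * cb i := by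
          ring
        rwa [h8] at h7)
    have k2 := h1 a ha b hb E (fun p _ => 1 / (p : ℝ)) hGE.pr hGE.cd hGE.sm (fun _ p _ => w_one p)
    have k4 := (abs_le.1 k1).2
    have k5 := (abs_le.1 k2).2
    set SS := sieveSum K (fun j => f (a j)) (fun j => f (b j)) (LL X) (fun _ => E) (fun p _ => 1 / (p : ℝ)) (RR X)
    have k6 : SS ≤ (1 / (LL X * BE E) ^ K) * (∏ j, DD (f (a j)) (f (b j)) + ε1 / ((A.card : ℝ) ^ 2 + 1)) := by
      rw [one_div, ← div_eq_inv_mul, le_div_iff₀ (by positivity)]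
      linarith
    have k7 : (N : ℝ) * (1 / (W : ℝ)) * SS ≤ ((N : ℝ) * (1 / (W : ℝ))) * ((1 / (LL X * BE E) ^ K) *
        (∏ j, DD (f (a j)) (f (b j)) + ε1 / ((A.card : ℝ) ^ 2 + 1))) :=
      mul_le_mul_of_nonneg_left k6 (by positivity)
    have k8 : (1 : ℝ) ^ (2 * K) * Real.exp (LL X * (∑ j, c (a j) + ∑ j, c (b j))) ≤ Real.exp (2 * LL X) := by
      rw [one_pow, one_mul]
      apply Real.exp_le_exp.2
      nlinarith
    unfold cl
    linarith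
  simp_rw [sqw_sq, Finset.mul_sum]
  rw [Finset.sum_comm]
  have hswap : ∀ a ∈ A, ∑ n ∈ Icc 1 N, ∑ b ∈ A, cl W a0 n *
      ∏ j, (VVm E (RR X) (LL X) (f (a j)) ((ca j : ℤ) * n + cb j) *
        VVm E (RR X) (LL X) (f (b j)) ((ca j : ℤ) * n + cb j)) ≤
      ∑ b ∈ A, (((N : ℝ) * (1 / (W : ℝ))) * (1 / (LL X * BE E) ^ K) *
        (∏ j, DD (f (a j)) (f (b j)) + ε1 / ((A.card : ℝ) ^ 2 + 1)) + Real.exp (2 * LL X)) := by
    intro a ha
    rw [Finset.sum_comm]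
    exact Finset.sum_le_sum fun b hb => hone a ha b hb
  refine (Finset.sum_le_sum hswap).trans ?_
  simp_rw [Finset.sum_add_distrib, ← Finset.mul_sum, Finset.sum_add_distrib, Finset.sum_const, nsmul_eq_mul]
  have hfin : ((A.card : ℝ) * ((A.card : ℝ) * (ε1 / ((A.card : ℝ) ^ 2 + 1)))) ≤ ε1 := by
    have : (A.card : ℝ) * ((A.card : ℝ) * (ε1 / ((A.card : ℝ) ^ 2 + 1))) =
        ((A.card : ℝ) ^ 2 / ((A.card : ℝ) ^ 2 + 1)) * ε1 := by ring
    rw [this]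
    have h7 : (A.card : ℝ) ^ 2 / ((A.card : ℝ) ^ 2 + 1) ≤ 1 := by
      rw [div_le_one (by positivity)]; linarith
    nlinarith
  have hcoef : 0 ≤ ((N : ℝ) * (1 / (W : ℝ))) * (1 / (LL X * BE E) ^ K) := by positivity
  have : ((N : ℝ) * (1 / (W : ℝ))) * (1 / (LL X * BE E) ^ K) *
      (∑ a ∈ A, ∑ b ∈ A, ∏ j, DD (f (a j)) (f (b j)) +
        (A.card : ℝ) * ((A.card : ℝ) * (ε1 / ((A.card : ℝ) ^ 2 + 1)))) ≤
      ((N : ℝ) * (1 / (W : ℝ))) * (1 / (LL X * BE E) ^ K) * (II f A + ε1) := by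
    apply mul_le_mul_of_nonneg_left _ hcoef
    unfold II
    linarith
  calc _ = ((N : ℝ) * (1 / (W : ℝ))) * (1 / (LL X * BE E) ^ K) *
      (∑ a ∈ A, ∑ b ∈ A, ∏ j, DD (f (a j)) (f (b j)) +
        (A.card : ℝ) * ((A.card : ℝ) * (ε1 / ((A.card : ℝ) ^ 2 + 1)))) +
          (A.card : ℝ) ^ 2 * Real.exp (2 * LL X) := by ring
    _ ≤ _ := by linarith

end Pool.Agent.H262R2.UM
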