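import Mathlib
import Pool.Agent.H262R2.UM.S1

open Finset Filter
open scoped ContDiff

/-! The second sums of the sieve. -/

namespace Pool.Agent.H262R2.UM

open Pool.Agent.H378R2

/-- the error term from Bombieri-Vinogradov -/
noncomputable def BVm (K0 : ℕ) (X Y : ℝ) (Q P : ℕ) (Bc : ℕ → ℕ) : ℝ :=
  ∑ q ∈ (Icc 1 ⌊X ^ (1 / 100 : ℝ)⌋₊).filter (fun q => Squarefree q ∧ q.Coprime P),
    (q.divisors.card : ℝ) ^ (2 * K0) * |EPhi Y (Q * q) (Bc q)|

/-- the product of the remaining forms, as a function of the prime `a i * n + b i` -/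
noncomputable def PRm {K0 B : ℕ} (E : Finset ℕ) (X : ℝ) (f : Fin B → ℝ → ℝ) (u v : Fin (K0 + 1) → Fin B)
    (i : Fin (K0 + 1)) (a b : Fin (K0 + 1) → ℕ) (n : ℕ) : ℝ :=
  ∏ j : Fin K0, (VVm E (RR X) (LL X) (f (u (i.succAbove j)))
      ((a (i.succAbove j) : ℤ) * n + ((a i : ℤ) * b (i.succAbove j) - a (i.succAbove j) * b i)) *
    VVm E (RR X) (LL X) (f (v (i.succAbove j)))
      ((a (i.succAbove j) : ℤ) * n + ((a i : ℤ) * b (i.succAbove j) - a (i.succAbove j) * b i)))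

/-- the weight as a function of the prime -/
noncomputable def Gm {K0 B : ℕ} (E : Finset ℕ) (X : ℝ) (f : Fin B → ℝ → ℝ) (A : Finset (Fin (K0 + 1) → Fin B))
    (i : Fin (K0 + 1)) (a b : Fin (K0 + 1) → ℕ) (n : ℕ) : ℝ :=
  ∑ u ∈ A, ∑ v ∈ A, f (u i) 0 * f (v i) 0 * PRm E X f u v i a b n

theorem Gm_nonneg {K0 B : ℕ} (E : Finset ℕ) (X : ℝ) (f : Fin B → ℝ → ℝ) (A : Finset (Fin (K0 + 1) → Fin B))
    (i : Fin (K0 + 1)) (a b : Fin (K0 + 1) → ℕ) (n : ℕ) : 0 ≤ Gm E X f A i a b n := by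
  have : Gm E X f A i a b n = (∑ u ∈ A, f (u i) 0 * ∏ j : Fin K0, VVm E (RR X) (LL X) (f (u (i.succAbove j)))
      ((a (i.succAbove j) : ℤ) * n + ((a i : ℤ) * b (i.succAbove j) - a (i.succAbove j) * b i))) ^ 2 := by
    unfold Gm PRm
    rw [sq, Finset.sum_mul_sum]
    refine Finset.sum_congr rfl fun u _ => Finset.sum_congr rfl fun v _ => ?_
    rw [Finset.prod_mul_distrib]
    ring
  rw [this]
  positivity

theorem VV_mul {E : Finset ℕ} {c : ℕ} (hc : ∀ p : ℕ, p.Prime → p ∉ E → ¬ p ∣ c) (R : ℕ) (L : ℝ) (F : ℝ → ℝ) (x : ℤ) :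
    VVm E R L F ((c : ℤ) * x) = VVm E R L F x := by
  unfold VVm
  refine Finset.sum_congr rfl fun d hd => ?_
  have hcop : d.Coprime c := by
    by_contra hcop
    obtain ⟨p, hp, hpi, hpj⟩ := Nat.Prime.not_coprime_iff_dvd.1 hcop
    refine hc p hp (fun hpE => ?_) hpj
    exact (mem_adm.1 hd).2.2 p hpE hp hpi
  have hiff : (d : ℤ) ∣ (c : ℤ) * x ↔ (d : ℤ) ∣ x := by
    constructor
    · intro h
      exact (Nat.isCoprime_iff_coprime.2 hcop).dvd_of_dvd_mul_left h
    · intro h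
      exact h.mul_left _
  simp only [hiff]

theorem sqw_at_prime_m {K0 B : ℕ} (E : Finset ℕ) (X : ℝ) (f : Fin B → ℝ → ℝ) (A : Finset (Fin (K0 + 1) → Fin B))
    (i : Fin (K0 + 1)) (a b : Fin (K0 + 1) → ℕ) (hE : ∀ p : ℕ, p.Prime → p ∉ E → ¬ p ∣ a i)
    (n : ℕ) (hR : 1 ≤ RR X) (hp : (a i * n + b i).Prime) (hRp : RR X < a i * n + b i) :
    sqw E X f A (fun j => (a j : ℤ) * n + b j) ^ 2 = Gm E X f A i a b (a i * n + b i) := by
  rw [sqw_sq]
  unfold Gm
  refine Finset.sum_congr rfl fun u _ => Finset.sum_congr rfl fun v _ => ?_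
  rw [Fin.prod_univ_succAbove _ i]
  have h1 : ∀ l, VVm E (RR X) (LL X) (f l) ((a i : ℤ) * n + b i) = f l 0 := by
    intro l
    have := VV_prime E (RR X) hR (LL X) (f l) (a i * n + b i) hp hRp
    push_cast at this
    exact this
  rw [h1, h1]
  congr 1
  unfold PRm
  refine Finset.prod_congr rfl fun j _ => ?_
  have h2 : (a (i.succAbove j) : ℤ) * ((a i * n + b i : ℕ) : ℤ) + ((a i : ℤ) * b (i.succAbove j) - a (i.succAbove j) * b i) =
      (a i : ℤ) * ((a (i.succAbove j) : ℤ) * n + b (i.succAbove j)) := by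
    push_cast; ring
  rw [h2, VV_mul hE, VV_mul hE]

theorem S2_pair_m {K0 B : ℕ} (f : Fin B → ℝ → ℝ) (c : Fin B → ℝ)
    (hsm : ∀ l, ContDiff ℝ ∞ (f l)) (hcs : ∀ l, HasCompactSupport (f l)) (hf0 : ∀ l x, c l < x → f l x = 0)
    (hc : ∀ l, 0 ≤ c l ∧ c l ≤ 1 / 2) (hf1 : ∀ l x, |f l x| ≤ 1) (Cd : ℝ) (hCd : 0 ≤ Cd)
    (ε1 : ℝ) (hε1 : 0 < ε1) (u v : Fin (K0 + 1) → Fin B) (i : Fin (K0 + 1))
    (hu : ∑ j, c (u j) ≤ 1) (hv : ∑ j, c (v j) ≤ 1) :
    ∀ᶠ X : ℝ in atTop, ∀ (Y : ℝ) (E : Finset ℕ) (Q P r : ℕ) (a b : Fin (K0 + 1) → ℕ), 1 ≤ Y → GoodE X Cd E →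
      GoodF E a b → 0 < Q → (∀ p : ℕ, p.Prime → p ∉ E → ¬ p ∣ Q) → (∀ p : ℕ, p.Prime → p ∉ E → ¬ p ∣ P) →
      r.Coprime Q →
      ∀ Bc : ℕ → ℕ, (∀ q, 1 ≤ q → ∀ b' : ℕ, b'.Coprime (Q * q) →
        |EPhi Y (Q * q) b'| ≤ |EPhi Y (Q * q) (Bc q)|) →
      |∑ n ∈ Icc 1 ⌊3 * Y⌋₊, (if n ≡ r [MOD Q] then Phi (n / Y) * ArithmeticFunction.vonMangoldt n else 0) *
          PRm E X f u v i a b n -
        (LPhi Y * (1 / (Q.totient : ℝ))) * (1 / (LL X * BE E) ^ K0) *
          ∏ j : Fin K0, DD (f (u (i.succAbove j))) (f (v (i.succAbove j)))| ≤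
      (LPhi Y * (1 / (Q.totient : ℝ))) * (1 / (LL X * BE E) ^ K0) * ε1 + BVm K0 X Y Q P Bc := by
  classical
  have hev := asympE K0 (fun j => f (u (i.succAbove j))) (fun j => f (v (i.succAbove j))) (fun j => hsm _) (fun j => hsm _)
      (fun j => hcs _) (fun j => hcs _) (fun j x hx => hf0 _ x ((hc _).2.trans_lt hx))
      (fun j x hx => hf0 _ x ((hc _).2.trans_lt hx)) Cd hCd ε1 hε1
  filter_upwards [hev, eventually_ge_atTop 4, LL_tendsto.eventually_ge_atTop 1] with X h1 h4 h6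
  intro Y E Q P r a b hY hGE hGF hQ hEQ hEP hcop Bc hBc
  have hBE : 0 < BE E := BE_pos hGE.pr
  have hLB : 0 < LL X * BE E := by positivity
  have hsum : ∑ j : Fin K0, c (u (i.succAbove j)) + ∑ j : Fin K0, c (v (i.succAbove j)) ≤ 2 := by
    have := sum_succAbove_le c (fun l => (hc l).1) u i
    have := sum_succAbove_le c (fun l => (hc l).1) v i
    linarith
  -- sieve
  have s2 := sum2c Y Q P r hQ hcop (fun j => f (u (i.succAbove j))) (fun j => f (v (i.succAbove j)))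
    (LL X) 1 (by linarith) zero_le_one (fun j => c (u (i.succAbove j))) (fun j => c (v (i.succAbove j)))
    (fun j x => hf1 _ x) (fun j x => hf1 _ x)
    (fun j x hx => hf0 _ x hx) (fun j x hx => hf0 _ x hx) (fun _ => E) (RR X)
    (fun j => a (i.succAbove j))
    (fun j => (a i : ℤ) * b (i.succAbove j) - a (i.succAbove j) * b i)
    (fun _ => hEQ) (fun _ => hEP) (fun j => hGF.ha _)
    (fun j p hp h => hGF.hr _ _ (Fin.succAbove_ne i j).symm p hp h)
    (by
      intro j k hjk p hp hpE _ n hh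
      have hne : i.succAbove j ≠ i.succAbove k := fun h => hjk (Fin.succAbove_right_injective h)
      have h7 := dvd_sub (hh.2.mul_left (a (i.succAbove j) : ℤ)) (hh.1.mul_left (a (i.succAbove k) : ℤ))
      have h8 : (a (i.succAbove j) : ℤ) * ((a (i.succAbove k) : ℤ) * n +
          ((a i : ℤ) * b (i.succAbove k) - a (i.succAbove k) * b i)) -
          a (i.succAbove k) * ((a (i.succAbove j) : ℤ) * n +
          ((a i : ℤ) * b (i.succAbove j) - a (i.succAbove j) * b i)) =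
          (a i : ℤ) * ((a (i.succAbove j) : ℤ) * b (i.succAbove k) - a (i.succAbove k) * b (i.succAbove j)) := by
        ring
      rw [h8] at h7
      rcases (Nat.prime_iff_prime_int.1 hp).dvd_or_dvd h7 with h9 | h9
      · exact hGF.ha i p hp hpE (Int.natCast_dvd_natCast.1 h9)
      · exact hGF.hr _ _ hne p hp hpE h9)
    Bc hBc
  have s3 : ∑ n ∈ Icc 1 ⌊3 * Y⌋₊, (if n ≡ r [MOD Q] then Phi (n / Y) * ArithmeticFunction.vonMangoldt n else 0) *
      PRm E X f u v i a b n =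
      ∑ n ∈ Icc 1 ⌊3 * Y⌋₊, (if n ≡ r [MOD Q] then Phi (n / Y) * ArithmeticFunction.vonMangoldt n else 0) *
        ∏ j : Fin K0, (VVm E (RR X) (LL X) (f (u (i.succAbove j)))
          ((a (i.succAbove j) : ℤ) * n + ((a i : ℤ) * b (i.succAbove j) - a (i.succAbove j) * b i)) *
        VVm E (RR X) (LL X) (f (v (i.succAbove j)))
          ((a (i.succAbove j) : ℤ) * n + ((a i : ℤ) * b (i.succAbove j) - a (i.succAbove j) * b i))) := rfl
  rw [← s3] at s2
  have s4 : (1 : ℝ) ^ (2 * K0) * ∑ q ∈ (Icc 1 ⌊Real.exp (LL X * (∑ j : Fin K0, c (u (i.succAbove j)) +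
      ∑ j : Fin K0, c (v (i.succAbove j))))⌋₊).filter
      (fun q => Squarefree q ∧ q.Coprime P), (q.divisors.card : ℝ) ^ (2 * K0) * |EPhi Y (Q * q) (Bc q)| ≤
      BVm K0 X Y Q P Bc := by
    rw [one_pow, one_mul]
    unfold BVm
    apply Finset.sum_le_sum_of_subset_of_nonneg
    · apply Finset.filter_subset_filter
      apply Finset.Icc_subset_Icc le_rfl
      apply Nat.floor_le_floor
      rw [← exp_two_LL X (by linarith)]
      apply Real.exp_le_exp.2
      nlinarith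
    · intro q _ _
      positivity
  -- asymptotics
  have s5 := h1 E (fun p _ => 1 / ((p : ℝ) - 1)) hGE.pr hGE.cd hGE.sm (fun _ p hp => w_two hp)
  set SS := sieveSum K0 (fun j => f (u (i.succAbove j))) (fun j => f (v (i.succAbove j))) (LL X) (fun _ => E)
    (fun p _ => 1 / ((p : ℝ) - 1)) (RR X)
  set D := ∏ j : Fin K0, DD (f (u (i.succAbove j))) (f (v (i.succAbove j))) with hD
  have hLP : 0 ≤ LPhi Y * (1 / (Q.totient : ℝ)) := by
    apply mul_nonneg
    · unfold LPhi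
      exact Finset.sum_nonneg fun n _ => mul_nonneg (Phi_nonneg _) ArithmeticFunction.vonMangoldt_nonneg
    · positivity
  have s6 : |(LPhi Y * (1 / (Q.totient : ℝ))) * SS -
      (LPhi Y * (1 / (Q.totient : ℝ))) * (1 / (LL X * BE E) ^ K0) * D| ≤
      (LPhi Y * (1 / (Q.totient : ℝ))) * (1 / (LL X * BE E) ^ K0) * ε1 := by
    have : (LPhi Y * (1 / (Q.totient : ℝ))) * SS -
      (LPhi Y * (1 / (Q.totient : ℝ))) * (1 / (LL X * BE E) ^ K0) * D =
      (LPhi Y * (1 / (Q.totient : ℝ))) * (1 / (LL X * BE E) ^ K0) * ((LL X * BE E) ^ K0 * SS - D) := by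
      field_simp
    rw [this, abs_mul, abs_of_nonneg (by positivity)]
    exact mul_le_mul_of_nonneg_left s5 (by positivity)
  have s9 := abs_le.1 s2
  have s10 := abs_le.1 s6
  rw [abs_le]
  constructor <;> linarith [s9.1, s9.2, s10.1, s10.2, s4]

theorem PRm_abs {K0 B : ℕ} (E : Finset ℕ) (X : ℝ) (hL : 0 < LL X) (f : Fin B → ℝ → ℝ) (c : Fin B → ℝ)
    (hf0 : ∀ l x, c l < x → f l x = 0) (hc : ∀ l, 0 ≤ c l ∧ c l ≤ 1 / 2) (hf1 : ∀ l x, |f l x| ≤ 1)
    (u v : Fin (K0 + 1) → Fin B) (i : Fin (K0 + 1)) (hu : ∑ j, c (u j) ≤ 1) (hv : ∑ j, c (v j) ≤ 1)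
    (a b : Fin (K0 + 1) → ℕ) (n : ℕ) : |PRm E X f u v i a b n| ≤ Real.exp (2 * LL X) := by
  unfold PRm
  apply prod_VV_le E (RR X) (LL X) hL f c hf0 hf1 (fun j => u (i.succAbove j))
          (fun j => v (i.succAbove j)) _ _
  have := sum_succAbove_le c (fun l => (hc l).1) u i
  have := sum_succAbove_le c (fun l => (hc l).1) v i
  linarith

/-- replacing the von Mangoldt function by the primes -/
theorem th_bound (Y : ℝ) (hY : 1 ≤ Y) (Q r : ℕ) (P : ℕ → ℝ) (M : ℝ) (hM : ∀ n, |P n| ≤ M) :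
    ∑ n ∈ Icc 1 ⌊3 * Y⌋₊, (if n ≡ r [MOD Q] then Phi (n / Y) * ArithmeticFunction.vonMangoldt n else 0) * P n -
      M * (2 * Real.sqrt (3 * Y) * Real.log (3 * Y)) ≤
    ∑ n ∈ Icc 1 ⌊3 * Y⌋₊, (if n ≡ r [MOD Q] then Phi (n / Y) * th n else 0) * P n := by
  have hM0 : 0 ≤ M := (abs_nonneg _).trans (hM 0)
  have h1 := sum_nonprime_le (3 * Y) (by linarith)
  have h2 : ∑ n ∈ Icc 1 ⌊3 * Y⌋₊, (if n ≡ r [MOD Q] then Phi (n / Y) * ArithmeticFunction.vonMangoldt n else 0) * P n -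
      ∑ n ∈ Icc 1 ⌊3 * Y⌋₊, (if n ≡ r [MOD Q] then Phi (n / Y) * th n else 0) * P n ≤
      M * ∑ n ∈ (Icc 1 ⌊3 * Y⌋₊).filter (fun n => ¬ n.Prime), ArithmeticFunction.vonMangoldt n := by
    rw [← sum_sub_distrib, mul_sum, sum_filter]
    apply sum_le_sum
    intro n _
    by_cases hp : n.Prime
    · rw [if_neg (not_not.2 hp)]
      have : th n = ArithmeticFunction.vonMangoldt n := by
        unfold th
        rw [if_pos hp, ArithmeticFunction.vonMangoldt_apply_prime hp]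
      rw [this, sub_self]
    · rw [if_pos hp]
      have : th n = 0 := by
        unfold th
        rw [if_neg hp]
      rw [this, mul_zero, ite_self, zero_mul, sub_zero]
      have hV : 0 ≤ ArithmeticFunction.vonMangoldt n := ArithmeticFunction.vonMangoldt_nonneg
      split_ifs
      · have h3 := hM n
        have h4 := Phi_nonneg (n / Y)
        have h5 := Phi_le_one (n / Y)
        calc Phi (n / Y) * ArithmeticFunction.vonMangoldt n * P n ≤
            Phi (n / Y) * ArithmeticFunction.vonMangoldt n * M := by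
              apply mul_le_mul_of_nonneg_left ((le_abs_self _).trans h3) (by positivity)
          _ ≤ 1 * ArithmeticFunction.vonMangoldt n * M := by gcongr
          _ = _ := by ring
      · rw [zero_mul]
        positivity
  have h3 := mul_le_mul_of_nonneg_left h1 hM0
  linarith

/-- passing from primes to the variable of the form -/
theorem to_form (X Y : ℝ) (hX : 1 ≤ X) (W a0 ai bi : ℕ) (hW : 0 < W) (hb : bi ≤ ai) (ha : 0 < ai)
    (h1 : ai * X ≤ Y) (h2 : Real.exp 1 * Y ≤ 8 * (ai * X)) (g : ℕ → ℝ) (hg : ∀ n, 0 ≤ g n) :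
    ∑ n ∈ Icc 1 ⌊3 * Y⌋₊, (if n ≡ ai * a0 + bi [MOD (ai * W)] then Phi (n / Y) * th n else 0) * g n ≤
    ∑ n ∈ (Icc 1 ⌊8 * X⌋₊).filter (fun n : ℕ => X ≤ ai * n + bi), cl W a0 n * (th (ai * n + bi) * g (ai * n + bi)) := by
  classical
  have hXpos : 0 < X := by linarith
  have har : (1 : ℝ) ≤ ai := by exact_mod_cast ha
  have hY : X ≤ Y := by nlinarith
  have hYpos : 0 < Y := by linarith
  set G : ℕ → ℝ := fun n => (if n ≡ ai * a0 + bi [MOD (ai * W)] then Phi (n / Y) * th n else 0) * g n with hG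
  have hG0 : ∀ n, 0 ≤ G n := by
    intro n
    apply mul_nonneg _ (hg n)
    split_ifs
    · exact mul_nonneg (Phi_nonneg _) (th_nonneg _)
    · exact le_rfl
  set NN := (Icc 1 ⌊8 * X⌋₊).filter (fun n : ℕ => X ≤ ai * n + bi) with hNN
  have hinj : Set.InjOn (fun n => ai * n + bi) (NN : Set ℕ) := by
    intro n _ m _ h
    have : ai * n = ai * m := by simpa using h
    exact Nat.eq_of_mul_eq_mul_left ha this
  have hsub : ∑ n ∈ Icc 1 ⌊3 * Y⌋₊, G n ≤ ∑ n ∈ NN.image (fun n => ai * n + bi), G n := by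
    rw [← sum_filter_ne_zero]
    apply sum_le_sum_of_subset_of_nonneg _ (fun _ _ _ => hG0 _)
    intro p hp
    rw [mem_filter, mem_Icc] at hp
    obtain ⟨⟨hp1, hp2⟩, hne⟩ := hp
    have hmod : p ≡ ai * a0 + bi [MOD (ai * W)] := by
      by_contra hnot
      apply hne
      rw [hG]
      simp only
      rw [if_neg hnot, zero_mul]
    have hPhi : Phi (p / Y) ≠ 0 := by
      intro h0
      apply hne
      rw [hG]
      simp only
      rw [h0, zero_mul, ite_self, zero_mul]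
    have hYp : Y < p := by
      by_contra hle
      push Not at hle
      exact hPhi (Phi_eq_zero_of_le (by positivity) (by rw [div_le_one hYpos]; exact hle))
    have hpY : (p : ℝ) < Real.exp 1 * Y := by
      by_contra hle
      push Not at hle
      exact hPhi (Phi_eq_zero_of_ge (by rw [le_div_iff₀ hYpos]; exact hle))
    -- `p = ai * n + bi`
    have hbp : bi ≤ p := by
      have h3 : (bi : ℝ) ≤ ai := by exact_mod_cast hb
      have h4 : (bi : ℝ) < p := by nlinarith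
      exact_mod_cast h4.le
    have hmodb : p ≡ bi [MOD ai] := by
      have h3 := hmod.of_mul_right W
      have h4 : ai * a0 + bi ≡ bi [MOD ai] := by
        have h5 : ai * a0 ≡ 0 [MOD ai] := (Nat.modEq_zero_iff_dvd).2 (dvd_mul_right _ _)
        simpa using h5.add_right bi
      exact h3.trans h4
    obtain ⟨n, hn⟩ : ai ∣ p - bi := (Nat.modEq_iff_dvd' hbp).1 hmodb.symm
    have hpn : p = ai * n + bi := by omega
    rw [mem_image]
    refine ⟨n, ?_, hpn.symm⟩
    have hprr : (p : ℝ) = ai * n + bi := by rw [hpn]; push_cast; ring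
    rw [hNN, mem_filter, mem_Icc]
    refine ⟨⟨?_, ?_⟩, ?_⟩
    · by_contra h0
      have hn0 : n = 0 := by omega
      rw [hn0] at hprr
      have h3 : (bi : ℝ) ≤ ai := by exact_mod_cast hb
      push_cast at hprr
      nlinarith
    · apply Nat.le_floor
      have h3 : (0 : ℝ) ≤ bi := Nat.cast_nonneg _
      have h4 : (ai : ℝ) * n ≤ ai * (8 * X) := by nlinarith
      exact le_of_mul_le_mul_left h4 (by linarith)
    · rw [← hprr]
      linarith
  refine hsub.trans ?_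
  rw [sum_image hinj]
  apply sum_le_sum
  intro n _
  rw [hG]
  simp only
  have hcl0 := cl_nonneg W a0 n
  have hth0 := th_nonneg (ai * n + bi)
  have hg0 := hg (ai * n + bi)
  split_ifs with hmod
  · have hn : n ≡ a0 [MOD W] := by
      have h3 : ai * n ≡ ai * a0 [MOD (ai * W)] := Nat.ModEq.add_right_cancel' bi hmod
      exact Nat.ModEq.mul_left_cancel' ha.ne' h3
    have hc1 : cl W a0 n = 1 := by
      unfold cl
      rw [if_pos hn]
    rw [hc1, one_mul]
    apply mul_le_mul_of_nonneg_right _ hg0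
    have h5 := Phi_le_one (((ai * n + bi : ℕ) : ℝ) / Y)
    nlinarith
  · rw [zero_mul]
    positivity

end Pool.Agent.H262R2.UM
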