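import Mathlib
import Pool.Agent.H262R2.UM.S2b

open Finset Filter

/-! Residue classes and discriminants for admissible systems. -/

namespace Pool.Agent.H262R2.UM

open Pool.Agent.H378R2

/-- no fixed prime divisor -/
def Adm {K : ℕ} (a b : Fin K → ℕ) : Prop := ∀ p : ℕ, p.Prime → ∃ n : ℕ, ∀ i, ¬ p ∣ a i * n + b i

theorem adm_coprime {K : ℕ} {a b : Fin K → ℕ} (h : Adm a b) (i : Fin K) : (b i).Coprime (a i) := by
  by_contra hc
  obtain ⟨p, hp, hp1, hp2⟩ := Nat.Prime.not_coprime_iff_dvd.1 hc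
  obtain ⟨n, hn⟩ := h p hp
  exact hn i (dvd_add (hp2.mul_right n) hp1)

theorem crt_class {K : ℕ} {a b : Fin K → ℕ} (h : Adm a b) (s : Finset ℕ) (hs : ∀ p ∈ s, p.Prime) :
    ∃ a0 : ℕ, ∀ i, (a i * a0 + b i).Coprime (∏ p ∈ s, p) := by
  classical
  induction s using Finset.induction_on with
  | empty => exact ⟨0, fun i => by simp⟩
  | insert p s hp ih =>
    obtain ⟨a0, ha0⟩ := ih (fun q hq => hs q (mem_insert_of_mem hq))
    have hpp := hs p (mem_insert_self p s)
    obtain ⟨n, hn⟩ := h p hpp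
    have hcop : Nat.Coprime (∏ q ∈ s, q) p := by
      apply Nat.Coprime.prod_left
      intro q hq
      have hqp := hs q (mem_insert_of_mem hq)
      exact (Nat.coprime_primes hqp hpp).2 (fun h => hp (h ▸ hq))
    obtain ⟨a1, h1, h2⟩ := Nat.chineseRemainder hcop a0 n
    refine ⟨a1, fun i => ?_⟩
    rw [prod_insert hp]
    apply Nat.Coprime.mul_right
    · rw [Nat.coprime_comm, Nat.Prime.coprime_iff_not_dvd hpp]
      intro hd
      apply hn i
      have h3 : a i * a1 + b i ≡ a i * n + b i [MOD p] := (h2.mul_left (a i)).add_right (b i)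
      exact (Nat.modEq_zero_iff_dvd.1 (h3.symm.trans (Nat.modEq_zero_iff_dvd.2 hd)))
    · have h3 : a i * a1 + b i ≡ a i * a0 + b i [MOD ∏ q ∈ s, q] := (h1.mul_left (a i)).add_right (b i)
      have h4 := h3.gcd_eq
      rw [Nat.coprime_iff_gcd_eq_one, h4]
      exact ha0 i

theorem coprime_self_mul {a b a0 W : ℕ} (h1 : b.Coprime a) (h2 : (a * a0 + b).Coprime W) :
    (a * a0 + b).Coprime (a * W) := by
  apply Nat.Coprime.mul_right _ h2
  rw [Nat.coprime_mul_left_add_left]
  exact h1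

theorem nonprop {K : ℕ} {a b : Fin K → ℕ} (h : Adm a b) (hpos : ∀ i, 0 < a i)
    (hinj : Function.Injective (fun i => (a i, b i))) {i j : Fin K} (hij : i ≠ j) :
    (a i : ℤ) * b j - a j * b i ≠ 0 := by
  intro h0
  have h1 : a i * b j = a j * b i := by
    have : (a i : ℤ) * b j = a j * b i := by linarith
    exact_mod_cast this
  have h2 : a i ∣ a j := by
    apply (adm_coprime h i).symm.dvd_of_dvd_mul_right
    exact ⟨b j, h1.symm⟩
  have h3 : a j ∣ a i := by
    apply (adm_coprime h j).symm.dvd_of_dvd_mul_right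
    exact ⟨b i, h1⟩
  have h4 : a i = a j := Nat.dvd_antisymm h2 h3
  have h5 : b j = b i := by
    rw [h4] at h1
    exact Nat.eq_of_mul_eq_mul_left (hpos j) h1
  exact hij (hinj (Prod.ext h4 h5.symm))

/-- the discriminant -/
def Dsc {K : ℕ} (a b : Fin K → ℕ) : ℕ :=
  (∏ i, a i) * ∏ i, ∏ j, (if i = j then 1 else ((a i : ℤ) * b j - a j * b i).natAbs)

theorem Dsc_ne {K : ℕ} {a b : Fin K → ℕ} (h : Adm a b) (hpos : ∀ i, 0 < a i)
    (hinj : Function.Injective (fun i => (a i, b i))) : Dsc a b ≠ 0 := by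
  unfold Dsc
  apply mul_ne_zero
  · exact prod_ne_zero_iff.2 fun i _ => (hpos i).ne'
  · refine prod_ne_zero_iff.2 fun i _ => prod_ne_zero_iff.2 fun j _ => ?_
    split_ifs with hij
    · norm_num
    · exact Int.natAbs_ne_zero.2 (nonprop h hpos hinj hij)

theorem dvd_Dsc_a {K : ℕ} (a b : Fin K → ℕ) (i : Fin K) : a i ∣ Dsc a b := by
  unfold Dsc
  exact (dvd_prod_of_mem a (mem_univ i)).mul_right _

theorem dvd_Dsc_r {K : ℕ} (a b : Fin K → ℕ) {i j : Fin K} (hij : i ≠ j) :
    ((a i : ℤ) * b j - a j * b i).natAbs ∣ Dsc a b := by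
  unfold Dsc
  have h1 : ((a i : ℤ) * b j - a j * b i).natAbs =
      (if i = j then 1 else ((a i : ℤ) * b j - a j * b i).natAbs) := by rw [if_neg hij]
  rw [h1]
  refine Dvd.dvd.mul_left ?_ _
  exact (dvd_prod_of_mem (fun j => if i = j then 1 else ((a i : ℤ) * b j - a j * b i).natAbs) (mem_univ j)).trans
    (dvd_prod_of_mem (fun i => ∏ j, (if i = j then 1 else ((a i : ℤ) * b j - a j * b i).natAbs)) (mem_univ i))

theorem Dsc_log {K : ℕ} {a b : Fin K → ℕ} (h : Adm a b) (hpos : ∀ i, 0 < a i)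
    (hinj : Function.Injective (fun i => (a i, b i))) (X : ℝ) (hX : 1 ≤ X) (haX : ∀ i, (a i : ℝ) ≤ Real.sqrt X)
    (hba : ∀ i, b i ≤ a i) : ∑ p ∈ (Dsc a b).primeFactors, Real.log p ≤ ((K : ℝ) + K ^ 2) * Real.log X := by
  have hX0 : 0 < X := by linarith
  have hL : 0 ≤ Real.log X := Real.log_nonneg hX
  have hne := Dsc_ne h hpos hinj
  have hsX : Real.sqrt X ≤ X := by
    have h1 : Real.sqrt X * Real.sqrt X = X := Real.mul_self_sqrt hX0.le
    have h2 : 1 ≤ Real.sqrt X := Real.one_le_sqrt.2 hX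
    nlinarith
  have h1 : ∑ p ∈ (Dsc a b).primeFactors, Real.log p ≤ Real.log (Dsc a b) := by
    rw [← Real.log_prod (fun p hp => by
      have := (Nat.prime_of_mem_primeFactors hp).pos
      positivity), ← Nat.cast_prod]
    apply Real.log_le_log
    · have : 0 < ∏ p ∈ (Dsc a b).primeFactors, p := prod_pos fun p hp => (Nat.prime_of_mem_primeFactors hp).pos
      exact_mod_cast this
    · exact_mod_cast Nat.le_of_dvd (Nat.pos_of_ne_zero hne) (Nat.prod_primeFactors_dvd _)
  refine h1.trans ?_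
  have ha : (∏ i, a i) ≠ 0 := fun h0 => hne (by unfold Dsc; rw [h0, zero_mul])
  have hb : (∏ i, ∏ j, (if i = j then 1 else ((a i : ℤ) * b j - a j * b i).natAbs)) ≠ 0 :=
    fun h0 => hne (by unfold Dsc; rw [h0, mul_zero])
  unfold Dsc
  rw [Nat.cast_mul, Real.log_mul (by exact_mod_cast ha) (by exact_mod_cast hb)]
  have h2 : Real.log ((∏ i, a i : ℕ) : ℝ) ≤ K * Real.log X := by
    rw [Nat.cast_prod, Real.log_prod (fun i _ => by have := hpos i; positivity)]
    calc ∑ i, Real.log (a i : ℝ) ≤ ∑ _i : Fin K, Real.log X := by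
          apply sum_le_sum
          intro i _
          apply Real.log_le_log (by exact_mod_cast hpos i)
          exact (haX i).trans hsX
      _ = K * Real.log X := by simp
  have h3 : Real.log ((∏ i, ∏ j, (if i = j then 1 else ((a i : ℤ) * b j - a j * b i).natAbs) : ℕ) : ℝ) ≤
      K ^ 2 * Real.log X := by
    have hterm : ∀ i j : Fin K, ((if i = j then 1 else ((a i : ℤ) * b j - a j * b i).natAbs : ℕ) : ℝ) ≠ 0 ∧
        Real.log ((if i = j then 1 else ((a i : ℤ) * b j - a j * b i).natAbs : ℕ) : ℝ) ≤ Real.log X := by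
      intro i j
      split_ifs with hij
      · constructor
        · norm_num
        · rw [Nat.cast_one, Real.log_one]; exact hL
      · have h4 : ((a i : ℤ) * b j - a j * b i).natAbs ≠ 0 := Int.natAbs_ne_zero.2 (nonprop h hpos hinj hij)
        refine ⟨by exact_mod_cast h4, ?_⟩
        apply Real.log_le_log (by exact_mod_cast Nat.pos_of_ne_zero h4)
        have h5 : ∀ i j, ((a i : ℝ) * b j) ≤ X := by
          intro i j
          have h6 := haX i
          have h7 : (b j : ℝ) ≤ Real.sqrt X := le_trans (by exact_mod_cast hba j) (haX j)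
          calc (a i : ℝ) * b j ≤ Real.sqrt X * Real.sqrt X := by gcongr
            _ = X := Real.mul_self_sqrt hX0.le
        have h8 : (((a i : ℤ) * b j - a j * b i).natAbs : ℝ) = |(a i : ℝ) * b j - a j * b i| := by
          rw [Nat.cast_natAbs]
          push_cast
          rfl
        rw [h8, abs_le]
        have h9 := h5 i j
        have h10 := h5 j i
        have h11 : (0 : ℝ) ≤ (a i : ℝ) * b j := by positivity
        have h12 : (0 : ℝ) ≤ (a j : ℝ) * b i := by positivity
        constructor <;> linarith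
    rw [Nat.cast_prod, Real.log_prod (fun i _ => by
      rw [Nat.cast_prod]
      exact prod_ne_zero_iff.2 fun j _ => (hterm i j).1)]
    calc ∑ i : Fin K, Real.log ((∏ j, (if i = j then 1 else ((a i : ℤ) * b j - a j * b i).natAbs) : ℕ) : ℝ) ≤
        ∑ i : Fin K, ((K : ℝ) * Real.log X) := by
          apply sum_le_sum
          intro i _
          rw [Nat.cast_prod, Real.log_prod (fun j _ => (hterm i j).1)]
          calc _ ≤ ∑ _j : Fin K, Real.log X := sum_le_sum fun j _ => (hterm i j).2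
            _ = _ := by simp
      _ = K ^ 2 * Real.log X := by
          rw [sum_const, card_univ, Fintype.card_fin, nsmul_eq_mul]; ring
  linarith

/-- the scale of the primes -/
noncomputable def kk (X : ℝ) (a : ℕ) : ℕ := ⌈Real.log (a * X)⌉₊

theorem kk_facts {X : ℝ} (hX : 4 ≤ X) {a : ℕ} (ha : 0 < a) (haX : (a : ℝ) ≤ X / 4) :
    (a : ℝ) * X ≤ Real.exp (kk X a) ∧ Real.exp 1 * Real.exp (kk X a) ≤ 8 * (a * X) ∧
    X ≤ Real.exp (kk X a) ∧ Real.exp (kk X a) ≤ X ^ 2 := by
  have har : (1 : ℝ) ≤ a := by exact_mod_cast ha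
  have h0 : 0 < (a : ℝ) * X := by positivity
  have hlog : 0 ≤ Real.log (a * X) := Real.log_nonneg (by nlinarith)
  have h1 : Real.log (a * X) ≤ kk X a := Nat.le_ceil _
  have h2 : (kk X a : ℝ) < Real.log (a * X) + 1 := Nat.ceil_lt_add_one hlog
  have h3 : (a : ℝ) * X ≤ Real.exp (kk X a) := by
    rw [← Real.log_le_iff_le_exp h0]
    exact h1
  have h4 : Real.exp (kk X a) ≤ Real.exp 1 * (a * X) := by
    calc Real.exp (kk X a) ≤ Real.exp (Real.log (a * X) + 1) := Real.exp_le_exp.2 h2.le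
      _ = Real.exp 1 * (a * X) := by rw [Real.exp_add, Real.exp_log h0, mul_comm]
  have he := Real.exp_one_lt_d9
  have he0 := Real.exp_pos 1
  refine ⟨h3, ?_, ?_, ?_⟩
  · calc Real.exp 1 * Real.exp (kk X a) ≤ Real.exp 1 * (Real.exp 1 * (a * X)) :=
          mul_le_mul_of_nonneg_left h4 he0.le
      _ = (Real.exp 1 * Real.exp 1) * (a * X) := by ring
      _ ≤ 8 * (a * X) := by
          apply mul_le_mul_of_nonneg_right _ h0.le
          nlinarith
  · nlinarith
  · calc Real.exp (kk X a) ≤ Real.exp 1 * (a * X) := h4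
      _ ≤ 4 * (X / 4 * X) := by
          apply mul_le_mul (by linarith) _ h0.le (by norm_num)
          exact mul_le_mul_of_nonneg_right haX (by linarith)
      _ = X ^ 2 := by ring

end Pool.Agent.H262R2.UM
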