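import Mathlib
import Pool.Agent.H262R2.UM.Sets
import Pool.Agent.H262R2.UM.BV3
import Pool.Agent.H262R2.UK.Fin
import Pool.Agent.H378R2.M7t

open Finset Filter
open scoped ContDiff

/-! Positivity. -/

namespace Pool.Agent.H262R2.UM

open Pool.Agent.H378R2

theorem tot_BE (n : ℕ) : (n.totient : ℝ) = n * BE n.primeFactors := by
  have h := Nat.totient_eq_mul_prod_factors n
  have h2 : ((n.totient : ℚ) : ℝ) = ((n * ∏ p ∈ n.primeFactors, (1 - (p : ℚ)⁻¹) : ℚ) : ℝ) := by rw [h]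
  unfold BE
  simp only [one_div]
  push_cast at h2
  exact h2

theorem tot_mul_le (a W : ℕ) (ha : 0 < a) (hW : 0 < W) : ((a * W).totient : ℝ) ≤ a * W.totient := by
  rw [tot_BE (a * W), tot_BE W]
  push_cast
  have hsub : W.primeFactors ⊆ (a * W).primeFactors :=
    Nat.primeFactors_mono (Dvd.intro_left a rfl) (by positivity)
  have h1 := BE_anti hsub (fun p hp => Nat.prime_of_mem_primeFactors hp)
  have h2 : (0 : ℝ) ≤ (a : ℝ) * W := by positivity
  calc (a : ℝ) * W * BE (a * W).primeFactors ≤ (a : ℝ) * W * BE W.primeFactors :=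
        mul_le_mul_of_nonneg_left h1 h2
    _ = _ := by ring

theorem tot_ge (a : ℕ) (ha : 1 ≤ a) (L : ℝ) (hL : 1 ≤ L) (h : Real.log a ≤ L) : (a : ℝ) ≤ 10 * L * a.totient := by
  have hφ : (1 : ℝ) ≤ a.totient := by exact_mod_cast Nat.totient_pos.2 ha
  rcases lt_or_ge a 10 with h10 | h10
  · have : (a : ℝ) < 10 := by exact_mod_cast h10
    nlinarith
  · have ha0 : (0 : ℝ) < a := by exact_mod_cast ha
    have h1 := (UK.phi_facts a h10).1
    rw [div_le_div_iff₀ (by norm_num) ha0] at h1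
    have h2 : (a.totient : ℝ) * Real.log a ≤ a.totient * L := mul_le_mul_of_nonneg_left h (by linarith)
    nlinarith

/-- the final inequality in real numbers -/
theorem real_pos (μ IIv ε1 K m c7 JJs A2 ErS S2v S1v H L e2 : ℝ) (hμ : 0 < μ) (hII : 0 < IIv) (hm : 0 ≤ m)
    (hL : 0 ≤ L) (hc7 : 0 ≤ c7)
    (hKε : K * ε1 ≤ IIv) (hε : ε1 ≤ IIv)
    (H2 : μ * (JJs - K * ε1) - A2 * ErS ≤ S2v) (H1 : S1v ≤ H * (IIv + ε1) + A2 * e2)
    (Hμ : 3 * L * H ≤ c7 * μ) (HJ : (2 * c7 * m + 3) * IIv ≤ JJs)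
    (Herr : A2 * ErS + 3 * L * m * (A2 * e2) ≤ IIv * μ) (hε0 : 0 ≤ ε1) :
    0 < S2v - 3 * L * m * S1v := by
  have h1 : 3 * L * m * S1v ≤ 3 * L * m * (H * (IIv + ε1) + A2 * e2) :=
    mul_le_mul_of_nonneg_left H1 (by positivity)
  have h2 : 3 * L * m * (H * (IIv + ε1)) ≤ c7 * μ * m * (2 * IIv) := by
    calc 3 * L * m * (H * (IIv + ε1)) = (3 * L * H) * (m * (IIv + ε1)) := by ring
      _ ≤ (c7 * μ) * (m * (IIv + ε1)) := mul_le_mul_of_nonneg_right Hμ (by positivity)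
      _ ≤ (c7 * μ) * (m * (2 * IIv)) := by
          apply mul_le_mul_of_nonneg_left _ (by positivity)
          apply mul_le_mul_of_nonneg_left _ hm
          linarith
      _ = _ := by ring
  have h3 : μ * ((2 * c7 * m + 3) * IIv - IIv) ≤ μ * (JJs - K * ε1) :=
    mul_le_mul_of_nonneg_left (by linarith) hμ.le
  have h4 : 0 < IIv * μ := by positivity
  have h5 : μ * ((2 * c7 * m + 3) * IIv - IIv) = c7 * μ * m * (2 * IIv) + 2 * (IIv * μ) := by ring
  have h6 : 3 * L * m * (H * (IIv + ε1) + A2 * e2) = 3 * L * m * (H * (IIv + ε1)) + 3 * L * m * (A2 * e2) := by ring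
  linarith

/-- the error of the second sums -/
theorem err_two (K0 : ℕ) (Cc c0 : ℝ) (hCc : 0 ≤ Cc) (hc0 : 0 < c0) : ∀ᶠ X : ℝ in atTop,
    ∀ (W a : ℕ) (Y BEP BV : ℝ), 1 ≤ W → (W : ℝ) ≤ X ^ (1 / 500 : ℝ) → 1 ≤ a → (a : ℝ) ≤ X ^ (1 / 1000 : ℝ) →
      0 < Y → Real.exp 1 * Y ≤ 8 * (a * X) → X ≤ Y → c0 / Real.log (Real.log X) ≤ BEP → (W.totient : ℝ) = W * BEP →
      BV ≤ Y / (((a * W).totient : ℝ) * (Real.log X) ^ (2 * K0 + 4)) →
      Cc * (BV + Real.exp (2 * LL X) * (2 * Real.sqrt (3 * Y) * Real.log (3 * Y))) ≤ X / (W * (Real.log X) ^ K0) := by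
  have hlog := Real.tendsto_log_atTop
  filter_upwards [hlog.eventually_ge_atTop (1 + Cc * (80 / c0)), (hlog.comp hlog).eventually_ge_atTop (1 : ℝ),
    Pool.Agent.H398R2.BV.ev_log (Cc * 48) (K0 + 1) (1 / 4) (by norm_num), eventually_ge_atTop (16 : ℝ)] with X h1 h2 h3 h4
  intro W a Y BEP BV hW1 hWX ha1 haX hY hY8 hXY hBEP hφW hBV
  simp only [Function.comp] at h2
  have hX0 : 0 < X := by linarith
  have hX1 : 1 ≤ X := by linarith
  set L := Real.log X with hL
  have hcc : 0 ≤ Cc * (80 / c0) := by positivity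
  have hL1 : 1 ≤ L := by linarith
  have hL0 : 0 < L := by linarith
  have hWr : (1 : ℝ) ≤ W := by exact_mod_cast hW1
  have har : (1 : ℝ) ≤ a := by exact_mod_cast ha1
  have hφa : (1 : ℝ) ≤ a.totient := by exact_mod_cast Nat.totient_pos.2 ha1
  have haX1 : (a : ℝ) ≤ X := haX.trans (by
    calc X ^ (1 / 1000 : ℝ) ≤ X ^ (1 : ℝ) := Real.rpow_le_rpow_of_exponent_le hX1 (by norm_num)
      _ = X := Real.rpow_one X)
  have hla : Real.log a ≤ L := Real.log_le_log (by linarith) haX1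
  have hY4 : Y ≤ 4 * (a * X) := by
    have := Real.exp_one_gt_d9
    nlinarith
  have hll : Real.log L ≤ L := by
    have := Real.log_le_sub_one_of_pos hL0
    linarith
  have hBEP2 : c0 / L ≤ BEP := by
    refine le_trans ?_ hBEP
    apply div_le_div_of_nonneg_left hc0.le (by linarith) hll
  have hBEP0 : 0 < BEP := lt_of_lt_of_le (by positivity) hBEP2
  have htot : (a.totient : ℝ) * (W * BEP) ≤ (a * W).totient := by
    rw [← hφW]
    exact_mod_cast Nat.totient_super_multiplicative a W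
  have hLpow : 0 < L ^ (2 * K0 + 4) := by positivity
  -- part 1
  have p1 : Cc * BV ≤ (1 / 2) * (X / (W * L ^ K0)) := by
    have e1 : BV ≤ (40 / c0) * (X / (W * L ^ (2 * K0 + 2))) := by
      refine hBV.trans ?_
      calc Y / (((a * W).totient : ℝ) * L ^ (2 * K0 + 4)) ≤
          (4 * (a * X)) / (((a.totient : ℝ) * (W * (c0 / L))) * L ^ (2 * K0 + 4)) := by
            apply div_le_div₀ (by positivity) hY4 (by positivity)
            apply mul_le_mul_of_nonneg_right _ hLpow.le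
            refine le_trans ?_ htot
            gcongr
        _ ≤ (4 * ((10 * L * a.totient) * X)) / (((a.totient : ℝ) * (W * (c0 / L))) * L ^ (2 * K0 + 4)) := by
            have := tot_ge a ha1 L hL1 hla
            gcongr
        _ = (40 / c0) * (X / (W * L ^ (2 * K0 + 2))) := by
            have : L ^ (2 * K0 + 4) = L ^ (2 * K0 + 2) * L ^ 2 := by rw [← pow_add]
            rw [this]
            field_simp
            ring
    calc Cc * BV ≤ Cc * ((40 / c0) * (X / (W * L ^ (2 * K0 + 2)))) := mul_le_mul_of_nonneg_left e1 hCc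
      _ = (1 / 2) * ((Cc * (80 / c0)) / L ^ (K0 + 2)) * (X / (W * L ^ K0)) := by
          have : L ^ (2 * K0 + 2) = L ^ K0 * L ^ (K0 + 2) := by rw [← pow_add]; congr 1; ring
          rw [this]
          field_simp
          ring
      _ ≤ (1 / 2) * 1 * (X / (W * L ^ K0)) := by
          gcongr
          rw [div_le_one (by positivity)]
          have : L ≤ L ^ (K0 + 2) := le_self_pow₀ hL1 (by omega)
          linarith
      _ = _ := by ring
  -- part 2
  have p2 : Cc * (Real.exp (2 * LL X) * (2 * Real.sqrt (3 * Y) * Real.log (3 * Y))) ≤ (1 / 2) * (X / (W * L ^ K0)) := by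
    have e0 : 3 * Y ≤ 16 * (X ^ (1 / 1000 : ℝ) * X) := by
      have : (a : ℝ) * X ≤ X ^ (1 / 1000 : ℝ) * X := by gcongr
      have h0 : 0 ≤ X ^ (1 / 1000 : ℝ) * X := by positivity
      linarith
    have e1 : Real.sqrt (3 * Y) ≤ 4 * X ^ (1001 / 2000 : ℝ) := by
      rw [Real.sqrt_le_left (by positivity), mul_pow, ← Real.rpow_natCast (X ^ (1001 / 2000 : ℝ)), ← Real.rpow_mul hX0.le]
      refine e0.trans (le_of_eq ?_)
      have : X ^ (1 / 1000 : ℝ) * X = X ^ (1 / 1000 : ℝ) * X ^ (1 : ℝ) := by rw [Real.rpow_one]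
      rw [this, ← Real.rpow_add hX0]
      norm_num
    have e2 : Real.log (3 * Y) ≤ 3 * L := by
      have h5 : 3 * Y ≤ X ^ 3 := by
        refine e0.trans ?_
        have h6 : X ^ (1 / 1000 : ℝ) ≤ X := by
          calc X ^ (1 / 1000 : ℝ) ≤ X ^ (1 : ℝ) := Real.rpow_le_rpow_of_exponent_le hX1 (by norm_num)
            _ = X := Real.rpow_one X
        calc 16 * (X ^ (1 / 1000 : ℝ) * X) ≤ X * (X * X) := by gcongr
          _ = X ^ 3 := by ring
      have h6 := Real.log_le_log (by linarith) h5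
      rw [Real.log_pow] at h6
      push_cast at h6
      exact h6
    have e3 : 0 ≤ Real.log (3 * Y) := Real.log_nonneg (by linarith)
    have e4 : Real.exp (2 * LL X) = X ^ (1 / 100 : ℝ) := exp_two_LL X hX0
    rw [e4, ← mul_div_assoc, le_div_iff₀ (by positivity)]
    calc Cc * (X ^ (1 / 100 : ℝ) * (2 * Real.sqrt (3 * Y) * Real.log (3 * Y))) * (W * L ^ K0) ≤
        Cc * (X ^ (1 / 100 : ℝ) * (2 * (4 * X ^ (1001 / 2000 : ℝ)) * (3 * L))) * (X ^ (1 / 500 : ℝ) * L ^ K0) := by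
          gcongr
      _ = (1 / 2) * ((Cc * 48 * L ^ (K0 + 1)) * (X ^ (1 / 100 : ℝ) * X ^ (1001 / 2000 : ℝ) * X ^ (1 / 500 : ℝ))) := by
          rw [pow_succ]; ring
      _ ≤ (1 / 2) * (X ^ (1 / 4 : ℝ) * (X ^ (1 / 100 : ℝ) * X ^ (1001 / 2000 : ℝ) * X ^ (1 / 500 : ℝ))) := by
          gcongr
      _ ≤ (1 / 2) * X := by
          apply mul_le_mul_of_nonneg_left _ (by norm_num)
          rw [← Real.rpow_add hX0, ← Real.rpow_add hX0, ← Real.rpow_add hX0]
          calc X ^ (1 / 4 + (1 / 100 + 1001 / 2000 + 1 / 500) : ℝ) ≤ X ^ (1 : ℝ) :=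
                Real.rpow_le_rpow_of_exponent_le hX1 (by norm_num)
            _ = X := Real.rpow_one X
  rw [mul_add]
  linarith

/-- the error of the first sum -/
theorem err_one (K0 : ℕ) (Cc : ℝ) (hCc : 0 ≤ Cc) : ∀ᶠ X : ℝ in atTop,
    ∀ W : ℕ, 1 ≤ W → (W : ℝ) ≤ X ^ (1 / 500 : ℝ) →
      Cc * (Real.log X * Real.exp (2 * LL X)) ≤ X / (W * (Real.log X) ^ K0) := by
  filter_upwards [Pool.Agent.H398R2.BV.ev_log Cc (K0 + 1) (1 / 4) (by norm_num), eventually_ge_atTop (4 : ℝ)] with X h3 h4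
  intro W hW1 hWX
  have hX0 : 0 < X := by linarith
  have hX1 : 1 ≤ X := by linarith
  have hL1 : 0 < Real.log X := Real.log_pos (by linarith)
  set L := Real.log X with hL
  have hWr : (1 : ℝ) ≤ W := by exact_mod_cast hW1
  rw [exp_two_LL X hX0, le_div_iff₀ (by positivity)]
  calc Cc * (L * X ^ (1 / 100 : ℝ)) * (W * L ^ K0) ≤ Cc * (L * X ^ (1 / 100 : ℝ)) * (X ^ (1 / 500 : ℝ) * L ^ K0) := by
        gcongr
    _ = (Cc * L ^ (K0 + 1)) * (X ^ (1 / 100 : ℝ) * X ^ (1 / 500 : ℝ)) := by rw [pow_succ]; ring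
    _ ≤ X ^ (1 / 4 : ℝ) * (X ^ (1 / 100 : ℝ) * X ^ (1 / 500 : ℝ)) := by gcongr
    _ ≤ X := by
        rw [← Real.rpow_add hX0, ← Real.rpow_add hX0]
        calc X ^ (1 / 4 + (1 / 100 + 1 / 500) : ℝ) ≤ X ^ (1 : ℝ) :=
              Real.rpow_le_rpow_of_exponent_le hX1 (by norm_num)
          _ = X := Real.rpow_one X

/-- many primes from a large weighted sum -/
theorem primes_of_sum {K : ℕ} (c : Fin K → ℕ) (L : ℝ) (hL : 0 < L) (hc : ∀ i, Real.log (c i) ≤ L) (m : ℕ)
    (h : L * m < ∑ i, th (c i)) : m ≤ #((univ : Finset (Fin K)).filter (fun i => (c i).Prime)) := by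
  have h1 : ∑ i, th (c i) ≤ L * #((univ : Finset (Fin K)).filter (fun i => (c i).Prime)) := by
    rw [← sum_filter_add_sum_filter_not univ (fun i => (c i).Prime)]
    have h2 : ∑ i ∈ (univ : Finset (Fin K)).filter (fun i => ¬ (c i).Prime), th (c i) = 0 := by
      apply sum_eq_zero
      intro i hi
      unfold th
      rw [if_neg (mem_filter.1 hi).2]
    rw [h2, add_zero, mul_comm, ← nsmul_eq_mul]
    apply sum_le_card_nsmul
    intro i hi
    unfold th
    rw [if_pos (mem_filter.1 hi).2]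
    exact hc i
  have h3 : L * m < L * #((univ : Finset (Fin K)).filter (fun i => (c i).Prime)) := h.trans_le h1
  have h4 : (m : ℝ) < #((univ : Finset (Fin K)).filter (fun i => (c i).Prime)) := lt_of_mul_lt_mul_left h3 hL.le
  have h5 : m < #((univ : Finset (Fin K)).filter (fun i => (c i).Prime)) := by exact_mod_cast h4
  exact h5.le

end Pool.Agent.H262R2.UM
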