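import Mathlib
import Pool.Agent.H262R2.UM.Pos

open Finset Filter
open scoped ContDiff

/-! Auxiliary steps for the positivity argument. -/

namespace Pool.Agent.H262R2.UM

open Pool.Agent.H378R2

theorem Er2_nonneg (K0 : ℕ) (X Y : ℝ) (Q P : ℕ) (Bc : ℕ → ℕ) (hY : 1 ≤ Y) : 0 ≤ Er2 K0 X Y Q P Bc := by
  unfold Er2 BVm
  have h1 : 0 ≤ Real.log (3 * Y) := Real.log_nonneg (by linarith)
  have h2 : 0 ≤ ∑ q ∈ (Icc 1 ⌊X ^ (1 / 100 : ℝ)⌋₊).filter (fun q => Squarefree q ∧ q.Coprime P),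
      (q.divisors.card : ℝ) ^ (2 * K0) * |EPhi Y (Q * q) (Bc q)| :=
    sum_nonneg fun _ _ => mul_nonneg (pow_nonneg (Nat.cast_nonneg _) _) (abs_nonneg _)
  exact add_nonneg h2 (mul_nonneg (Real.exp_pos _).le (mul_nonneg (mul_nonneg (by norm_num) (Real.sqrt_nonneg _)) h1))

theorem BVm_le (K0 : ℕ) (X Y : ℝ) (Q W P0 : ℕ) (Bc : ℕ → ℕ) :
    BVm K0 X Y Q (W * P0) Bc ≤ ∑ q ∈ LSBV.QQ W P0 ⌊X ^ (1 / 100 : ℝ)⌋₊,
      (q.divisors.card : ℝ) ^ (2 * K0 + 4) * |EPhi Y (Q * q) (Bc q)| := by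
  unfold BVm LSBV.QQ
  apply sum_le_sum
  intro q hq
  rw [mem_filter, mem_Icc] at hq
  apply mul_le_mul_of_nonneg_right _ (abs_nonneg _)
  apply pow_le_pow_right₀ _ (by omega)
  have : 0 < q.divisors.card := card_pos.2 ⟨1, Nat.mem_divisors.2 ⟨one_dvd _, by omega⟩⟩
  exact_mod_cast this

/-- comparison of the main terms of the second sums -/
theorem mu_le (X Y BEP Z : ℝ) (a W : ℕ) (hX : 0 < X) (hY : X ≤ Y) (ha : 0 < a) (hW : 0 < W) (hB : 0 < BEP) (hZ : 0 ≤ Z)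
    (h1 : (a : ℝ) * X ≤ Y) (hφ : (W.totient : ℝ) = W * BEP) (hLP : Y / 200 ≤ LPhi Y) :
    (X / (200 * W * BEP)) * Z ≤ (LPhi Y * (1 / ((a * W).totient : ℝ))) * Z := by
  apply mul_le_mul_of_nonneg_right _ hZ
  have h5 := tot_mul_le a W ha hW
  rw [hφ] at h5
  have h6 : (0 : ℝ) < (a * W).totient := by
    exact_mod_cast Nat.totient_pos.2 (Nat.mul_pos ha hW)
  have hai : (0 : ℝ) < a := by exact_mod_cast ha
  have hWr : (0 : ℝ) < W := by exact_mod_cast hW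
  rw [mul_one_div]
  calc X / (200 * W * BEP) = (a * X / 200) / (a * (W * BEP)) := by field_simp
    _ ≤ LPhi Y / ((a * W).totient : ℝ) := by
        apply div_le_div₀ _ _ h6 h5
        · linarith
        · linarith

theorem mu_low (X W BEP BEE L LX : ℝ) (K0 : ℕ) (hX : 0 < X) (hW : 0 < W) (hB : 0 < BEP) (hB1 : BEP ≤ 1) (hE : 0 < BEE)
    (hE1 : BEE ≤ 1) (hLX : 0 < LX) (hL : LX ≤ L) :
    X / (W * L ^ K0) ≤ 200 * ((X / (200 * W * BEP)) * (1 / (LX * BEE) ^ K0)) := by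
  have hLB : 0 < LX * BEE := by positivity
  have h1 : (LX * BEE) ^ K0 ≤ L ^ K0 := by
    apply pow_le_pow_left₀ hLB.le
    nlinarith
  have hL0 : 0 < L := by linarith
  have h2 : X / (W * L ^ K0) ≤ X / (W * BEP * (LX * BEE) ^ K0) := by
    apply div_le_div_of_nonneg_left hX.le (by positivity)
    have h8 : W * BEP ≤ W := by nlinarith
    have h9 : W * BEP * (LX * BEE) ^ K0 ≤ W * L ^ K0 := by gcongr
    exact h9
  refine h2.trans (le_of_eq ?_)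
  field_simp

theorem Hmu (X N8 W BEP BEE L LX : ℝ) (K0 : ℕ) (hX : 0 < X) (hN : N8 ≤ 8 * X) (hW : 0 < W)
    (hB : 0 < BEP) (hE : 0 < BEE) (hLX : 0 < LX) (hL : L = 200 * LX) (hBE : Real.exp (-7) * BEP ≤ BEE) :
    3 * L * ((N8 * (1 / W)) * (1 / (LX * BEE) ^ (K0 + 1))) ≤
      (960000 * Real.exp 7) * ((X / (200 * W * BEP)) * (1 / (LX * BEE) ^ K0)) := by
  have h2 : 1 / BEE ≤ Real.exp 7 / BEP := by
    rw [div_le_div_iff₀ hE hB, one_mul]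
    calc BEP = Real.exp 7 * (Real.exp (-7) * BEP) := by
          rw [← mul_assoc, ← Real.exp_add]; norm_num
      _ ≤ Real.exp 7 * BEE := mul_le_mul_of_nonneg_left hBE (Real.exp_pos _).le
  have hL0 : 0 < L := by linarith
  calc 3 * L * ((N8 * (1 / W)) * (1 / (LX * BEE) ^ (K0 + 1))) ≤
      3 * L * (((8 * X) * (1 / W)) * (1 / (LX * BEE) ^ (K0 + 1))) := by gcongr
    _ = (4800 * X / W) * (1 / (LX * BEE) ^ K0) * (1 / BEE) := by
        rw [hL, pow_succ]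
        field_simp
        ring
    _ ≤ (4800 * X / W) * (1 / (LX * BEE) ^ K0) * (Real.exp 7 / BEP) := by gcongr
    _ = _ := by
        field_simp
        ring

/-- extraction of a value of the variable -/
theorem pos_abs {K0 : ℕ} (N : ℕ) (w : ℕ → ℝ) (hw : ∀ n, 0 ≤ w n) (t : Fin (K0 + 1) → ℕ → ℝ) (ht : ∀ i n, 0 ≤ t i n)
    (Kr : ℝ) (hKr : Kr = ((K0 + 1 : ℕ) : ℝ))
    (μ IIv ε1 m c7 A2 L e2 H : ℝ) (JJf Er M1 : Fin (K0 + 1) → ℝ) (hμ : 0 < μ) (hII : 0 < IIv) (hm : 0 ≤ m)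
    (hL : 0 ≤ L) (hc7 : 0 ≤ c7) (hA2 : 0 ≤ A2) (hKε : Kr * ε1 ≤ IIv) (hε : ε1 ≤ IIv) (hε0 : 0 ≤ ε1)
    (HM : ∀ i, μ ≤ M1 i) (hEr0 : ∀ i, 0 ≤ Er i)
    (HS2 : ∀ i, M1 i * (JJf i - ε1) - A2 * Er i ≤ ∑ n ∈ Icc 1 N, w n * t i n)
    (HS1 : ∑ n ∈ Icc 1 N, w n ≤ H * (IIv + ε1) + A2 * e2)
    (Hμ : 3 * L * H ≤ c7 * μ) (HJ : (2 * c7 * m + 3) * IIv ≤ ∑ i, JJf i)
    (HEr : ∀ i, A2 * Kr * Er i ≤ IIv * μ / 2) (He2 : 3 * L * m * (A2 * e2) ≤ IIv * μ / 2) :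
    ∃ n ∈ Icc 1 N, 3 * L * m < ∑ i, t i n := by
  have hKr0 : 0 < Kr := by rw [hKr]; positivity
  have hS2low : ∀ i, μ * (JJf i - ε1) - A2 * Er i ≤ ∑ n ∈ Icc 1 N, w n * t i n := by
    intro i
    rcases le_total ε1 (JJf i) with h2 | h2
    · refine le_trans ?_ (HS2 i)
      have h7 := mul_le_mul_of_nonneg_right (HM i) (by linarith : 0 ≤ JJf i - ε1)
      linarith
    · have h3 : 0 ≤ ∑ n ∈ Icc 1 N, w n * t i n := sum_nonneg fun n _ => mul_nonneg (hw n) (ht i n)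
      have h4 : μ * (JJf i - ε1) ≤ 0 := mul_nonpos_of_nonneg_of_nonpos hμ.le (by linarith)
      have h5 : 0 ≤ A2 * Er i := mul_nonneg hA2 (hEr0 i)
      linarith
  have H2 : μ * (∑ i, JJf i - Kr * ε1) - A2 * ∑ i, Er i ≤ ∑ i, ∑ n ∈ Icc 1 N, w n * t i n := by
    have h1 := sum_le_sum fun i (_ : i ∈ (univ : Finset (Fin (K0 + 1)))) => hS2low i
    rw [sum_sub_distrib, ← mul_sum, ← mul_sum, sum_sub_distrib, sum_const, card_univ, Fintype.card_fin,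
      nsmul_eq_mul, ← hKr] at h1
    exact h1
  have Herr : A2 * ∑ i, Er i + 3 * L * m * (A2 * e2) ≤ IIv * μ := by
    have h3 : Kr * (A2 * ∑ i, Er i) ≤ Kr * (IIv * μ / 2) := by
      calc Kr * (A2 * ∑ i, Er i) = ∑ i, A2 * Kr * Er i := by rw [← mul_sum]; ring
        _ ≤ ∑ _i : Fin (K0 + 1), IIv * μ / 2 := sum_le_sum fun i _ => HEr i
        _ = Kr * (IIv * μ / 2) := by rw [sum_const, card_univ, Fintype.card_fin, nsmul_eq_mul, ← hKr]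
    have h1 : A2 * ∑ i, Er i ≤ IIv * μ / 2 := le_of_mul_le_mul_left h3 hKr0
    linarith
  have hpos := real_pos μ IIv ε1 Kr m c7 (∑ i, JJf i) A2 (∑ i, Er i) (∑ i, ∑ n ∈ Icc 1 N, w n * t i n)
    (∑ n ∈ Icc 1 N, w n) H L e2 hμ hII hm hL hc7 hKε hε H2 HS1 Hμ HJ Herr hε0
  have hsumeq : ∑ i, ∑ n ∈ Icc 1 N, w n * t i n - 3 * L * m * ∑ n ∈ Icc 1 N, w n = ∑ n ∈ Icc 1 N,
      w n * (∑ i, t i n - 3 * L * m) := by
    rw [sum_comm, mul_sum, ← sum_sub_distrib]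
    refine sum_congr rfl fun n _ => ?_
    rw [mul_sub, mul_sum]
    congr 1
    ring
  rw [hsumeq] at hpos
  by_contra hcon
  push Not at hcon
  have : ∑ n ∈ Icc 1 N, w n * (∑ i, t i n - 3 * L * m) ≤ 0 := by
    apply sum_nonpos
    intro n hn
    exact mul_nonpos_of_nonneg_of_nonpos (hw n) (by linarith [hcon n hn])
  linarith

end Pool.Agent.H262R2.UM
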