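import Mathlib
import Pool.Agent.H262R2.UM.Core0

open Finset Filter
open scoped ContDiff

/-! Many primes in an admissible system with good leading coefficients. -/

namespace Pool.Agent.H262R2.UM

open Pool.Agent.H378R2

/-- the exceptional primes of a system -/
def Tset {K : ℕ} (ps : Fin K → ℕ) : Finset ℕ := (univ.image ps).filter Nat.Prime

theorem mem_Tset {K : ℕ} {ps : Fin K → ℕ} {p : ℕ} : p ∈ Tset ps ↔ (∃ i, ps i = p) ∧ p.Prime := by
  unfold Tset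
  rw [mem_filter, mem_image]
  simp

theorem sets_TV {K : ℕ} (X : ℝ) (hX : 1 ≤ X) (a b : Fin K → ℕ) (ps : Fin K → ℕ) (hadm : Adm a b)
    (hab : ∀ i, 0 < a i ∧ b i ≤ a i) (hinj : Function.Injective (fun i => (a i, b i)))
    (haX : ∀ i, (a i : ℝ) ≤ X ^ (1 / 1000 : ℝ)) (hps : ∀ i, GoodP K (ps i)) :
    GoodTV X K ((K : ℝ) + (K : ℝ) ^ 2) (Tset ps) (Dsc a b).primeFactors := by
  refine ⟨?_, ?_, ?_, ?_, ?_⟩
  · intro p hp
    exact (mem_Tset.1 hp).2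
  · unfold Tset
    refine (card_filter_le _ _).trans (card_image_le.trans ?_)
    rw [card_univ, Fintype.card_fin]
  · intro p hp
    obtain ⟨⟨i, hi⟩, hpp⟩ := mem_Tset.1 hp
    rcases hps i with h | h
    · rw [h] at hi
      rw [← hi] at hpp
      exact absurd hpp Nat.not_prime_one
    · rw [← hi]
      exact h.2.le
  · intro p hp
    exact Nat.prime_of_mem_primeFactors hp
  · apply Dsc_log hadm (fun i => (hab i).1) hinj X hX _ (fun i => (hab i).2)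
    intro i
    refine (haX i).trans ?_
    rw [Real.sqrt_eq_rpow]
    exact Real.rpow_le_rpow_of_exponent_le hX (by norm_num)

theorem sets_F {K : ℕ} (X : ℝ) (S T : Finset ℕ) (a b : Fin K → ℕ) (hD : Dsc a b ≠ 0) :
    GoodF (EM X S T (Dsc a b).primeFactors) a b := by
  refine ⟨?_, ?_⟩
  · intro j p hp hpE hd
    apply hpE
    rw [mem_EM]
    right; right
    exact Nat.mem_primeFactors.2 ⟨hp, hd.trans (dvd_Dsc_a a b j), hD⟩
  · intro i j hij p hp hpE hd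
    apply hpE
    rw [mem_EM]
    right; right
    refine Nat.mem_primeFactors.2 ⟨hp, ?_, hD⟩
    exact (Int.natCast_dvd.1 hd).trans (dvd_Dsc_r a b hij)

theorem sets_W (X : ℝ) (S T V : Finset ℕ) : ∀ p : ℕ, p.Prime → p ∉ EM X S T V → ¬ p ∣ WW X (S ∪ T) 1 := by
  intro p hp hpE hd
  apply hpE
  rw [mem_EM]
  left
  exact (prime_dvd_WW hp).1 hd

theorem sets_P {K : ℕ} (X : ℝ) (S V : Finset ℕ) (a b ps : Fin K → ℕ) (hF : GoodF (EM X S (Tset ps) V) a b)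
    (hps : ∀ i, ps i = 1 ∨ ((ps i).Prime ∧ ps i ∈ Tset ps)) :
    ∀ p : ℕ, p.Prime → p ∉ EM X S (Tset ps) V → ¬ p ∣ WW X (S ∪ Tset ps) 1 * ((∏ i, a i) * ∏ i, ps i) := by
  intro p hp hpE hd
  rcases (Nat.Prime.dvd_mul hp).1 hd with h | h
  · exact sets_W X S (Tset ps) V p hp hpE h
  · rcases (Nat.Prime.dvd_mul hp).1 h with h | h
    · obtain ⟨i, _, hi⟩ := (Prime.dvd_finsetProd_iff hp.prime _).1 h
      exact hF.ha i p hp hpE hi
    · obtain ⟨i, _, hi⟩ := (Prime.dvd_finsetProd_iff hp.prime _).1 h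
      rcases hps i with h | h
      · rw [h] at hi
        exact hp.one_lt.ne' (Nat.dvd_one.1 hi)
      · have h2 := (Nat.prime_dvd_prime_iff_eq hp h.1).1 hi
        apply hpE
        rw [mem_EM, h2]
        right; left
        exact h.2

theorem log_form (X : ℝ) (hX : 16 ≤ X) (a b n : ℕ) (ha : (a : ℝ) ≤ X ^ (1 / 1000 : ℝ)) (hb : b ≤ a)
    (hn : (n : ℝ) ≤ 8 * X) : Real.log ((a * n + b : ℕ) : ℝ) ≤ 3 * Real.log X := by
  have hX0 : 0 < X := by linarith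
  have haX : (a : ℝ) ≤ X := ha.trans (by
    calc X ^ (1 / 1000 : ℝ) ≤ X ^ (1 : ℝ) := Real.rpow_le_rpow_of_exponent_le (by linarith) (by norm_num)
      _ = X := Real.rpow_one X)
  rcases Nat.eq_zero_or_pos (a * n + b) with h0 | h0
  · rw [h0, Nat.cast_zero, Real.log_zero]
    have : 0 ≤ Real.log X := Real.log_nonneg (by linarith)
    linarith
  · have h1 : ((a * n + b : ℕ) : ℝ) ≤ X ^ 3 := by
      have hbr : (b : ℝ) ≤ a := by exact_mod_cast hb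
      have hn0 : (0 : ℝ) ≤ n := Nat.cast_nonneg n
      push_cast
      calc (a : ℝ) * n + b ≤ X * (8 * X) + X := by
            apply add_le_add _ (hbr.trans haX)
            exact mul_le_mul haX hn hn0 hX0.le
        _ ≤ X ^ 3 := by nlinarith [sq_nonneg X, mul_pos hX0 hX0]
    have h2 := Real.log_le_log (by exact_mod_cast h0) h1
    rw [Real.log_pow] at h2
    push_cast at h2 ⊢
    exact h2

set_option maxHeartbeats 16000000 in
theorem core (m : ℕ) : ∃ K0 N Z : ℕ, ∀ᶠ X : ℝ in atTop, ∀ a b : Fin (K0 + 1) → ℕ, Adm a b →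
    (∀ i, 0 < a i ∧ b i ≤ a i) → Function.Injective (fun i => (a i, b i)) →
    (∀ i, (a i : ℝ) ≤ X ^ (1 / 1000 : ℝ)) → (∀ i, GoodA X N Z (a i)) →
    ∃ n : ℕ, 1 ≤ n ∧ (n : ℝ) ≤ 8 * X ∧
      m ≤ #((univ : Finset (Fin (K0 + 1))).filter (fun i => (a i * n + b i).Prime)) := by
  have hc70 : 0 < 960000 * Real.exp 7 := mul_pos (by norm_num) (Real.exp_pos 7)
  obtain ⟨K0, B, f, c, A, hsm, hcs, hf0, hc, hA, hf1, hII, hM⟩ := family (2 * (960000 * Real.exp 7) * m + 3)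
  obtain ⟨N, hbv⟩ := bv_multi (2 * K0 + 4) (K0 + 1)
  refine ⟨K0, N, K0 + 1, ?_⟩
  obtain ⟨c0, hc0, hset⟩ := setfacts2
  obtain ⟨Kr, hKr'⟩ : ∃ Kr : ℝ, Kr = ((K0 + 1 : ℕ) : ℝ) := ⟨_, rfl⟩
  have hKr : (1 : ℝ) ≤ Kr := by
    rw [hKr']; push_cast
    have : (0 : ℝ) ≤ K0 := Nat.cast_nonneg _
    linarith
  have hKr0 : 0 < Kr := by linarith
  obtain ⟨IIv, hIIv⟩ : ∃ IIv : ℝ, IIv = II f A := ⟨_, rfl⟩
  rw [← hIIv] at hII hM
  obtain ⟨ε1, hε1⟩ : ∃ ε1 : ℝ, ε1 = IIv / Kr := ⟨_, rfl⟩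
  have hε1pos : 0 < ε1 := by rw [hε1]; exact div_pos hII hKr0
  have hKε : Kr * ε1 ≤ IIv := by rw [hε1]; field_simp; exact le_rfl
  have hεII : ε1 ≤ IIv := by
    rw [hε1]
    exact div_le_self hII.le hKr
  have hCd0 : 0 ≤ ((K0 + 1 : ℕ) : ℝ) + ((K0 + 1 : ℕ) : ℝ) ^ 2 := by positivity
  have hCd'0 : 0 ≤ ((K0 + 1 : ℕ) : ℝ) + 2 * (((K0 + 1 : ℕ) : ℝ) + ((K0 + 1 : ℕ) : ℝ) ^ 2) := by positivity
  obtain ⟨A2, hA2⟩ : ∃ A2 : ℝ, A2 = (A.card : ℝ) ^ 2 := ⟨_, rfl⟩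
  have hA20 : 0 ≤ A2 := by rw [hA2]; positivity
  -- constants for the errors
  have hCc10 : 0 ≤ A2 * Kr * 400 / IIv := by positivity
  have hCc20 : 0 ≤ 3 * m * A2 * 400 / IIv := by positivity
  obtain ⟨X1, hLP⟩ := eventually_atTop.1 LPhi_ge
  filter_upwards [hbv, hset _ hCd'0, EM_card (K0 + 1) _ hCd0, BE_EM_ge (K0 + 1) _ hCd0, EE_facts 0,
    S1m f c A hsm hcs hf0 hc hA hf1 _ hCd'0 ε1 hε1pos,
    S2m f c A hsm hcs hf0 hc hA hf1 _ hCd'0 ε1 hε1pos,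
    err_two K0 _ c0 hCc10 hc0, err_one K0 _ hCc20, LL_tendsto.eventually_ge_atTop 1,
    eventually_ge_atTop X1, eventually_ge_atTop (256 : ℝ)] with X g1 g2 g3 g4 g5 g6 g7 g8 g9 g10 g11 g12
  intro a b hadm hab hinj haX hgood
  have hX0 : 0 < X := by linarith
  have hX1 : 1 ≤ X := by linarith
  have hLL : LL X = Real.log X / 200 := rfl
  have hL200 : 200 ≤ Real.log X := by rw [hLL] at g10; linarith
  have hapos : ∀ i, 0 < a i := fun i => (hab i).1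
  have haX4 : ∀ i, (a i : ℝ) ≤ X / 4 := by
    intro i
    refine (haX i).trans ?_
    have h1 : X ^ (1 / 1000 : ℝ) ≤ X ^ (1 / 2 : ℝ) := Real.rpow_le_rpow_of_exponent_le hX1 (by norm_num)
    have h2 : X ^ (1 / 2 : ℝ) = Real.sqrt X := by rw [Real.sqrt_eq_rpow]
    have h3 : Real.sqrt X * Real.sqrt X = X := Real.mul_self_sqrt hX0.le
    have h4 : 16 ≤ Real.sqrt X := by
      apply Real.le_sqrt_of_sq_le
      linarith
    nlinarith
  have hX4 : (4 : ℝ) ≤ X := by linarith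
  have hkf := fun i => kk_facts hX4 (hapos i) (haX4 i)
  -- the exceptional primes
  have hps : ∀ i, ∃ ps : ℕ, GoodP (K0 + 1) ps ∧
      GG X (Real.exp (kk X (a i))) (a i) ps ≤ Real.exp (kk X (a i)) / (Real.log X) ^ N :=
    fun i => hgood i (kk X (a i)) (hkf i).2.2.1 (hkf i).2.2.2
  choose ps hps1 hps2 using hps
  have hpsT : ∀ i, ps i = 1 ∨ ((ps i).Prime ∧ ps i ∈ Tset ps) := by
    intro i
    rcases hps1 i with h | h
    · exact Or.inl h
    · exact Or.inr ⟨h.1, mem_Tset.2 ⟨⟨i, rfl⟩, h.1⟩⟩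
  obtain ⟨S, hS, hBV⟩ := g1 a (fun i => kk X (a i)) ps ((∏ i, a i) * ∏ i, ps i) (Tset ps) (fun i => hapos i) haX
    (fun i => ⟨(hkf i).2.2.1, (hkf i).2.2.2⟩)
    (fun i => (dvd_prod_of_mem a (mem_univ i)).mul_right _) (fun i => (dvd_prod_of_mem ps (mem_univ i)).mul_left _)
    hpsT hps2
  have hTV := sets_TV X hX1 a b ps hadm hab hinj haX hps1
  have hDne := Dsc_ne hadm hapos hinj
  have hGF := sets_F X S (Tset ps) a b hDne
  have hEW := sets_W X S (Tset ps) (Dsc a b).primeFactors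
  have hEP := sets_P X S (Dsc a b).primeFactors a b ps hGF hpsT
  have hPE : PW X (S ∪ Tset ps) 1 ⊆ EM X S (Tset ps) (Dsc a b).primeFactors :=
    fun p hp => mem_EM.2 (Or.inl hp)
  have hGE : GoodE X _ (EM X S (Tset ps) (Dsc a b).primeFactors) :=
    ⟨fun p hp => EM_prime hTV hp, g3 S (Tset ps) (Dsc a b).primeFactors hTV,
      fun p hp hpl => EM_small hS g5.2.1 hp hpl⟩
  have hBEE := g4 S (Tset ps) (Dsc a b).primeFactors hS hTV
  obtain ⟨a0, ha0⟩ := crt_class hadm (PW X (S ∪ Tset ps) 1) (fun p hp => (mem_PW.1 hp).2.1)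
  have ha0' : ∀ i, (a i * a0 + b i).Coprime (a i * WW X (S ∪ Tset ps) 1) := fun i =>
    coprime_self_mul (adm_coprime hadm i) (ha0 i)
  have hφW := totient_WW X (S ∪ Tset ps) 1
  have hWpos : 0 < WW X (S ∪ Tset ps) 1 := Pool.Agent.H378R2.WW_pos X (S ∪ Tset ps) 1
  have hWle := WW_le X hX1 (S ∪ Tset ps) 1
  generalize hE : EM X S (Tset ps) (Dsc a b).primeFactors = E at hGF hEW hEP hPE hGE hBEE
  generalize hW : WW X (S ∪ Tset ps) 1 = W at hBV hEW hEP ha0' hφW hWpos hWle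
  generalize hP0 : (∏ i, a i) * ∏ i, ps i = P0 at hBV hEP
  -- sizes
  have hPWp : ∀ p ∈ PW X (S ∪ Tset ps) 1, p.Prime := fun p hp => (mem_PW.1 hp).2.1
  have hBEP0 := BE_pos hPWp
  have hBEP1 := BE_le_one hPWp
  have hBE0 : 0 < BE E := BE_pos hGE.pr
  have hBE1 : BE E ≤ 1 := BE_le_one hGE.pr
  have hBEPl : c0 / Real.log (Real.log X) ≤ BE (PW X (S ∪ Tset ps) 1) :=
    (g2 E hGE.pr hGE.cd).2.2.trans (BE_anti hPE hGE.pr)
  generalize hBEP : BE (PW X (S ∪ Tset ps) 1) = BEP at hBEE hφW hBEP0 hBEP1 hBEPl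
  have hWr : (0 : ℝ) < W := by exact_mod_cast hWpos
  have hWX : (W : ℝ) ≤ X ^ (1 / 500 : ℝ) := by
    refine hWle.trans ?_
    rw [Real.rpow_def_of_pos hX0]
    apply Real.exp_le_exp.2
    linarith
  have hLL0 : 0 < LL X := by linarith
  have hLB : 0 < LL X * BE E := mul_pos hLL0 hBE0
  obtain ⟨μ, hμ⟩ : ∃ μ : ℝ, μ = (X / (200 * W * BEP)) * (1 / (LL X * BE E) ^ K0) := ⟨_, rfl⟩
  have hμ0 : 0 < μ := by
    rw [hμ]
    positivity
  have hμlow : X / (W * (Real.log X) ^ K0) ≤ 200 * μ := by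
    rw [hμ]
    exact mu_low X W BEP (BE E) (Real.log X) (LL X) K0 hX0 hWr hBEP0 hBEP1 hBE0 hBE1 hLL0 (by rw [hLL]; linarith)
  -- the sums
  choose Bc hBc1 hBc2 using fun i => Bc_exists (Real.exp (kk X (a i))) (a i * W) (Nat.mul_pos (hapos i) hWpos)
  have hErle : ∀ i, A2 * Kr * Er2 K0 X (Real.exp (kk X (a i))) (a i * W) (W * P0) (Bc i) ≤ IIv * μ / 2 := by
    intro i
    have h1 := hBV i (Bc i) (hBc1 i)
    have h2 := (BVm_le K0 X (Real.exp (kk X (a i))) (a i * W) W P0 (Bc i)).trans h1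
    have h3 := g8 W (a i) (Real.exp (kk X (a i))) BEP _ hWpos hWX (hapos i) (haX i) (Real.exp_pos _) (hkf i).2.1
      (hkf i).2.2.1 hBEPl hφW h2
    have h5 : A2 * Kr * 400 / IIv * Er2 K0 X (Real.exp (kk X (a i))) (a i * W) (W * P0) (Bc i) ≤ 200 * μ :=
      h3.trans hμlow
    rw [div_mul_eq_mul_div, div_le_iff₀ hII] at h5
    linarith
  have He2 : 3 * Real.log X * m * (A2 * Real.exp (2 * LL X)) ≤ IIv * μ / 2 := by
    have h5 := (g9 W hWpos hWX).trans hμlow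
    rw [div_mul_eq_mul_div, div_le_iff₀ hII] at h5
    linarith
  have hN8 : (⌊8 * X⌋₊ : ℝ) ≤ 8 * X := Nat.floor_le (by linarith)
  have Hμ := Hmu X (⌊8 * X⌋₊ : ℝ) W BEP (BE E) (Real.log X) (LL X) K0 hX0 hN8 hWr hBEP0 hBE0 hLL0
    (by rw [hLL]; ring) hBEE
  rw [← hμ] at Hμ
  have HS1 := g6 E W a0 ⌊8 * X⌋₊ a b hGE hGF hWpos hEW
  rw [← hIIv, ← hA2] at HS1
  obtain ⟨n, hn, hlt⟩ := pos_abs ⌊8 * X⌋₊
    (fun n => cl W a0 n * sqw E X f A (fun j => (a j : ℤ) * n + b j) ^ 2)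
    (fun n => mul_nonneg (cl_nonneg _ _ _) (sq_nonneg _))
    (fun i n => th (a i * n + b i)) (fun i n => th_nonneg _) Kr hKr' μ IIv ε1 m (960000 * Real.exp 7) A2 (Real.log X)
    (Real.exp (2 * LL X)) _ (JJ f A) (fun i => Er2 K0 X (Real.exp (kk X (a i))) (a i * W) (W * P0) (Bc i))
    (fun i => (LPhi (Real.exp (kk X (a i))) * (1 / ((a i * W).totient : ℝ))) * (1 / (LL X * BE E) ^ K0))
    hμ0 hII (Nat.cast_nonneg m) (by linarith) hc70.le hA20 hKε hεII hε1pos.le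
    (fun i => by
      rw [hμ]
      exact mu_le X (Real.exp (kk X (a i))) BEP _ (a i) W hX0 (hkf i).2.2.1 (hapos i) hWpos hBEP0 (by positivity)
        (hkf i).1 hφW (hLP _ (g11.trans (hkf i).2.2.1)))
    (fun i => Er2_nonneg K0 X _ _ _ _ (hX1.trans (hkf i).2.2.1))
    (fun i => by
      have h1 := g7 i (Real.exp (kk X (a i))) E W a0 (W * P0) a b hGE hGF hWpos hEW hEP (hab i).2 (hapos i)
        (hkf i).1 (hkf i).2.1 (ha0' i) (Bc i) (hBc2 i)
      rw [← hA2] at h1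
      refine h1.trans (le_of_eq ?_)
      refine sum_congr rfl fun n _ => ?_
      ring)
    HS1 Hμ hM hErle He2
  rw [mem_Icc] at hn
  have hn8 : (n : ℝ) ≤ 8 * X := by
    have : (n : ℝ) ≤ ⌊8 * X⌋₊ := by exact_mod_cast hn.2
    linarith
  refine ⟨n, hn.1, hn8, ?_⟩
  exact primes_of_sum (fun i => a i * n + b i) (3 * Real.log X) (by linarith)
    (fun i => log_form X (by linarith) (a i) (b i) n (haX i) (hab i).2 hn8) m hlt

end Pool.Agent.H262R2.UM
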